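import Pool.Agent.Helper96.DP.Second

/-!
# Backward attempts do not help
-/

set_option linter.unusedSectionVars false
set_option linter.unusedSimpArgs false
set_option linter.unusedVariables false

namespace Pool.Agent.Helper96.DP

open Finset Filter Topology

variable {d : ℕ} [NeZero d] {μ p α ρ : ℝ}

/-- coefficients of the zeroth-order corrector after a backward step -/
noncomputable def be (μ p : ℝ) : ℝ :=
  ((p / kap μ p) * (1 - gam μ 2 * p) - (1 / kap μ p) * (gam μ 2 * p * (1 - p))) /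
    del p (gam μ 1) (gam μ 2)
noncomputable def om (μ p : ℝ) : ℝ :=
  ((1 / kap μ p) * (1 - gam μ 1 * (1 - p)) - (p / kap μ p) * gam μ 1) /
    del p (gam μ 1) (gam μ 2)

lemma ow_ne {k l : ℤ} (h : k ≠ l) : ow d k ≠ ow d l := fun h' => h (ow_inj h')

lemma step_Phi_plus (hμ : 0 < μ) (A : Finset (Edge d)) (M : Mem d) :
    step μ p plus (Phi p A) M = gam μ A.card * ((p + phi p (ow d 0) M) *
        ∏ e ∈ A, (if shE (vec plus) e = ow d 0 then 1 - p else phi p (shE (vec plus) e) M) +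
      (1 - p - phi p (ow d 0) M) *
        ∏ e ∈ A, (if e = ow d 0 then -p else phi p e M)) := by
  rw [step_Phi hμ, w_gam, edgeAt_plus]

lemma step_Phi_minus (hμ : 0 < μ) (A : Finset (Edge d)) (M : Mem d) :
    step μ p minus (Phi p A) M = gam μ A.card * ((p + phi p (ow d (-1)) M) *
        ∏ e ∈ A, (if shE (vec minus) e = ow d (-1) then 1 - p
          else phi p (shE (vec minus) e) M) +
      (1 - p - phi p (ow d (-1)) M) *
        ∏ e ∈ A, (if e = ow d (-1) then -p else phi p e M)) := by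
  rw [step_Phi hμ, w_gam, edgeAt_minus]

lemma phi_ow_H {k l : ℤ} (h : k ≤ l) {M : Mem d} (hM : M ∈ Free (H d k)) :
    phi p (ow d l) M = 0 := phi_Free hM (by show k ≤ (ow d l).1 0; rw [ow_lvl]; exact h)

lemma sol0' (hμ : 0 < μ) (h0 : 0 < p) (h1 : p < 1) (hr : Rate μ α ρ) {v0 : ℝ} {f0 : Mem d → ℝ}
    (hs0 : Sol μ p α (qw 0 0) (cp p) v0 f0) :
    ∀ M ∈ Free (H d 2), f0 M = ((((1 + μ) / kap μ p) • Phi p {ow d 0} +
      be μ p • Phi p {ow d 1} + om μ p • Phi p {ow d 0, ow d 1} : Mem d → ℝ)) M := by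
  have hq0 : Wts (qw 0 0 : Dir d → ℝ) := wts_qw le_rfl le_rfl (by simp)
  have hk := kap_pos hμ h1.le
  have hb := fun A : Finset (Edge d) => Bd_Phi (d := d) h0.le h1.le hr.α_pos.le A
  obtain ⟨b1, b2⟩ := lin_sys (del12 hμ h0 h1).ne' (s := p / kap μ p) (s' := 1 / kap μ p)
    (x := be μ p) (y := om μ p) rfl rfl
  have n01 : ow d 0 ≠ ow d 1 := ow_ne (by norm_num)
  have n10 : ow d 1 ≠ ow d 0 := ow_ne (by norm_num)
  have n20 : ow d 2 ≠ ow d 0 := ow_ne (by norm_num)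
  have e01 : shE (vec plus) (ow d 0) = ow d 1 := by rw [shE_plus_ow]; rfl
  have e12 : shE (vec plus) (ow d 1) = ow d 2 := by rw [shE_plus_ow]; rfl
  refine (hs0.eqOn hμ h0.le h1.le hr hq0 (closed_H (k := 2) (by norm_num)) (empty_mem_Free _)
    (v' := p * μ / kap μ p) (fun M hM => ?_) ?_
    ((((hb _).smul _).add ((hb _).smul _)).add ((hb _).smul _))).2
  · rw [P_q0]
    simp only [map_add, map_smul, Pi.add_apply, Pi.smul_apply, smul_eq_mul]
    rw [step_Phi_plus hμ, step_Phi_plus hμ, step_Phi_plus hμ, prod_singleton, prod_singleton,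
      prod_singleton, prod_singleton, prod_pair n01, prod_pair n01, e01, e12, if_neg n10,
      if_neg n20, if_pos rfl, if_neg n10, phi_ow_H le_rfl hM, Phi_single, Phi_single,
      Phi_pair n01, cp, edgeAt_plus, card_singleton, card_singleton, card_pair n01]
    have a1 : (1 + μ) / kap μ p * gam μ 1 = 1 / kap μ p := by
      rw [gam_one hμ]
      have h2 : 1 + μ ≠ 0 := by positivity
      have := hk.ne'
      field_simp
    have a2 : (1 + μ) / kap μ p = 1 + 1 / kap μ p * p := by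
      have := hk.ne'
      field_simp
      unfold kap; ring
    have a3 : 0 = p - p * μ / kap μ p - 1 / kap μ p * p * (1 - p) := by
      have := hk.ne'
      field_simp
      unfold kap; ring
    set o := phi p (ow d 0) M with ho
    set o1 := phi p (ow d 1) M with ho1
    set X := be μ p * gam μ 1 - om μ p * gam μ 2 * p with hX
    set A := (1 + μ) / kap μ p with hA
    linear_combination (-1 : ℝ) * ((p + o) * o1 - p * (1 - p - o)) * a1 + o * a2 + a3 +
      o1 * b1 + o * o1 * b2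
  · simp [Phi_empty_mem]

lemma fm_coef (hμ : 0 < μ) (h0 : 0 < p) (h1 : p < 1) :
    1 / kap μ p - be μ p * gam μ 1 - om μ p * gam μ 2 * (1 - p) =
      (1 - gam μ 1) * (1 - gam μ 2) / (kap μ p * del p (gam μ 1) (gam μ 2)) := by
  have hk := (kap_pos hμ h1.le).ne'
  have hd := (del12 hμ h0 h1).ne'
  unfold be om
  generalize hD : del p (gam μ 1) (gam μ 2) = D at hd ⊢
  field_simp
  rw [← hD]; unfold del; ring

lemma Fm_nonpos (hμ : 0 < μ) (h0 : 0 < p) (h1 : p < 1) (hr : Rate μ α ρ) {v0 : ℝ}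
    {f0 : Mem d → ℝ} (hs0 : Sol μ p α (qw 0 0) (cp p) v0 f0) {M : Mem d}
    (hM : M ∈ Free (S2 d)) : Fm μ p f0 M ≤ 0 := by
  have hk := kap_pos hμ h1.le
  have hd := del12 hμ h0 h1
  obtain ⟨hv, hf⟩ := sol0 hμ h0.le h1.le hr hs0
  have hf2 := sol0' hμ h0 h1 hr hs0
  have n01 : ow d 0 ≠ ow d 1 := ow_ne (by norm_num)
  have m0 : ow d 0 ≠ ow d (-1) := ow_ne (by norm_num)
  have m1 : ow d 1 ≠ ow d (-1) := ow_ne (by norm_num)
  have e0 : shE (vec minus) (ow d 0) = ow d (-1) := by rw [shE_minus_ow]; rfl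
  have e1 : shE (vec minus) (ow d 1) = ow d 0 := by rw [shE_minus_ow]; rfl
  have z1 : phi p (ow d 1) M = 0 := phi_ow_H le_rfl (Free_mono H1_sub_S2 hM)
  have s1 : step μ p minus f0 M = (1 + μ) / kap μ p * (gam μ 1 *
      ((p + phi p (ow d (-1)) M) * (1 - p) +
        (1 - p - phi p (ow d (-1)) M) * phi p (ow d 0) M)) +
      be μ p * (gam μ 1 * ((p + phi p (ow d (-1)) M) * phi p (ow d 0) M)) +
      om μ p * (gam μ 2 * ((p + phi p (ow d (-1)) M) * ((1 - p) * phi p (ow d 0) M))) := by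
    rw [step_minus_congr_S2 hf2 hM]
    simp only [map_add, map_smul, Pi.add_apply, Pi.smul_apply, smul_eq_mul]
    rw [step_Phi_minus hμ, step_Phi_minus hμ, step_Phi_minus hμ, prod_singleton, prod_singleton,
      prod_singleton, prod_singleton, prod_pair n01, prod_pair n01, e0, e1]
    simp only [if_neg m0, if_neg m1, if_true, z1, card_singleton, card_pair n01]
    ring
  have t0 := hs0.eq M
  rw [P_q0] at t0
  have t1 := hf M (Free_mono H1_sub_S2 hM)
  have hFm : Fm μ p f0 M = cm p M + step μ p minus f0 M - (f0 M + v0) := by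
    simp only [Fm, opN, LinearMap.sub_apply, Pi.add_apply, Pi.sub_apply]
    linarith
  have hA : (1 + μ) / kap μ p * gam μ 1 = 1 / kap μ p := by
    rw [gam_one hμ]
    have h2 : 1 + μ ≠ 0 := by positivity
    have := hk.ne'
    field_simp
  set o := phi p (ow d 0) M with ho
  set b := phi p (ow d (-1)) M with hb
  have hcm : cm p M = -(p + b) := by rw [cm, edgeAt_minus]
  set k := 1 / kap μ p - be μ p * gam μ 1 - om μ p * gam μ 2 * (1 - p) with hkk
  have hfin : Fm μ p f0 M = -((p + b) * (μ / kap μ p + k * o)) - μ / kap μ p * (p + o) := by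
    have g1 : (1 + μ) / kap μ p = 1 / kap μ p + μ / kap μ p := by rw [add_div]
    have g2 : 1 - (1 - p) * (1 / kap μ p) = μ / kap μ p := by
      have := hk.ne'
      field_simp
      unfold kap; ring
    rw [hFm, hcm, s1, t1, hv, hkk]
    have g3 : (1 + μ) / kap μ p * (gam μ 1 * ((p + b) * (1 - p) + (1 - p - b) * o)) =
        1 / kap μ p * ((p + b) * (1 - p) + (1 - p - b) * o) := by
      rw [← mul_assoc, hA]
    rw [g3, g1]
    linear_combination (-(p + b)) * g2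
  have hb0 : 0 ≤ p + b := belief_nonneg h0.le h1.le _ _
  have ho0 : 0 ≤ p + o := belief_nonneg h0.le h1.le _ _
  have hkval := fm_coef hμ h0 h1
  rw [← hkk] at hkval
  have q1 : 0 < 1 - gam μ 1 := by linarith [gam_lt_one hμ (k := 1) (by norm_num)]
  have q2 : 0 < 1 - gam μ 2 := by linarith [gam_lt_one hμ (k := 2) (by norm_num)]
  have hk0 : 0 ≤ k := by rw [hkval]; positivity
  have hk1 : k * p ≤ μ / kap μ p := by
    rw [hkval, div_mul_eq_mul_div, div_le_div_iff₀ (by positivity) hk]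
    have r1 : 1 - gam μ 1 ≤ μ := by
      unfold gam
      rw [sub_le_iff_le_add, ← sub_le_iff_le_add', le_div_iff₀ (by positivity)]
      push_cast
      nlinarith
    have r2 : (1 - gam μ 2) * p ≤ del p (gam μ 1) (gam μ 2) := by
      unfold del
      have : 0 ≤ (1 - gam μ 1) * (1 - p) := by
        have : 0 < 1 - p := by linarith
        positivity
      nlinarith
    have r3 : (1 - gam μ 1) * ((1 - gam μ 2) * p) ≤ μ * del p (gam μ 1) (gam μ 2) :=
      mul_le_mul r1 r2 (by positivity) hμ.le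
    have r4 := mul_le_mul_of_nonneg_right r3 hk.le
    nlinarith
  rw [hfin]
  have u1 : 0 ≤ μ / kap μ p + k * o := by nlinarith
  have u2 : 0 ≤ (p + b) * (μ / kap μ p + k * o) := mul_nonneg hb0 u1
  have u3 : 0 ≤ μ / kap μ p * (p + o) := by positivity
  linarith

lemma kN_nonpos (hμ : 0 < μ) (h0 : 0 < p) (h1 : p < 1) (hr : Rate μ α ρ) {v0 : ℝ}
    {f0 : Mem d → ℝ} (hs0 : Sol μ p α (qw 0 0) (cp p) v0 f0) :
    nu μ p (qw 0 0) (Fm μ p f0) ≤ 0 := by
  have hα := hr.α_pos.le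
  have hq0 : Wts (qw 0 0 : Dir d → ℝ) := wts_qw le_rfl le_rfl (by simp)
  obtain ⟨C0, hC0⟩ := hs0.bd
  have bFm := ((Bd_cm (d := d) h0.le h1.le hα).sub (Bd_cp h0.le h1.le hα)).add
    (hC0.opN hμ h0.le h1.le hα)
  change Bd α _ (Fm μ p f0) at bFm
  exact nu_nonpos_on hμ h0.le h1.le hr hq0 closed_S2 (empty_mem_Free _) bFm
    fun M hM => Fm_nonpos hμ h0 h1 hr hs0 hM

/-- **The stationary mean displacement at the critical curve is strictly decreasing in `ε`.** -/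
theorem stat_anti (hμ : 0 < μ) (h0 : 0 < p) (h1 : p < 1) (hcrit : μ ^ 2 = p * (1 - p))
    (hm : 0 < mm d) {B : ℝ} (hB : 0 ≤ B) :
    ∃ δ : ℝ, 0 < δ ∧ ∀ ε₁ r₁ ε₂ r₂ : ℝ, Adm d ε₁ r₁ → Adm d ε₂ r₂ → ε₁ < ε₂ → ε₂ ≤ δ → r₁ ≤ r₂ →
      r₂ - r₁ ≤ B * (ε₂ - ε₁) * ε₂ →
      nu μ p (qw ε₂ r₂ : Dir d → ℝ) (cost p (qw ε₂ r₂)) <
        nu μ p (qw ε₁ r₁ : Dir d → ℝ) (cost p (qw ε₁ r₁)) := by
  obtain ⟨α, ρ, hr⟩ := exists_rate hμ
  have hα := hr.α_pos.le
  have hq0 : Wts (qw 0 0 : Dir d → ℝ) := wts_qw le_rfl le_rfl (by simp)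
  obtain ⟨f0, hs0, -, hb0⟩ := exists_sol hμ h0.le h1.le hr hq0 (Bd_cp (d := d) h0.le h1.le hα)
  have bF0 := ((Bd_cp (d := d) h0.le h1.le hα).smul (-(mm d))).add
    (hb0.opL hμ h0.le h1.le hα)
  change Bd α _ (F0 μ p f0) at bF0
  obtain ⟨f1, hs1, -, -⟩ := exists_sol hμ h0.le h1.le hr hq0 bF0
  obtain ⟨C, hC, hmain⟩ := perturb hμ h0.le h1.le hr hs0 hs1
  have hκL := kL_neg hμ h0 h1 hr hm hs0 hs1
  have hκN := kN_nonpos hμ h0 h1 hr hs0
  have hv1 : nu μ p (qw 0 0 : Dir d → ℝ) (F0 μ p f0) = 0 := by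
    rw [(sol1 hμ h0 h1 hr hs0 hs1).1, v1m, hcrit]; ring
  set κL := nu μ p (qw 0 0 : Dir d → ℝ) (opL μ p f1) with hκLd
  set κN := nu μ p (qw 0 0 : Dir d → ℝ) (Fm μ p f0) with hκNd
  refine ⟨-κL / (2 * (C * (1 + B) + 1)), div_pos (by linarith) (by positivity),
    fun ε₁ r₁ ε₂ r₂ a1 a2 hε hδ hr12 hB' => ?_⟩
  have h2 := hmain ε₁ r₁ ε₂ r₂ a1 a2 hε.le hr12
  rw [hv1] at h2
  have h3 := (abs_le.1 h2).2
  have p1 := a1.ε0
  have p2 : 0 < ε₂ := lt_of_le_of_lt p1 hε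
  have hd1 : 0 < ε₂ - ε₁ := by linarith
  have hd2 : 0 ≤ r₂ - r₁ := by linarith
  -- upper bound
  have k1 : (r₂ - r₁) * κN ≤ 0 := mul_nonpos_of_nonneg_of_nonpos hd2 hκN
  have k2 : (ε₂ - ε₁) * (0 + (ε₁ + ε₂) * κL) ≤ (ε₂ - ε₁) * (ε₂ * κL) := by
    apply mul_le_mul_of_nonneg_left _ hd1.le
    have : ε₁ * κL ≤ 0 := mul_nonpos_of_nonneg_of_nonpos p1 hκL.le
    linarith
  have k3 : C * ((ε₂ - ε₁) * ε₂ ^ 2 + (r₂ - r₁) * ε₂) ≤
      (ε₂ - ε₁) * ε₂ * (C * (1 + B) * ε₂) := by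
    have t1 : (r₂ - r₁) * ε₂ ≤ B * (ε₂ - ε₁) * ε₂ * ε₂ := mul_le_mul_of_nonneg_right hB' p2.le
    have t2 := mul_le_mul_of_nonneg_left t1 hC
    have t3 : (ε₂ - ε₁) * ε₂ * (C * (1 + B) * ε₂) = C * ((ε₂ - ε₁) * ε₂ ^ 2) +
      C * (B * (ε₂ - ε₁) * ε₂ * ε₂) := by ring
    rw [t3, mul_add]
    linarith
  have k4 : C * (1 + B) * ε₂ < -κL := by
    have hX : 0 ≤ C * (1 + B) := by positivity
    rw [le_div_iff₀ (by positivity)] at hδ
    nlinarith
  have k5 : (ε₂ - ε₁) * ε₂ * (C * (1 + B) * ε₂) < (ε₂ - ε₁) * ε₂ * (-κL) :=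
    mul_lt_mul_of_pos_left k4 (by positivity)
  have k6 : (ε₂ - ε₁) * (ε₂ * κL) = -((ε₂ - ε₁) * ε₂ * (-κL)) := by ring
  linarith

end Pool.Agent.Helper96.DP
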