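import Pool.Agent.Helper96.DP.Def

/-!
# The memory chain

A memory is a finite set of pairs (edge, state), the edges being given relative to the walk. The
operators below are the transition operators of the Markov chain (memory just before a ring of the
clock of the walk): the walk attempts the edge in direction `a`, sees its state, moves if it is
open, and then every remembered edge is forgotten if its clock rings before the next ring.
-/

namespace Pool.Agent.Helper96.DP

open Finset

variable {d : ℕ}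

/-- Memories. -/
abbrev Mem (d : ℕ) : Type := Finset (Edge d × Bool)

/-- The probability that, among `j + k` remembered edges, `j` given ones are kept and the other
`k` are forgotten during an independent exponential time of rate one. -/
noncomputable def w (μ : ℝ) (j k : ℕ) : ℝ :=
  (k.factorial : ℝ) * μ ^ k / ∏ i ∈ range (k + 1), (1 + ((j + i : ℕ) : ℝ) * μ)

lemma den_pos {μ : ℝ} (hμ : 0 < μ) (j : ℕ) : 0 < 1 + (j : ℝ) * μ := by positivity

lemma w_pos {μ : ℝ} (hμ : 0 < μ) (j k : ℕ) : 0 < w μ j k := by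
  unfold w
  refine div_pos (by positivity) (prod_pos fun i _ => den_pos hμ _)

lemma w_zero (μ : ℝ) (j : ℕ) : w μ j 0 = 1 / (1 + (j : ℝ) * μ) := by simp [w]

lemma w_rec {μ : ℝ} (hμ : 0 < μ) (j k : ℕ) : w μ j k = w μ (j + 1) k + w μ j (k + 1) := by
  unfold w
  have h1 : ∏ i ∈ range (k + 1 + 1), (1 + ((j + i : ℕ) : ℝ) * μ) =
      (∏ i ∈ range (k + 1), (1 + ((j + i : ℕ) : ℝ) * μ)) * (1 + ((j + (k + 1) : ℕ) : ℝ) * μ) :=
    prod_range_succ _ _
  have h2 : ∏ i ∈ range (k + 1 + 1), (1 + ((j + i : ℕ) : ℝ) * μ) =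
      (∏ i ∈ range (k + 1), (1 + ((j + 1 + i : ℕ) : ℝ) * μ)) * (1 + (j : ℝ) * μ) := by
    rw [prod_range_succ']
    simp only [add_zero]
    congr 1
    refine prod_congr rfl fun i _ => ?_
    rw [show j + (i + 1) = j + 1 + i by ring]
  set A := ∏ i ∈ range (k + 1), (1 + ((j + i : ℕ) : ℝ) * μ) with hA
  set B := ∏ i ∈ range (k + 1), (1 + ((j + 1 + i : ℕ) : ℝ) * μ) with hB
  have hA0 : A ≠ 0 := (prod_pos fun i _ => den_pos hμ _).ne'
  have hB0 : B ≠ 0 := (prod_pos fun i _ => den_pos hμ _).ne'
  have h3 : (1 + ((j + (k + 1) : ℕ) : ℝ) * μ) ≠ 0 := (den_pos hμ _).ne'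
  have h4 : (1 + (j : ℝ) * μ) ≠ 0 := (den_pos hμ _).ne'
  have h5 : A * (1 + ((j + (k + 1) : ℕ) : ℝ) * μ) = B * (1 + (j : ℝ) * μ) := by rw [← h1, h2]
  rw [h1]
  have h6 : B = A * (1 + ((j + (k + 1) : ℕ) : ℝ) * μ) / (1 + (j : ℝ) * μ) := by
    rw [h5]; field_simp
  rw [h6, Nat.factorial_succ]
  field_simp
  push_cast
  ring

lemma w_anti {μ : ℝ} (hμ : 0 < μ) (j k : ℕ) : w μ j (k + 1) ≤ w μ j k := by
  have := w_rec hμ j k
  have := w_pos hμ (j + 1) k
  linarith

lemma w_anti' {μ : ℝ} (hμ : 0 < μ) (j : ℕ) {k l : ℕ} (h : k ≤ l) : w μ j l ≤ w μ j k :=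
  antitone_nat_of_succ_le (w_anti hμ j) h

lemma sum_w {α : Type*} [DecidableEq α] {μ : ℝ} (hμ : 0 < μ) (C : Finset α) : ∀ a b : ℕ,
    ∑ B ∈ C.powerset, w μ (a + B.card) (b + (C.card - B.card)) = w μ a b := by
  induction C using Finset.induction_on with
  | empty => intro a b; simp
  | insert x C hx ih =>
    intro a b
    rw [sum_powerset_insert hx, ← sum_add_distrib]
    have h : ∀ B ∈ C.powerset, w μ (a + B.card) (b + ((insert x C).card - B.card)) +
        w μ (a + (insert x B).card) (b + ((insert x C).card - (insert x B).card)) =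
        w μ (a + B.card) (b + (C.card - B.card)) := by
      intro B hB
      have hB' : B ⊆ C := mem_powerset.1 hB
      have hc : B.card ≤ C.card := card_le_card hB'
      rw [card_insert_of_notMem hx, card_insert_of_notMem fun h => hx (hB' h)]
      rw [w_rec hμ (a + B.card) (b + (C.card - B.card)), add_comm]
      congr 2 <;> omega
    rw [sum_congr rfl h, ih]

/-- Forgetting. -/
noncomputable def thin (μ : ℝ) : (Mem d → ℝ) →ₗ[ℝ] (Mem d → ℝ) where
  toFun g M := ∑ M' ∈ M.powerset, w μ M'.card (M.card - M'.card) * g M'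
  map_add' g g' := by
    funext M; simp only [Pi.add_apply, mul_add, sum_add_distrib]
  map_smul' c g := by
    funext M
    simp only [Pi.smul_apply, smul_eq_mul, RingHom.id_apply, mul_sum]
    exact sum_congr rfl fun _ _ => by ring

lemma thin_apply (μ : ℝ) (g : Mem d → ℝ) (M : Mem d) :
    thin μ g M = ∑ M' ∈ M.powerset, w μ M'.card (M.card - M'.card) * g M' := rfl

lemma thin_const {μ : ℝ} (hμ : 0 < μ) (c : ℝ) (M : Mem d) : thin μ (fun _ => c) M = c := by
  rw [thin_apply, ← sum_mul]
  have := sum_w hμ M 0 0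
  simp only [zero_add] at this
  rw [this, w_zero]; simp

/-- indicator that all elements of `B` are remembered -/
def ind (B : Mem d) (M : Mem d) : ℝ := if B ⊆ M then 1 else 0

lemma thin_ind {μ : ℝ} (hμ : 0 < μ) (B M : Mem d) :
    thin μ (ind B) M = w μ B.card 0 * ind B M := by
  rw [thin_apply]
  unfold ind
  by_cases h : B ⊆ M
  · rw [if_pos h, mul_one]
    have h1 : ∑ M' ∈ M.powerset, w μ M'.card (M.card - M'.card) * (if B ⊆ M' then 1 else 0) =
        ∑ M' ∈ Finset.Icc B M, w μ M'.card (M.card - M'.card) := by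
      simp only [mul_ite, mul_one, mul_zero]
      rw [← sum_filter]
      refine sum_congr ?_ fun _ _ => rfl
      ext M'
      simp [Finset.mem_Icc, and_comm]
    rw [h1, Finset.Icc_eq_image_powerset h, sum_image]
    · have h2 := sum_w hμ (M \ B) B.card 0
      rw [← h2]
      refine sum_congr rfl fun C hC => ?_
      have hC' : C ⊆ M \ B := mem_powerset.1 hC
      have hd : Disjoint B C := by
        rw [Finset.disjoint_left]; intro x hx hx'
        exact (mem_sdiff.1 (hC' hx')).2 hx
      rw [card_union_of_disjoint hd, card_sdiff_of_subset h]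
      congr 1; omega
    · intro C hC C' hC' hh
      have hC1 : C ⊆ M \ B := mem_powerset.1 (Finset.mem_coe.1 hC)
      have hC1' : C' ⊆ M \ B := mem_powerset.1 (Finset.mem_coe.1 hC')
      have e1 : (B ∪ C) \ B = C := by
        rw [union_sdiff_left, Finset.sdiff_eq_self_iff_disjoint, Finset.disjoint_left]
        intro x hx; exact (mem_sdiff.1 (hC1 hx)).2
      have e2 : (B ∪ C') \ B = C' := by
        rw [union_sdiff_left, Finset.sdiff_eq_self_iff_disjoint, Finset.disjoint_left]
        intro x hx; exact (mem_sdiff.1 (hC1' hx)).2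
      have hh' : B ∪ C = B ∪ C' := hh
      rw [← e1, ← e2, hh']
  · rw [if_neg h, mul_zero]
    refine sum_eq_zero fun M' hM' => ?_
    rw [if_neg, mul_zero]
    exact fun h' => h (h'.trans (mem_powerset.1 hM'))

/-- The centred belief about an edge: state minus `p` if the edge is remembered, `0` otherwise. -/
def phi (p : ℝ) (e : Edge d) (M : Mem d) : ℝ :=
  (if (e, true) ∈ M then 1 - p else 0) - (if (e, false) ∈ M then p else 0)

/-- products of centred beliefs -/
def Phi (p : ℝ) (A : Finset (Edge d)) (M : Mem d) : ℝ := ∏ e ∈ A, phi p e M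

lemma thin_ind_Phi {μ : ℝ} (hμ : 0 < μ) (p : ℝ) (A : Finset (Edge d)) :
    ∀ B : Mem d, (∀ x ∈ B, x.1 ∉ A) → ∀ M,
    thin μ (fun M' => ind B M' * Phi p A M') M =
      w μ (B.card + A.card) 0 * (ind B M * Phi p A M) := by
  induction A using Finset.induction_on with
  | empty =>
    intro B _ M
    simp only [Phi, prod_empty, mul_one, card_empty, add_zero]
    exact thin_ind hμ B M
  | insert e A he ih =>
    intro B hB M
    have hBt : (e, true) ∉ B := fun h => hB _ h (mem_insert_self _ _)
    have hBf : (e, false) ∉ B := fun h => hB _ h (mem_insert_self _ _)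
    have key : ∀ M' : Mem d, ind B M' * Phi p (insert e A) M' =
        (1 - p) * (ind (insert (e, true) B) M' * Phi p A M') -
        p * (ind (insert (e, false) B) M' * Phi p A M') := by
      intro M'
      simp only [Phi, prod_insert he, ind, insert_subset_iff, phi]
      by_cases h1 : (e, true) ∈ M' <;> by_cases h2 : (e, false) ∈ M' <;>
        by_cases h3 : B ⊆ M' <;> (simp [h1, h2, h3]; try ring)
    have h1 : (fun M' => ind B M' * Phi p (insert e A) M') =
        (1 - p) • (fun M' => ind (insert (e, true) B) M' * Phi p A M') -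
        p • (fun M' => ind (insert (e, false) B) M' * Phi p A M') := by
      funext M'; simp only [Pi.sub_apply, Pi.smul_apply, smul_eq_mul]; exact key M'
    rw [h1, map_sub, map_smul, map_smul]
    simp only [Pi.sub_apply, Pi.smul_apply, smul_eq_mul]
    rw [ih (insert (e, true) B), ih (insert (e, false) B), key M,
      card_insert_of_notMem hBt, card_insert_of_notMem hBf, card_insert_of_notMem he]
    · rw [show B.card + 1 + A.card = B.card + (A.card + 1) by ring]; ring
    · intro x hx
      rcases mem_insert.1 hx with rfl | hx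
      · exact he
      · exact fun h => hB x hx (mem_insert_of_mem h)
    · intro x hx
      rcases mem_insert.1 hx with rfl | hx
      · exact he
      · exact fun h => hB x hx (mem_insert_of_mem h)

lemma thin_Phi {μ : ℝ} (hμ : 0 < μ) (p : ℝ) (A : Finset (Edge d)) (M : Mem d) :
    thin μ (Phi p A) M = w μ A.card 0 * Phi p A M := by
  have h := thin_ind_Phi hμ p A ∅ (by simp) M
  simpa [ind] using h

/-- The memory after seeing the edge `u` in the state `s`. -/
def upd (u : Edge d) (s : Bool) (M : Mem d) : Mem d := insert (u, s) (M.filter fun x => x.1 ≠ u)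

/-- translation of edges -/
def shE (z : Site d) (e : Edge d) : Edge d := (e.1 + z, e.2)

/-- translation of remembered edges -/
def shEmb (z : Site d) : (Edge d × Bool) ↪ (Edge d × Bool) where
  toFun x := ((x.1.1 - z, x.1.2), x.2)
  inj' := by
    rintro ⟨⟨x, i⟩, s⟩ ⟨⟨y, j⟩, t⟩ h
    simp only [Prod.mk.injEq, sub_left_inj] at h
    obtain ⟨⟨rfl, rfl⟩, rfl⟩ := h; rfl

/-- The memory relative to the new position when the walk moves by `z`. -/
def sh (z : Site d) (M : Mem d) : Mem d := M.map (shEmb z)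

lemma mem_sh (z : Site d) (M : Mem d) (e : Edge d) (s : Bool) :
    (e, s) ∈ sh z M ↔ (shE z e, s) ∈ M := by
  rw [sh, mem_map]
  constructor
  · rintro ⟨⟨⟨x, i⟩, t⟩, h, h1⟩
    obtain ⟨e1, e2⟩ := e
    have h2 : ((x - z, i), t) = ((e1, e2), s) := h1
    simp only [Prod.mk.injEq] at h2
    obtain ⟨⟨h2, h3⟩, h4⟩ := h2
    subst h2; subst h3; subst h4
    simpa [shE] using h
  · intro h
    refine ⟨((e.1 + z, e.2), s), h, ?_⟩
    show (((e.1 + z - z, e.2), s) : Edge d × Bool) = (e, s)
    simp

lemma card_sh (z : Site d) (M : Mem d) : (sh z M).card = M.card := card_map _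

lemma phi_sh (p : ℝ) (z : Site d) (M : Mem d) (e : Edge d) :
    phi p e (sh z M) = phi p (shE z e) M := by
  simp [phi, mem_sh]

lemma mem_upd (u : Edge d) (s : Bool) (M : Mem d) (e : Edge d) (t : Bool) :
    (e, t) ∈ upd u s M ↔ (e = u ∧ t = s) ∨ (e ≠ u ∧ (e, t) ∈ M) := by
  unfold upd
  simp only [mem_insert, Prod.mk.injEq, mem_filter]
  tauto

lemma card_upd_le (u : Edge d) (s : Bool) (M : Mem d) : (upd u s M).card ≤ M.card + 1 := by
  unfold upd
  exact (card_insert_le _ _).trans (Nat.add_le_add_right (card_filter_le _ _) 1)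

lemma phi_upd_self (p : ℝ) (u : Edge d) (s : Bool) (M : Mem d) :
    phi p u (upd u s M) = if s then 1 - p else -p := by
  unfold phi
  cases s <;> simp [mem_upd]

lemma phi_upd_of_ne (p : ℝ) {u e : Edge d} (h : e ≠ u) (s : Bool) (M : Mem d) :
    phi p e (upd u s M) = phi p e M := by
  unfold phi
  simp [mem_upd, h]

lemma belief_nonneg {p : ℝ} (h0 : 0 ≤ p) (h1 : p ≤ 1) (e : Edge d) (M : Mem d) :
    0 ≤ p + phi p e M := by
  unfold phi; split_ifs <;> linarith

lemma belief_le_one {p : ℝ} (h0 : 0 ≤ p) (h1 : p ≤ 1) (e : Edge d) (M : Mem d) :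
    0 ≤ 1 - p - phi p e M := by
  unfold phi; split_ifs <;> linarith

/-- The transition operator of an attempt in direction `a`. -/
noncomputable def step (μ p : ℝ) (a : Dir d) : (Mem d → ℝ) →ₗ[ℝ] (Mem d → ℝ) where
  toFun g M := (p + phi p (edgeAt 0 a) M) * thin μ g (sh (vec a) (upd (edgeAt 0 a) true M)) +
    (1 - p - phi p (edgeAt 0 a) M) * thin μ g (upd (edgeAt 0 a) false M)
  map_add' g g' := by
    funext M; simp only [map_add, Pi.add_apply]; ring
  map_smul' c g := by
    funext M
    simp only [map_smul, Pi.smul_apply, smul_eq_mul, RingHom.id_apply]; ring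

lemma step_apply (μ p : ℝ) (a : Dir d) (g : Mem d → ℝ) (M : Mem d) :
    step μ p a g M = (p + phi p (edgeAt 0 a) M) *
      thin μ g (sh (vec a) (upd (edgeAt 0 a) true M)) +
    (1 - p - phi p (edgeAt 0 a) M) * thin μ g (upd (edgeAt 0 a) false M) := rfl

lemma thin_mono {μ : ℝ} (hμ : 0 < μ) {g g' : Mem d → ℝ} (h : ∀ M, g M ≤ g' M) (M : Mem d) :
    thin μ g M ≤ thin μ g' M :=
  sum_le_sum fun M' _ => mul_le_mul_of_nonneg_left (h M') (w_pos hμ _ _).le

lemma step_mono {μ p : ℝ} (hμ : 0 < μ) (h0 : 0 ≤ p) (h1 : p ≤ 1) (a : Dir d)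
    {g g' : Mem d → ℝ} (h : ∀ M, g M ≤ g' M) (M : Mem d) : step μ p a g M ≤ step μ p a g' M :=
  add_le_add (mul_le_mul_of_nonneg_left (thin_mono hμ h _) (belief_nonneg h0 h1 _ _))
    (mul_le_mul_of_nonneg_left (thin_mono hμ h _) (belief_le_one h0 h1 _ _))

lemma step_const {μ p : ℝ} (hμ : 0 < μ) (a : Dir d) (c : ℝ) (M : Mem d) :
    step μ p a (fun _ => c) M = c := by
  rw [step_apply, thin_const hμ, thin_const hμ]; ring

lemma step_Phi {μ p : ℝ} (hμ : 0 < μ) (a : Dir d) (A : Finset (Edge d)) (M : Mem d) :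
    step μ p a (Phi p A) M = w μ A.card 0 * ((p + phi p (edgeAt 0 a) M) *
        ∏ e ∈ A, (if shE (vec a) e = edgeAt 0 a then 1 - p else phi p (shE (vec a) e) M) +
      (1 - p - phi p (edgeAt 0 a) M) *
        ∏ e ∈ A, (if e = edgeAt 0 a then -p else phi p e M)) := by
  rw [step_apply, thin_Phi hμ, thin_Phi hμ]
  have h1 : Phi p A (sh (vec a) (upd (edgeAt 0 a) true M)) =
      ∏ e ∈ A, (if shE (vec a) e = edgeAt 0 a then 1 - p else phi p (shE (vec a) e) M) := by
    refine prod_congr rfl fun e _ => ?_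
    rw [phi_sh]
    split_ifs with h
    · rw [h, phi_upd_self]; simp
    · rw [phi_upd_of_ne _ h]
  have h2 : Phi p A (upd (edgeAt 0 a) false M) =
      ∏ e ∈ A, (if e = edgeAt 0 a then -p else phi p e M) := by
    refine prod_congr rfl fun e _ => ?_
    split_ifs with h
    · rw [h, phi_upd_self]; simp
    · rw [phi_upd_of_ne _ h]
  rw [h1, h2]; ring

end Pool.Agent.Helper96.DP
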