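import Pool.Agent.Helper96.DP.Prob

/-!
# Poisson clocks given by exponential waiting times
-/

set_option linter.unusedSectionVars false
set_option linter.unusedSimpArgs false
set_option linter.unusedVariables false

namespace Pool.Agent.Helper96.DP

open MeasureTheory ProbabilityTheory Filter Topology Set

/-- Positive waiting times with divergent sum. -/
def Good (g : ℕ → ℝ) : Prop :=
  (∀ i, 0 < g i) ∧ ∀ t, ∃ n, t < ∑ i ∈ Finset.range (n + 1), g i

lemma rings_spec {g : ℕ → ℝ} (hg : Good g) (t : ℝ) :
    t < ∑ i ∈ Finset.range (rings g t + 1), g i :=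
  Nat.sInf_mem (s := {n | t < ∑ i ∈ Finset.range (n + 1), g i}) (hg.2 t)

lemma rings_le {g : ℕ → ℝ} {t : ℝ} {n : ℕ} (h : t < ∑ i ∈ Finset.range (n + 1), g i) :
    rings g t ≤ n := Nat.sInf_le h

lemma ringTime_mono {g : ℕ → ℝ} (hg : ∀ i, 0 < g i) : Monotone fun n => ringTime g n := by
  intro m n h
  exact Finset.sum_le_sum_of_subset_of_nonneg (Finset.range_mono h) fun i _ _ => (hg i).le

lemma rings_eq_iff {g : ℕ → ℝ} (hg : Good g) {t : ℝ} (ht : 0 ≤ t) (n : ℕ) :
    rings g t = n ↔ ringTime g n ≤ t ∧ t < ringTime g n + g n := by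
  have hS : ringTime g n + g n = ∑ i ∈ Finset.range (n + 1), g i :=
    (Finset.sum_range_succ _ _).symm
  rw [hS]
  constructor
  · rintro rfl
    refine ⟨?_, rings_spec hg t⟩
    rcases Nat.eq_zero_or_pos (rings g t) with h | h
    · rw [h]; simpa [ringTime] using ht
    · by_contra hlt
      push Not at hlt
      have h1 : rings g t ≤ rings g t - 1 := by
        apply rings_le
        rw [Nat.sub_add_cancel h]
        exact hlt
      omega
  · rintro ⟨h1, h2⟩
    refine le_antisymm (rings_le h2) ?_
    by_contra hlt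
    push Not at hlt
    have h3 := rings_spec hg t
    have h4 : ringTime g (rings g t + 1) ≤ ringTime g n := ringTime_mono hg.1 hlt
    have h5 : t < ringTime g (rings g t + 1) := h3
    linarith

lemma rings_mono {g : ℕ → ℝ} (hg : Good g) : Monotone (rings g) := by
  intro s t hst
  exact rings_le (lt_of_le_of_lt hst (rings_spec hg t))

lemma measurable_rings2 : Measurable fun z : (ℕ → ℝ) × ℝ => rings z.1 z.2 := by
  have hS : ∀ n : ℕ, Measurable fun z : (ℕ → ℝ) × ℝ => ∑ i ∈ Finset.range (n + 1), z.1 i :=
    fun n => Finset.measurable_sum _ fun i _ => (measurable_pi_apply i).comp measurable_fst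
  have hA : ∀ n : ℕ, MeasurableSet {z : (ℕ → ℝ) × ℝ | z.2 < ∑ i ∈ Finset.range (n + 1), z.1 i} :=
    fun n => measurableSet_lt measurable_snd (hS n)
  refine measurable_to_countable' fun n => ?_
  have h1 : (fun z : (ℕ → ℝ) × ℝ => rings z.1 z.2) ⁻¹' {n} =
      ({z | z.2 < ∑ i ∈ Finset.range (n + 1), z.1 i} ∩
        ⋂ m : ℕ, {z | m < n → ¬ z.2 < ∑ i ∈ Finset.range (m + 1), z.1 i}) ∪
      {z | n = 0 ∧ ∀ m : ℕ, ¬ z.2 < ∑ i ∈ Finset.range (m + 1), z.1 i} := by
    ext z
    simp only [mem_preimage, mem_singleton_iff, mem_union, mem_inter_iff, mem_setOf_eq,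
      mem_iInter]
    constructor
    · intro h
      by_cases hne : ∃ m : ℕ, z.2 < ∑ i ∈ Finset.range (m + 1), z.1 i
      · left
        have h2 := Nat.sInf_mem (s := {m | z.2 < ∑ i ∈ Finset.range (m + 1), z.1 i}) hne
        rw [show sInf {m | z.2 < ∑ i ∈ Finset.range (m + 1), z.1 i} = n from h] at h2
        refine ⟨h2, fun m hm hlt => ?_⟩
        have h3 : rings z.1 z.2 ≤ m := rings_le hlt
        omega
      · right
        push Not at hne
        refine ⟨?_, fun m => not_lt.2 (hne m)⟩
        rw [← h]
        have : {m : ℕ | z.2 < ∑ i ∈ Finset.range (m + 1), z.1 i} = ∅ := by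
          ext m; simp [hne m]
        unfold rings; rw [this]; exact Nat.sInf_empty
    · rintro (⟨h2, h3⟩ | ⟨h2, h3⟩)
      · refine le_antisymm (rings_le h2) ?_
        by_contra hlt
        push Not at hlt
        refine h3 _ hlt ?_
        exact Nat.sInf_mem (s := {m | z.2 < ∑ i ∈ Finset.range (m + 1), z.1 i}) ⟨n, h2⟩
      · subst h2
        have : {m : ℕ | z.2 < ∑ i ∈ Finset.range (m + 1), z.1 i} = ∅ := by
          ext m; simpa using h3 m
        unfold rings; rw [this]; exact Nat.sInf_empty
  rw [h1]
  refine ((hA n).inter (MeasurableSet.iInter fun m => ?_)).union ?_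
  · by_cases hm : m < n
    · simp only [hm, true_imp_iff]; exact (hA m).compl
    · simp only [hm, false_imp_iff, setOf_true]; exact MeasurableSet.univ
  · by_cases hn : n = 0
    · simp only [hn, true_and]
      have : {z : (ℕ → ℝ) × ℝ | ∀ m : ℕ, ¬ z.2 < ∑ i ∈ Finset.range (m + 1), z.1 i} =
          ⋂ m : ℕ, {z | z.2 < ∑ i ∈ Finset.range (m + 1), z.1 i}ᶜ := by
        ext z; simp
      rw [this]
      exact MeasurableSet.iInter fun m => (hA m).compl
    · simp only [hn, false_and, setOf_false]; exact MeasurableSet.empty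

lemma measurable_rings (t : ℝ) : Measurable fun g : ℕ → ℝ => rings g t :=
  measurable_rings2.comp (measurable_id.prodMk measurable_const)

/-- The law of the waiting times of a Poisson clock. -/
noncomputable def clockLaw (r : ℝ) : Measure (ℕ → ℝ) := Measure.infinitePi fun _ : ℕ => expMeasure r

lemma prob_clockLaw {r : ℝ} (hr : 0 < r) : IsProbabilityMeasure (clockLaw r) := by
  have : IsProbabilityMeasure (expMeasure r) := isProbabilityMeasure_expMeasure hr
  unfold clockLaw; infer_instance

/-- strong law of large numbers for the ring times -/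
lemma slln {r : ℝ} (hr : 0 < r) :
    ∀ᵐ g ∂(clockLaw r), Tendsto (fun n : ℕ => ringTime g n / n) atTop (𝓝 (1 / r)) := by
  have hp : IsProbabilityMeasure (expMeasure r) := isProbabilityMeasure_expMeasure hr
  have hmp : ∀ i : ℕ, MeasurePreserving (fun g : ℕ → ℝ => g i) (clockLaw r) (expMeasure r) :=
    fun i => measurePreserving_eval_infinitePi _ i
  have hind : iIndepFun (fun (i : ℕ) (g : ℕ → ℝ) => g i) (clockLaw r) :=
    iIndepFun_infinitePi (P := fun _ : ℕ => expMeasure r) (X := fun _ x => x)
      (fun _ => measurable_id)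
  have h := strong_law_ae_real (μ := clockLaw r) (fun (i : ℕ) (g : ℕ → ℝ) => g i)
    ((hmp 0).integrable_comp_of_integrable (integrable_id_expLaw hr))
    (fun i j hij => hind.indepFun hij)
    (fun i => ⟨(measurable_pi_apply i).aemeasurable, (measurable_pi_apply 0).aemeasurable, by
      rw [(hmp i).map_eq, (hmp 0).map_eq]⟩)
  have h2 : ∫ g : ℕ → ℝ, g 0 ∂(clockLaw r) = 1 / r := by
    rw [← integral_id_expLaw hr, ← (hmp 0).map_eq]
    rw [integral_map (measurable_pi_apply 0).aemeasurable]
    exact aestronglyMeasurable_id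
  rw [h2] at h
  exact h

lemma ae_good {r : ℝ} (hr : 0 < r) : ∀ᵐ g ∂(clockLaw r), Good g := by
  have hp : IsProbabilityMeasure (expMeasure r) := isProbabilityMeasure_expMeasure hr
  have hmp : ∀ i : ℕ, MeasurePreserving (fun g : ℕ → ℝ => g i) (clockLaw r) (expMeasure r) :=
    fun i => measurePreserving_eval_infinitePi _ i
  have h1 : ∀ᵐ g ∂(clockLaw r), ∀ i, 0 < g i :=
    ae_all_iff.2 fun i => (hmp i).quasiMeasurePreserving.ae (ae_pos_expLaw hr)
  filter_upwards [h1, slln hr] with g hg1 hg2
  refine ⟨hg1, fun t => ?_⟩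
  have h3 : Tendsto (fun n : ℕ => ringTime g n) atTop atTop := by
    have h4 : Tendsto (fun n : ℕ => ringTime g n / n * n) atTop atTop :=
      hg2.pos_mul_atTop (by positivity) tendsto_natCast_atTop_atTop
    refine h4.congr' ?_
    filter_upwards [eventually_gt_atTop 0] with n hn
    have : (n : ℝ) ≠ 0 := by positivity
    field_simp
  obtain ⟨n, hn⟩ := (h3.eventually_gt_atTop t).exists
  refine ⟨n, lt_of_lt_of_le hn ?_⟩
  exact ringTime_mono hg1 (Nat.le_succ n)

lemma ringTime_update (g : ℕ → ℝ) (n : ℕ) (x : ℝ) {m : ℕ} (h : m ≤ n) :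
    ringTime (Function.update g n x) m = ringTime g m := by
  refine Finset.sum_congr rfl fun i hi => ?_
  rw [Function.update_of_ne]
  have := Finset.mem_range.1 hi
  omega

lemma Good.update {g : ℕ → ℝ} (hg : Good g) (n : ℕ) {x : ℝ} (hx : 0 < x) :
    Good (Function.update g n x) := by
  have hpos : ∀ i, 0 < Function.update g n x i := by
    intro i
    by_cases h : i = n
    · subst h; simpa using hx
    · rw [Function.update_of_ne h]; exact hg.1 i
  refine ⟨hpos, fun t => ?_⟩
  obtain ⟨m, hm⟩ := hg.2 (t + g n)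
  refine ⟨m, ?_⟩
  have h1 : ∑ i ∈ Finset.range (m + 1), g i ≤
      ∑ i ∈ Finset.range (m + 1), (Function.update g n x i + if i = n then g n else 0) := by
    refine Finset.sum_le_sum fun i _ => ?_
    by_cases h : i = n
    · subst h; simp [hx.le]
    · rw [Function.update_of_ne h, if_neg h, add_zero]
  rw [Finset.sum_add_distrib] at h1
  have h2 : ∑ i ∈ Finset.range (m + 1), (if i = n then g n else 0) ≤ g n := by
    rw [Finset.sum_ite_eq']
    split_ifs
    · exact le_rfl
    · exact (hg.1 n).le
  linarith

/-- the counting process up to time `t` does not depend on the waiting time that covers `t` -/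
lemma rings_update {g : ℕ → ℝ} (hg : Good g) {n : ℕ} {t : ℝ} (ht : 0 ≤ t) {x y : ℝ}
    (hx : t < ringTime g n + x) (hy : t < ringTime g n + y) (hx0 : 0 < x) (hy0 : 0 < y) :
    rings (Function.update g n x) t = rings (Function.update g n y) t := by
  have gx := hg.update n hx0
  have gy := hg.update n hy0
  rw [rings_eq_iff gx ht]
  obtain ⟨h1, h2⟩ := (rings_eq_iff gy ht _).1 rfl
  set m := rings (Function.update g n y) t with hm
  have hmn : m ≤ n := by
    by_contra hlt
    push Not at hlt
    have h3 : ringTime (Function.update g n y) (n + 1) ≤ ringTime (Function.update g n y) m :=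
      ringTime_mono gy.1 hlt
    have h4 : ringTime (Function.update g n y) (n + 1) = ringTime g n + y := by
      have : ringTime (Function.update g n y) (n + 1) =
        ringTime (Function.update g n y) n + Function.update g n y n :=
        Finset.sum_range_succ _ _
      rw [this, ringTime_update g n y le_rfl]; simp
    linarith
  rw [ringTime_update g n y hmn] at h1 h2
  rw [ringTime_update g n x hmn]
  refine ⟨h1, ?_⟩
  by_cases h : m = n
  · rw [h]; simpa using hx
  · rw [Function.update_of_ne h] at h2 ⊢; exact h2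

end Pool.Agent.Helper96.DP
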