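import Mathlib

/-!
# Biased random walk on dynamical percolation on `ℤ^d`

Definitions used in `Pool.Agent.Results.MP_f058f1_pr.CriticalCurve`.
-/

namespace Pool.Agent.Helper96.DP

open MeasureTheory ProbabilityTheory Filter Topology

/-- The sites of the lattice `ℤ^d`. -/
abbrev Site (d : ℕ) : Type := Fin d → ℤ

/-- The (undirected) nearest-neighbour edges of `ℤ^d`: the pair `(x, i)` is the edge between the
sites `x` and `x + e_i`. -/
abbrev Edge (d : ℕ) : Type := Site d × Fin d

/-- The `2d` directions: `(i, true)` is `+e_i` and `(i, false)` is `-e_i`. -/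
abbrev Dir (d : ℕ) : Type := Fin d × Bool

variable {d : ℕ}

/-- The unit vector of a direction. -/
def vec (a : Dir d) : Site d := Pi.single a.1 (if a.2 then 1 else -1)

/-- The edge between the neighbours `x` and `x + vec a`. -/
def edgeAt (x : Site d) (a : Dir d) : Edge d := if a.2 then (x, a.1) else (x + vec a, a.1)

/-- The normalisation `Z_λ = e^λ + e^{-λ} + 2d - 2`. -/
noncomputable def Z (d : ℕ) (lam : ℝ) : ℝ := Real.exp lam + Real.exp (-lam) + (2 * d - 2)

/-- The probability with which the walk picks the direction `a` when its clock rings:
`e^λ / Z_λ` for `+e_1`, `e^{-λ} / Z_λ` for `-e_1` and `1 / Z_λ` for the other `2d - 2` directions. -/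
noncomputable def dirProb [NeZero d] (lam : ℝ) (a : Dir d) : ℝ :=
  (if a = (0, true) then Real.exp lam else if a = (0, false) then Real.exp (-lam) else 1) / Z d lam

/-- The law of the direction picked at a ring of the clock of the walk. -/
noncomputable def dirLaw (d : ℕ) [NeZero d] (lam : ℝ) : Measure (Dir d) :=
  ∑ a : Dir d, ENNReal.ofReal (dirProb lam a) • Measure.dirac a

/-- The randomness attached to one edge: the waiting times of its clock (`.1 k` is the time between
the `k`-th and the `(k+1)`-st ring) and its states (`.2 k` is the state after the `k`-th ring,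
`true` means open; `.2 0` is the state at time `0`). -/
abbrev EdgeRand : Type := (ℕ → ℝ) × (ℕ → Bool)

/-- The randomness of the model: the clocks and states of all edges, the waiting times of the
clock of the walk, and the directions picked at the rings of this clock. -/
abbrev Rand (d : ℕ) : Type := (Edge d → EdgeRand) × (ℕ → ℝ) × (ℕ → Dir d)

/-- The law of the randomness of one edge: independent exponential waiting times of rate `μ` (a
Poisson clock of rate `μ`) and independent Bernoulli(`p`) states. -/
noncomputable def edgeLaw (μ : ℝ) (p : unitInterval) : Measure EdgeRand :=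
  (Measure.infinitePi fun _ : ℕ => expMeasure μ).prod
    (Measure.infinitePi fun _ : ℕ => bernoulliMeasure true false p)

/-- The law of the randomness of the model: everything is independent, the edges have the law
`edgeLaw μ p`, the clock of the walk is a Poisson clock of rate `1`. -/
noncomputable def modelLaw (d : ℕ) [NeZero d] (μ : ℝ) (p : unitInterval) (lam : ℝ) :
    Measure (Rand d) :=
  (Measure.infinitePi fun _ : Edge d => edgeLaw μ p).prod
    ((Measure.infinitePi fun _ : ℕ => expMeasure 1).prod
      (Measure.infinitePi fun _ : ℕ => dirLaw d lam))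

/-- The number of rings up to (and including) time `t` of a clock with the waiting times
`g 0, g 1, …`: the least `n` such that the `(n+1)`-st ring happens after time `t`. -/
noncomputable def rings (g : ℕ → ℝ) (t : ℝ) : ℕ :=
  sInf {n | t < ∑ i ∈ Finset.range (n + 1), g i}

/-- The state at time `t` of an edge. -/
noncomputable def stateAt (ξ : EdgeRand) (t : ℝ) : Bool := ξ.2 (rings ξ.1 t)

/-- The time of the `n`-th ring of the clock of the walk. -/
def ringTime (s : ℕ → ℝ) (n : ℕ) : ℝ := ∑ i ∈ Finset.range n, s i

/-- The position of the walk after the `n`-th ring of its clock. At the `(n+1)`-st ring the walk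
picks the direction `ω.2.2 n`; it jumps if the edge in this direction is open at the time of the
ring and stays otherwise. -/
noncomputable def pos (ω : Rand d) : ℕ → Site d
  | 0 => 0
  | n + 1 =>
    if stateAt (ω.1 (edgeAt (pos ω n) (ω.2.2 n))) (ringTime ω.2.1 (n + 1)) = true
    then pos ω n + vec (ω.2.2 n) else pos ω n

/-- The position `X_t` of the walk at time `t`. -/
noncomputable def walk (ω : Rand d) (t : ℝ) : Site d := pos ω (rings ω.2.1 t)

/-- `v` is the speed of the biased walk: almost surely `X_t / t → (v, 0, …, 0)`. -/
def IsSpeed (d : ℕ) [NeZero d] (μ : ℝ) (p : unitInterval) (lam v : ℝ) : Prop :=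
  ∀ᵐ ω ∂(modelLaw d μ p lam),
    Tendsto (fun t : ℝ => fun i : Fin d => (walk ω t i : ℝ) / t) atTop (𝓝 (Pi.single 0 v))

end Pool.Agent.Helper96.DP
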