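import Pool.Agent.Helper96.DP.Local

/-!
# Explicit solutions of the Poisson equations
-/

set_option linter.unusedSectionVars false
set_option linter.unusedSimpArgs false
set_option linter.unusedVariables false

namespace Pool.Agent.Helper96.DP

open Finset Filter Topology

variable {d : ℕ} [NeZero d] {μ p α ρ : ℝ}

/-- `1 / (1 + k μ)` -/
noncomputable def gam (μ : ℝ) (k : ℕ) : ℝ := 1 / (1 + (k : ℝ) * μ)

lemma w_gam (μ : ℝ) (k : ℕ) : w μ k 0 = gam μ k := w_zero μ k

lemma gam_pos (hμ : 0 < μ) (k : ℕ) : 0 < gam μ k := by unfold gam; positivity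
lemma gam_le_one (hμ : 0 < μ) (k : ℕ) : gam μ k ≤ 1 := by
  unfold gam; rw [div_le_one (den_pos hμ k)]
  have : 0 ≤ (k : ℝ) * μ := by positivity
  linarith
lemma gam_lt_one (hμ : 0 < μ) {k : ℕ} (hk : 0 < k) : gam μ k < 1 := by
  unfold gam; rw [div_lt_one (den_pos hμ k)]
  have : 0 < (k : ℝ) * μ := by positivity
  linarith

/-- A source function forward: products over edges at level zero. -/
lemma step_plus_level0 (hμ : 0 < μ) {A : Finset (Edge d)} (hA : A.Nonempty)
    (hA0 : ∀ e ∈ A, e.1 0 = 0) {M : Mem d} (hM : M ∈ Free (H d 1)) :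
    step μ p plus (Phi p A) M = gam μ A.card * ((1 - p - phi p (ow d 0) M) *
      ∏ e ∈ A, (if e = ow d 0 then -p else phi p e M)) := by
  rw [step_Phi hμ, w_gam, edgeAt_plus]
  have h1 : ∏ e ∈ A, (if shE (vec plus) e = ow d 0 then 1 - p
      else phi p (shE (vec plus) e) M) = 0 := by
    obtain ⟨e, he⟩ := hA
    refine prod_eq_zero he ?_
    have hl : (shE (vec plus) e).1 0 = 1 := by rw [shE_lvl, hA0 e he, vec_plus_zero]; rfl
    have hne : shE (vec plus) e ≠ ow d 0 := by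
      intro h; rw [h, ow_lvl] at hl; norm_num at hl
    rw [if_neg hne]
    exact phi_Free hM (by show (1:ℤ) ≤ _; rw [hl])
  rw [h1]; ring

section forward
variable (hμ : 0 < μ) {M : Mem d} (hM : M ∈ Free (H d 1)) {j : Dir d} (hj : j ∈ lat d)
include hμ hM

lemma fwd_o : step μ p plus (Phi p {ow d 0}) M =
    gam μ 1 * ((1 - p - phi p (ow d 0) M) * (-p)) := by
  rw [step_plus_level0 hμ (by simp) (by simp [ow_lvl]) hM]; simp

include hj

lemma fwd_u : step μ p plus (Phi p {uu j}) M =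
    gam μ 1 * ((1 - p - phi p (ow d 0) M) * phi p (uu j) M) := by
  rw [step_plus_level0 hμ (by simp) (by simp [uu_lvl hj]) hM]
  simp [uu_ne_ow hj]

lemma fwd_w : step μ p plus (Phi p {ww j}) M =
    gam μ 1 * ((1 - p - phi p (ow d 0) M) * phi p (ww j) M) := by
  rw [step_plus_level0 hμ (by simp) (by simp [ww_lvl hj]) hM]
  simp [ww_ne_ow hj]

lemma fwd_ou : step μ p plus (Phi p {ow d 0, uu j}) M =
    gam μ 2 * ((1 - p - phi p (ow d 0) M) * (-p * phi p (uu j) M)) := by
  have h : ow d 0 ≠ uu j := (uu_ne_ow hj 0).symm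
  rw [step_plus_level0 hμ (by simp) (by simp [uu_lvl hj, ow_lvl]) hM, card_pair h, prod_pair h]
  simp [uu_ne_ow hj]

lemma fwd_ow : step μ p plus (Phi p {ow d 0, ww j}) M =
    gam μ 2 * ((1 - p - phi p (ow d 0) M) * (-p * phi p (ww j) M)) := by
  have h : ow d 0 ≠ ww j := (ww_ne_ow hj 0).symm
  rw [step_plus_level0 hμ (by simp) (by simp [ww_lvl hj, ow_lvl]) hM, card_pair h, prod_pair h]
  simp [ww_ne_ow hj]

lemma fwd_uw : step μ p plus (Phi p {uu j, ww j}) M =
    gam μ 2 * ((1 - p - phi p (ow d 0) M) * (phi p (uu j) M * phi p (ww j) M)) := by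
  have h : uu j ≠ ww j := (ww_ne_uu hj).symm
  rw [step_plus_level0 hμ (by simp) (by simp [ww_lvl hj, uu_lvl hj]) hM, card_pair h, prod_pair h]
  simp [ww_ne_ow hj, uu_ne_ow hj]

lemma fwd_ouw : step μ p plus (Phi p {ow d 0, uu j, ww j}) M =
    gam μ 3 * ((1 - p - phi p (ow d 0) M) * (-p * (phi p (uu j) M * phi p (ww j) M))) := by
  have h1 : ow d 0 ∉ ({uu j, ww j} : Finset (Edge d)) := by
    simp [(uu_ne_ow hj 0).symm, (ww_ne_ow hj 0).symm]
  have h : uu j ≠ ww j := (ww_ne_uu hj).symm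
  rw [step_plus_level0 hμ (by simp) (by simp [ww_lvl hj, uu_lvl hj, ow_lvl]) hM,
    card_insert_of_notMem h1, card_pair h, prod_insert h1, prod_pair h]
  simp [ww_ne_ow hj, uu_ne_ow hj]

end forward

lemma Phi_single (e : Edge d) (M : Mem d) : Phi p {e} M = phi p e M := by simp [Phi]

lemma Phi_pair {e e' : Edge d} (h : e ≠ e') (M : Mem d) :
    Phi p {e, e'} M = phi p e M * phi p e' M := by simp [Phi, prod_pair h]

lemma Phi_triple {e e' e'' : Edge d} (h1 : e ≠ e') (h2 : e ≠ e'') (h3 : e' ≠ e'') (M : Mem d) :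
    Phi p {e, e', e''} M = phi p e M * (phi p e' M * phi p e'' M) := by
  have : e ∉ ({e', e''} : Finset (Edge d)) := by simp [h1, h2]
  simp [Phi, prod_insert this, prod_pair h3]

lemma phi_empty (e : Edge d) : phi p e (∅ : Mem d) = 0 := by simp [phi]

lemma abs_phi_le (h0 : 0 ≤ p) (h1 : p ≤ 1) (e : Edge d) (M : Mem d) : |phi p e M| ≤ 1 := by
  unfold phi; rw [abs_le]; split_ifs <;> constructor <;> linarith

lemma abs_Phi_le (h0 : 0 ≤ p) (h1 : p ≤ 1) (A : Finset (Edge d)) (M : Mem d) :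
    |Phi p A M| ≤ 1 := by
  unfold Phi; rw [abs_prod]
  exact prod_le_one (fun _ _ => abs_nonneg _) fun e _ => abs_phi_le h0 h1 e M

lemma Bd_Phi (h0 : 0 ≤ p) (h1 : p ≤ 1) (hα : 0 ≤ α) (A : Finset (Edge d)) :
    Bd α 1 (Phi p A) := Bd_of_abs_le hα zero_le_one (abs_Phi_le h0 h1 A)

lemma Phi_empty_mem {A : Finset (Edge d)} (h : A.Nonempty) : Phi p A (∅ : Mem d) = 0 := by
  obtain ⟨e, he⟩ := h
  exact prod_eq_zero he (phi_empty e)

/-- `κ = μ + 1 - p` -/
noncomputable def kap (μ p : ℝ) : ℝ := μ + 1 - p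

lemma kap_pos (hμ : 0 < μ) (h1 : p ≤ 1) : 0 < kap μ p := by unfold kap; linarith

lemma gam_one (hμ : 0 < μ) : gam μ 1 = 1 / (1 + μ) := by simp [gam]

/-- zeroth order: the Poisson equation at `ε = 0` on memories without edges ahead -/
lemma sol0 (hμ : 0 < μ) (h0 : 0 ≤ p) (h1 : p ≤ 1) (hr : Rate μ α ρ) {v0 : ℝ} {f0 : Mem d → ℝ}
    (hs0 : Sol μ p α (qw 0 0) (cp p) v0 f0) :
    v0 = p * μ / kap μ p ∧ ∀ M ∈ Free (H d 1), f0 M = (1 + μ) / kap μ p * phi p (ow d 0) M := by
  have hq0 : Wts (qw 0 0 : Dir d → ℝ) := wts_qw le_rfl le_rfl (by simp)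
  have hk := kap_pos hμ h1
  have := hs0.eqOn hμ h0 h1 hr hq0 (closed_H le_rfl) (empty_mem_Free _)
    (v' := p * μ / kap μ p) (f := ((1 + μ) / kap μ p) • Phi p {ow d 0}) (fun M hM => by
      rw [P_q0, map_smul]
      simp only [Pi.smul_apply, smul_eq_mul]
      rw [fwd_o hμ hM, Phi_single, cp, edgeAt_plus, gam_one hμ]
      have : kap μ p ≠ 0 := hk.ne'
      have h2 : 1 + μ ≠ 0 := by positivity
      field_simp
      unfold kap; ring) (by simp [Phi_empty_mem]) ((Bd_Phi h0 h1 hr.α_pos.le _).smul _)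
  refine ⟨this.1, fun M hM => ?_⟩
  rw [this.2 M hM]
  simp [Phi_single]

/-- The determinant of the linear systems. -/
noncomputable def del (p g g' : ℝ) : ℝ := 1 - g' * p - g * (1 - p)

lemma del_pos (h0 : 0 ≤ p) (h1 : p ≤ 1) {g g' : ℝ} (hg : g < 1) (hg' : g' < 1) :
    0 < del p g g' := by
  unfold del
  rcases eq_or_lt_of_le h0 with h | h
  · subst h; linarith
  · nlinarith

/-- solution of the linear systems -/
lemma lin_sys {g g' s s' x y : ℝ} (hd : del p g g' ≠ 0)
    (hx : x = (s * (1 - g' * p) - s' * (g' * p * (1 - p))) / del p g g')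
    (hy : y = (s' * (1 - g * (1 - p)) - s * g) / del p g g') :
    x = s + (1 - p) * (x * g - y * g' * p) ∧ y = s' - (x * g - y * g' * p) := by
  have e1 : x * del p g g' = s * (1 - g' * p) - s' * (g' * p * (1 - p)) := by
    rw [hx]; field_simp
  have e2 : y * del p g g' = s' * (1 - g * (1 - p)) - s * g := by
    rw [hy]; field_simp
  constructor
  · apply mul_right_cancel₀ hd
    have : (s + (1 - p) * (x * g - y * g' * p)) * del p g g' =
      s * del p g g' + (1 - p) * ((x * del p g g') * g - (y * del p g g') * g' * p) := by ring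
    rw [this, e1, e2]; unfold del; ring
  · apply mul_right_cancel₀ hd
    have : (s' - (x * g - y * g' * p)) * del p g g' =
      s' * del p g g' - ((x * del p g g') * g - (y * del p g g') * g' * p) := by ring
    rw [this, e1, e2]; unfold del; ring

end Pool.Agent.Helper96.DP
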