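import Pool.Agent.Helper96.DP.Path

/-!
# The law of the states seen from the walk and the memory chain
-/

set_option linter.unusedSectionVars false
set_option linter.unusedSimpArgs false
set_option linter.unusedVariables false

namespace Pool.Agent.Helper96.DP

open MeasureTheory ProbabilityTheory Filter Topology Set

variable {d : ℕ} [NeZero d]

/-! ### The law of the directions -/

lemma mm_eq : mm d = 2 * d - 2 := by
  have h := sum_dir (d := d) fun _ => (1:ℝ)
  simp only [Finset.sum_const, nsmul_eq_mul, mul_one] at h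
  have h2 : ((Finset.univ : Finset (Dir d)).card : ℝ) = 2 * d := by
    rw [Finset.card_univ, Fintype.card_prod, Fintype.card_fin, Fintype.card_bool]; push_cast; ring
  rw [h2] at h
  unfold mm; linarith

lemma Z_eq (lam : ℝ) : Z d lam = Real.exp lam + Real.exp (-lam) + mm d := by
  rw [Z, mm_eq]

lemma Z_pos (lam : ℝ) : 0 < Z d lam := by
  rw [Z_eq]
  have := mm_nonneg (d := d)
  positivity

lemma dirProb_plus (lam : ℝ) : dirProb lam (plus : Dir d) = Real.exp lam / Z d lam := by
  simp [dirProb, plus]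

lemma dirProb_minus (lam : ℝ) : dirProb lam (minus : Dir d) = Real.exp (-lam) / Z d lam := by
  simp [dirProb, minus]

lemma dirProb_lat (lam : ℝ) {a : Dir d} (h : a ∈ lat d) : dirProb lam a = 1 / Z d lam := by
  have h1 : a ≠ (0, true) := lat_ne_plus h
  have h2 : a ≠ (0, false) := lat_ne_minus h
  simp [dirProb, h1, h2]

lemma wts_dirProb (lam : ℝ) : Wts (dirProb lam : Dir d → ℝ) := by
  have hZ := Z_pos (d := d) lam
  refine ⟨fun a => ?_, ?_⟩
  · unfold dirProb
    refine div_nonneg ?_ hZ.le
    split_ifs <;> positivity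
  · rw [sum_dir, dirProb_plus, dirProb_minus, Finset.sum_congr rfl fun a ha => dirProb_lat lam ha,
      Finset.sum_const, nsmul_eq_mul]
    change _ + mm d * _ = 1
    field_simp
    rw [Z_eq]

lemma integral_dirLaw (lam : ℝ) (f : Dir d → ℝ) :
    ∫ b, f b ∂(dirLaw d lam) = ∑ b, dirProb lam b * f b := by
  unfold dirLaw
  rw [integral_finsetSum_measure]
  · refine Finset.sum_congr rfl fun b _ => ?_
    rw [integral_smul_measure, integral_dirac,
      ENNReal.toReal_ofReal ((wts_dirProb lam).nonneg b), smul_eq_mul]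
  · intro b _
    exact (Integrable.of_finite (μ := Measure.dirac b)).smul_measure ENNReal.ofReal_ne_top

instance prob_dirLaw (lam : ℝ) : IsProbabilityMeasure (dirLaw d lam) := by
  constructor
  unfold dirLaw
  rw [Measure.finsetSum_apply]
  simp only [Measure.smul_apply, measure_univ, smul_eq_mul, mul_one]
  rw [← ENNReal.ofReal_sum_of_nonneg fun b _ => (wts_dirProb lam).nonneg b, (wts_dirProb lam).sum,
    ENNReal.ofReal_one]

/-- the law of the sequence of directions -/
noncomputable def dirsLaw (d : ℕ) [NeZero d] (lam : ℝ) : Measure (ℕ → Dir d) :=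
  Measure.infinitePi fun _ : ℕ => dirLaw d lam

instance (lam : ℝ) : IsProbabilityMeasure (dirsLaw d lam) := by
  unfold dirsLaw; infer_instance

lemma modelLaw_eq (μ : ℝ) (p : unitInterval) (lam : ℝ) :
    modelLaw d μ p lam = (envLaw d μ p).prod ((clockLaw 1).prod (dirsLaw d lam)) := rfl

lemma prob_modelLaw {μ : ℝ} (hμ : 0 < μ) (p : unitInterval) (lam : ℝ) :
    IsProbabilityMeasure (modelLaw d μ p lam) := by
  have := prob_envLaw (d := d) hμ p
  have := prob_clockLaw one_pos
  rw [modelLaw_eq]; infer_instance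

lemma dirs_avg (lam : ℝ) (k : ℕ) {F : Dir d → (ℕ → Dir d) → ℝ}
    (hF : ∀ b, Integrable (F b) (dirsLaw d lam))
    (hdep : ∀ b D x, F b (Function.update D k x) = F b D) :
    ∫ D, F (D k) D ∂(dirsLaw d lam) = ∑ b, dirProb lam b * ∫ D, F b D ∂(dirsLaw d lam) := by
  have hmk : Measurable fun D : ℕ → Dir d => D k := measurable_pi_apply k
  have hms : ∀ b : Dir d, MeasurableSet {D : ℕ → Dir d | D k = b} := fun b =>
    hmk (measurableSet_singleton b)
  have h1 : (fun D : ℕ → Dir d => F (D k) D) =
      fun D => ∑ b, ({D : ℕ → Dir d | D k = b}.indicator (F b)) D := by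
    funext D
    rw [Finset.sum_eq_single (D k)]
    · rw [indicator_of_mem (by simp)]
    · intro b _ hb
      rw [indicator_of_notMem (by simpa using Ne.symm hb)]
    · simp
  have hi : Integrable (fun D : ℕ → Dir d => F (D k) D) (dirsLaw d lam) := by
    rw [h1]
    exact integrable_finsetSum _ fun b _ => (hF b).indicator (hms b)
  have h2 := integral_update (dirLaw d lam) k hi
  change ∫ D, F (D k) D ∂(dirsLaw d lam) = _ at h2
  rw [h2]
  simp only [Function.update_self, hdep]
  simp only [integral_dirLaw]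
  rw [integral_finsetSum]
  · refine Finset.sum_congr rfl fun b _ => ?_
    rw [integral_const_mul]; rfl
  · intro b _; exact (hF b).const_mul _

lemma attc_integral {X : Type*} [MeasurableSpace X] {ν : Measure X} (p : ℝ) (b : Dir d)
    (A : Finset (Edge d)) {χ : X → Finset (Edge d) → ℝ} (hi : ∀ B, Integrable (fun x => χ x B) ν) :
    Integrable (fun x => attc p b A (χ x)) ν ∧
    ∫ x, attc p b A (χ x) ∂ν = attc p b A (fun B => ∫ x, χ x B ∂ν) := by
  have hX : ∀ (u : Edge d) (B : Finset (Edge d)),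
      Integrable (fun x => Xc p u B (χ x)) ν ∧
      ∫ x, Xc p u B (χ x) ∂ν = Xc p u B (fun B => ∫ x, χ x B ∂ν) := by
    intro u B
    unfold Xc
    by_cases h : u ∈ B
    · simp only [if_pos h]
      refine ⟨((hi _).const_mul _).add ((hi _).const_mul _), ?_⟩
      rw [integral_add ((hi _).const_mul _) ((hi _).const_mul _), integral_const_mul,
        integral_const_mul]
    · simp only [if_neg h]
      refine ⟨((hi _).const_mul _).add (hi _), ?_⟩
      rw [integral_add ((hi _).const_mul _) (hi _), integral_const_mul]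
  unfold attc
  refine ⟨(((hX _ _).1).add (hi A)).sub (hX _ _).1, ?_⟩
  rw [integral_add_sub (hX _ _).1 (hi A) (hX _ _).1, (hX _ _).2, (hX _ _).2]

section
variable {p : unitInterval} {μ lam : ℝ}

lemma integrable_chiω (hμ : 0 < μ) (k m : ℕ) (A : Finset (Edge d)) :
    Integrable (fun ω : Rand d => chiω (p : ℝ) ω k m A) (modelLaw d μ p lam) := by
  have := prob_modelLaw (d := d) hμ p lam
  exact Integrable.of_bound (measurable_chiω _ k m A).aestronglyMeasurable 1
    (ae_of_all _ fun E => abs_chi_le p.2.1 p.2.2 _ _ _ _ _)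

lemma measurable_Ech (hμ : 0 < μ) (k m : ℕ) (A : Finset (Edge d)) :
    Measurable fun z : (ℕ → ℝ) × (ℕ → Dir d) => Ech μ p (ringTime z.1) z.2 k m A := by
  have hpE := prob_envLaw (d := d) hμ p
  have h1 : StronglyMeasurable (Function.uncurry fun (E : Edge d → EdgeRand)
      (z : (ℕ → ℝ) × (ℕ → Dir d)) => chiω (p : ℝ) (E, z) k m A) :=
    (measurable_chiω (p : ℝ) k m A).stronglyMeasurable
  exact (h1.integral_prod_left (μ := envLaw d μ p)).measurable

/-- average over the directions -/
noncomputable def Vk (μ : ℝ) (p : unitInterval) (lam : ℝ) (k m : ℕ) (A : Finset (Edge d))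
    (s : ℕ → ℝ) : ℝ := ∫ D, Ech μ p (ringTime s) D k m A ∂(dirsLaw d lam)

lemma integrable_Ech (hμ : 0 < μ) (s : ℕ → ℝ) (k m : ℕ) (A : Finset (Edge d)) :
    Integrable (fun D : ℕ → Dir d => Ech μ p (ringTime s) D k m A) (dirsLaw d lam) :=
  Integrable.of_bound ((measurable_Ech hμ k m A).comp
    (measurable_const.prodMk measurable_id)).aestronglyMeasurable 1
    (ae_of_all _ fun D => abs_Ech_le hμ _ _ _ _ _)

lemma measurable_Vk (hμ : 0 < μ) (k m : ℕ) (A : Finset (Edge d)) :
    Measurable fun s : ℕ → ℝ => Vk μ p lam k m A s := by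
  have h1 : StronglyMeasurable (Function.uncurry fun (s : ℕ → ℝ) (D : ℕ → Dir d) =>
      Ech μ p (ringTime s) D k m A) := (measurable_Ech hμ k m A).stronglyMeasurable
  exact (h1.integral_prod_right (ν := dirsLaw d lam)).measurable

lemma abs_Vk_le (hμ : 0 < μ) (k m : ℕ) (A : Finset (Edge d)) (s : ℕ → ℝ) :
    |Vk μ p lam k m A s| ≤ 1 := by
  have := norm_integral_le_of_norm_le_const (μ := dirsLaw d lam)
    (f := fun D : ℕ → Dir d => Ech μ p (ringTime s) D k m A) (C := 1)
    (ae_of_all _ fun E => abs_Ech_le hμ _ _ _ _ _)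
  simpa [Vk] using this

lemma integrable_Vk (hμ : 0 < μ) (k m : ℕ) (A : Finset (Edge d)) :
    Integrable (fun s : ℕ → ℝ => Vk μ p lam k m A s) (clockLaw 1) := by
  have := prob_clockLaw one_pos
  exact Integrable.of_bound (measurable_Vk hμ k m A).aestronglyMeasurable 1
    (ae_of_all _ fun s => abs_Vk_le hμ _ _ _ _)

/-- The expectation of the product of the centred states. -/
noncomputable def uk (μ : ℝ) (p : unitInterval) (lam : ℝ) (k m : ℕ) (A : Finset (Edge d)) : ℝ :=
  ∫ ω, chiω (p : ℝ) ω k m A ∂(modelLaw d μ p lam)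

lemma uk_eq (hμ : 0 < μ) (k m : ℕ) (A : Finset (Edge d)) :
    uk μ p lam k m A = ∫ s, Vk μ p lam k m A s ∂(clockLaw 1) := by
  have := prob_envLaw (d := d) hμ p
  have := prob_clockLaw one_pos
  have hi := integrable_chiω (d := d) (p := p) (lam := lam) hμ k m A
  rw [modelLaw_eq] at hi
  unfold uk
  rw [modelLaw_eq, integral_prod_symm _ hi]
  have h2 := hi.integral_prod_right
  rw [integral_prod _ h2]
  rfl

lemma Vk_dep (s s' : ℕ → ℝ) (k m : ℕ) (A : Finset (Edge d)) (hkm : k ≤ m)
    (h : ∀ j < m, s j = s' j) : Vk μ p lam k m A s = Vk μ p lam k m A s' := by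
  unfold Vk
  refine integral_congr_ae (ae_of_all _ fun D => ?_)
  refine Ech_dep _ _ D D k m A hkm (fun j hj => ?_) fun _ _ => rfl
  unfold ringTime
  exact Finset.sum_congr rfl fun i hi => h i (lt_of_lt_of_le (Finset.mem_range.1 hi) hj)

lemma Vk_attc (hμ : 0 < μ) (s : ℕ → ℝ) (k : ℕ) (A : Finset (Edge d)) :
    Vk μ p lam (k + 1) (k + 1) A s =
      ∑ b, dirProb lam b * attc (p : ℝ) b A (fun B => Vk μ p lam k (k + 1) B s) := by
  unfold Vk
  simp only [Ech_attc hμ]
  rw [dirs_avg lam k (F := fun b D => attc (p : ℝ) b A (Ech μ p (ringTime s) D k (k + 1)))]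
  · refine Finset.sum_congr rfl fun b _ => ?_
    rw [(attc_integral (p : ℝ) b A (fun B => integrable_Ech hμ s k (k + 1) B)).2]
  · intro b
    exact (attc_integral (p : ℝ) b A (fun B => integrable_Ech hμ s k (k + 1) B)).1
  · intro b D x
    have h : Ech μ p (ringTime s) (Function.update D k x) k (k + 1) =
        Ech μ p (ringTime s) D k (k + 1) := by
      funext B
      refine Ech_dep _ _ _ _ k (k + 1) B (Nat.le_succ k) (fun _ _ => rfl) fun j hj => ?_
      rw [Function.update_of_ne hj.ne]
    rw [h]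

lemma Vk_decay (hμ : 0 < μ) {s : ℕ → ℝ} (hs : Good s) (k : ℕ) (A : Finset (Edge d)) :
    Vk μ p lam k (k + 1) A s = Real.exp (-(μ * A.card * s k)) * Vk μ p lam k k A s := by
  unfold Vk
  rw [← integral_const_mul]
  refine integral_congr_ae (ae_of_all _ fun D => ?_)
  have h1 : ∀ j, 0 ≤ ringTime s j := fun j => Finset.sum_nonneg fun i _ => (hs.1 i).le
  have h2 := Ech_decay (p := p) hμ h1 (ringTime_mono hs.1) D k A
  simp only
  rw [h2, ← Real.exp_nat_mul]
  congr 2
  have : ringTime s (k + 1) - ringTime s k = s k := by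
    unfold ringTime; rw [Finset.sum_range_succ]; ring
  rw [this]; ring

/-- Averaging over one waiting time of the walk. -/
lemma clock_avg (hμ : 0 < μ) (k : ℕ) (c : ℝ) (hc : 0 ≤ c) {H : (ℕ → ℝ) → ℝ}
    (hH : Measurable H) {C : ℝ} (hC : ∀ s, |H s| ≤ C)
    (hdep : ∀ s x, H (Function.update s k x) = H s) :
    ∫ s, Real.exp (-(c * s k)) * H s ∂(clockLaw 1) = 1 / (1 + c) * ∫ s, H s ∂(clockLaw 1) := by
  have hp1 := prob_clockLaw one_pos
  have hpe : IsProbabilityMeasure (expMeasure 1) := isProbabilityMeasure_expMeasure one_pos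
  have hm : Measurable fun s : ℕ → ℝ => Real.exp (-(c * s k)) * H s := by
    refine Measurable.mul ?_ hH
    have h0 : Measurable fun s : ℕ → ℝ => -(c * s k) := by fun_prop
    exact Real.measurable_exp.comp h0
  have hi : Integrable (fun s : ℕ → ℝ => Real.exp (-(c * s k)) * H s) (clockLaw 1) := by
    refine Integrable.of_bound hm.aestronglyMeasurable C ?_
    filter_upwards [ae_good one_pos] with s hs
    rw [Real.norm_eq_abs, abs_mul, abs_of_pos (Real.exp_pos _)]
    have h1 : Real.exp (-(c * s k)) ≤ 1 := by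
      rw [Real.exp_le_one_iff]
      have := mul_nonneg hc (hs.1 k).le
      linarith
    calc Real.exp (-(c * s k)) * |H s| ≤ 1 * C :=
          mul_le_mul h1 (hC s) (abs_nonneg _) zero_le_one
      _ = C := one_mul C
  have h1 := integral_update (expMeasure 1) k hi
  change ∫ s, Real.exp (-(c * s k)) * H s ∂(clockLaw 1) = _ at h1
  rw [h1]
  simp only [Function.update_self, hdep, integral_mul_const]
  rw [integral_exp_expLaw one_pos hc, integral_const_mul]
  rfl

lemma uk_decay (hμ : 0 < μ) (k : ℕ) (A : Finset (Edge d)) :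
    uk μ p lam k (k + 1) A = w μ A.card 0 * uk μ p lam k k A := by
  have hp1 := prob_clockLaw one_pos
  rw [uk_eq hμ, uk_eq hμ, w_zero]
  have h1 : ∫ s, Vk μ p lam k (k + 1) A s ∂(clockLaw 1) =
      ∫ s, Real.exp (-(μ * A.card * s k)) * Vk μ p lam k k A s ∂(clockLaw 1) := by
    refine integral_congr_ae ?_
    filter_upwards [ae_good one_pos] with s hs
    exact Vk_decay hμ hs k A
  rw [h1, clock_avg hμ k (μ * A.card) (by positivity) (measurable_Vk hμ k k A)
    (C := 1) (fun s => abs_Vk_le hμ _ _ _ _)]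
  · rw [mul_comm μ]
  · intro s x
    exact Vk_dep _ _ k k A le_rfl fun j hj => by rw [Function.update_of_ne hj.ne]

lemma uk_attc (hμ : 0 < μ) (k : ℕ) (A : Finset (Edge d)) :
    uk μ p lam (k + 1) (k + 1) A =
      ∑ b, dirProb lam b * attc (p : ℝ) b A (uk μ p lam k (k + 1)) := by
  have hp1 := prob_clockLaw one_pos
  rw [uk_eq hμ]
  simp only [Vk_attc hμ]
  rw [integral_finsetSum]
  · refine Finset.sum_congr rfl fun b _ => ?_
    rw [integral_const_mul, (attc_integral (p : ℝ) b A (fun B => integrable_Vk hμ k (k + 1) B)).2]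
    congr 2
    funext B
    rw [uk_eq hμ]
  · intro b _
    exact ((attc_integral (p : ℝ) b A (fun B => integrable_Vk hμ k (k + 1) B)).1).const_mul _

lemma uk_zero (hμ : 0 < μ) (A : Finset (Edge d)) :
    uk μ p lam 0 0 A = if A = ∅ then 1 else 0 := by
  have hp1 := prob_clockLaw one_pos
  rw [uk_eq hμ]
  unfold Vk
  have h : ∀ (s : ℕ → ℝ) (D : ℕ → Dir d), Ech μ p (ringTime s) D 0 0 A = if A = ∅ then 1 else 0 :=
    fun s D => Ech_zero hμ (by simp [ringTime]) D A
  simp only [h]
  simp

lemma Xc_map {R : Type*} (p : ℝ) (u : Edge d) (B : Finset (Edge d))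
    (L : (Mem d → ℝ) →ₗ[ℝ] ℝ) (f : Finset (Edge d) → Mem d → ℝ) :
    L (fun M => Xc p u B (fun B' => f B' M)) = Xc p u B (fun B' => L (f B')) := by
  unfold Xc
  split_ifs with h
  · have : (fun M => (1 - p) * f B M + p * (1 - p) * f (B.erase u) M) =
        (1 - p) • f B + (p * (1 - p)) • f (B.erase u) := by funext M; simp
    rw [this, map_add, map_smul, map_smul]; rfl
  · have : (fun M => p * f B M + f (insert u B) M) = p • f B + f (insert u B) := by funext M; simp
    rw [this, map_add, map_smul]; rfl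

lemma attc_map (p : ℝ) (b : Dir d) (A : Finset (Edge d))
    (L : (Mem d → ℝ) →ₗ[ℝ] ℝ) (f : Finset (Edge d) → Mem d → ℝ) :
    L (fun M => attc p b A (fun B => f B M)) = attc p b A (fun B => L (f B)) := by
  unfold attc
  rw [← Xc_map (R := ℝ), ← Xc_map (R := ℝ), ← map_add, ← map_sub]
  rfl

/-- The expected products are given by the memory chain. -/
theorem uk_eq_P (hμ : 0 < μ) (k : ℕ) : ∀ A : Finset (Edge d),
    uk μ p lam k (k + 1) A = ((P μ (p : ℝ) (dirProb lam)) ^ k) (Phi (p : ℝ) A) ∅ := by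
  induction k with
  | zero =>
    intro A
    rw [uk_decay hμ, uk_zero hμ, pow_zero]
    simp only [Module.End.one_apply]
    unfold Phi
    split_ifs with h
    · subst h; simp [w_zero]
    · rw [mul_zero]
      obtain ⟨e, he⟩ := Finset.nonempty_iff_ne_empty.2 h
      exact (Finset.prod_eq_zero he (by simp [phi])).symm
  | succ k ih =>
    intro A
    rw [uk_decay hμ, uk_attc hμ, pow_succ, Module.End.mul_apply]
    have h1 : P μ (p : ℝ) (dirProb lam) (Phi (p : ℝ) A) = w μ A.card 0 •
        ∑ b, dirProb lam b • (fun M : Mem d => attc (p : ℝ) b A (fun B => Phi (p : ℝ) B M)) := by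
      funext M
      rw [P_apply]
      simp only [Pi.smul_apply, Finset.sum_apply, smul_eq_mul, step_Phi_att hμ, Finset.mul_sum]
      exact Finset.sum_congr rfl fun b _ => by ring
    rw [h1]
    let L : (Mem d → ℝ) →ₗ[ℝ] ℝ :=
      (LinearMap.proj (∅ : Mem d)).comp ((P μ (p : ℝ) (dirProb lam)) ^ k)
    have hL : ∀ g, ((P μ (p : ℝ) (dirProb lam)) ^ k) g ∅ = L g := fun g => rfl
    rw [hL, map_smul, map_sum]
    simp only [map_smul, smul_eq_mul, attc_map]
    have h2 : uk μ p lam k (k + 1) = fun B => L (Phi (p : ℝ) B) := by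
      funext B; rw [ih B, hL]
    rw [h2]

end

end Pool.Agent.Helper96.DP
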