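import Pool.Agent.Helper96.DP.Perturb

/-!
# Local computations with the memory chain
-/

set_option linter.unusedSectionVars false
set_option linter.unusedSimpArgs false
set_option linter.unusedVariables false

namespace Pool.Agent.Helper96.DP

open Finset Filter Topology

variable {d : ℕ} [NeZero d] {μ p α ρ : ℝ}

/-- Memories that contain no edge of `S`. -/
def Free (S : Set (Edge d)) : Set (Mem d) := {M | ∀ x ∈ M, x.1 ∉ S}

lemma empty_mem_Free (S : Set (Edge d)) : (∅ : Mem d) ∈ Free S := by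
  intro x hx; simp at hx

lemma phi_Free {S : Set (Edge d)} {M : Mem d} (hM : M ∈ Free S) {e : Edge d} (he : e ∈ S) :
    phi p e M = 0 := by
  have h1 : (e, true) ∉ M := fun h => hM _ h he
  have h2 : (e, false) ∉ M := fun h => hM _ h he
  simp [phi, h1, h2]

lemma thin_congr {M : Mem d} {f f' : Mem d → ℝ} (h : ∀ M' ⊆ M, f M' = f' M') :
    thin μ f M = thin μ f' M := by
  rw [thin_apply, thin_apply]
  exact sum_congr rfl fun M' hM' => by rw [h M' (mem_powerset.1 hM')]

lemma Free_subset {S : Set (Edge d)} {M M' : Mem d} (hM : M ∈ Free S) (h : M' ⊆ M) :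
    M' ∈ Free S := fun x hx => hM x (h hx)

lemma step_congr {S T : Set (Edge d)} {a : Dir d} (hT : edgeAt 0 a ∉ T) (hTS : T ⊆ S)
    (hB : ∀ e ∈ T, shE (vec a) e ∈ S) (hB' : ∀ e ∈ T, shE (vec a) e ≠ edgeAt 0 a)
    {f f' : Mem d → ℝ} (hf : ∀ M ∈ Free T, f M = f' M) {M : Mem d} (hM : M ∈ Free S) :
    step μ p a f M = step μ p a f' M := by
  have h1 : sh (vec a) (upd (edgeAt 0 a) true M) ∈ Free T := by
    rintro ⟨e, s⟩ hx he
    have := (mem_sh _ _ _ _).1 hx
    rcases (mem_upd _ _ _ _ _).1 this with ⟨h, -⟩ | ⟨-, h⟩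
    · exact hB' e he h
    · exact hM _ h (hB e he)
  have h2 : upd (edgeAt 0 a) false M ∈ Free T := by
    rintro ⟨e, s⟩ hx he
    rcases (mem_upd _ _ _ _ _).1 hx with ⟨h, -⟩ | ⟨-, h⟩
    · rw [h] at he; exact hT he
    · exact hM _ h (hTS he)
  rw [step_apply, step_apply]
  congr 2
  · exact thin_congr fun M' hM' => hf _ (Free_subset h1 hM')
  · exact thin_congr fun M' hM' => hf _ (Free_subset h2 hM')

/-- The edges of the own line of the walk. -/
def ow (d : ℕ) [NeZero d] (k : ℤ) : Edge d := (Pi.single 0 k, 0)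
/-- The edge from the walk in direction `j`. -/
def uu (j : Dir d) : Edge d := edgeAt 0 j
/-- The forward edge of the neighbour in direction `j`. -/
def ww (j : Dir d) : Edge d := (vec j, 0)
/-- The opposite direction. -/
def opp (j : Dir d) : Dir d := (j.1, !j.2)

lemma opp_opp (j : Dir d) : opp (opp j) = j := by simp [opp]
lemma opp_mem_lat {j : Dir d} (h : j ∈ lat d) : opp j ∈ lat d := by
  rw [mem_lat] at h ⊢; exact h

/-- The edges at level at least `k`. -/
def H (d : ℕ) [NeZero d] (k : ℤ) : Set (Edge d) := {e | k ≤ e.1 0}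

/-- Everything except the own line up to the position of the walk. -/
def S2 (d : ℕ) [NeZero d] : Set (Edge d) := {e | ∀ k : ℤ, k ≤ 0 → e ≠ ow d k}

lemma edgeAt_plus : edgeAt (0 : Site d) plus = ow d 0 := by
  simp [edgeAt, plus, ow]

lemma edgeAt_minus : edgeAt (0 : Site d) minus = ow d (-1) := by
  simp [edgeAt, minus, ow, vec]

lemma vec_plus_zero : (vec (plus : Dir d)) 0 = 1 := by simp [vec, plus]
lemma vec_minus_zero : (vec (minus : Dir d)) 0 = -1 := by simp [vec, minus]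

lemma vec_lat_zero {j : Dir d} (h : j ∈ lat d) : (vec j) 0 = 0 := by
  rw [mem_lat] at h
  simp [vec, Pi.single_apply, Ne.symm h]

lemma vec_self (j : Dir d) : (vec j) j.1 = if j.2 then 1 else -1 := by simp [vec]

lemma vec_self_ne (j : Dir d) : (vec j) j.1 ≠ 0 := by
  rw [vec_self]; split_ifs <;> norm_num

lemma vec_opp (j : Dir d) : vec (opp j) = -vec j := by
  obtain ⟨i, s⟩ := j
  funext k
  cases s <;> by_cases h : k = i <;> simp [vec, opp, Pi.single_apply, h]

lemma shE_lvl (z : Site d) (e : Edge d) : (shE z e).1 0 = e.1 0 + z 0 := by simp [shE]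

lemma ow_lvl (k : ℤ) : (ow d k).1 0 = k := by simp [ow]
lemma ww_lvl {j : Dir d} (h : j ∈ lat d) : (ww j).1 0 = 0 := vec_lat_zero h
lemma uu_lvl {j : Dir d} (h : j ∈ lat d) : (uu j).1 0 = 0 := by
  unfold uu edgeAt
  split_ifs
  · simp
  · simp [vec_lat_zero h]

lemma ow_inj {k l : ℤ} (h : ow d k = ow d l) : k = l := by
  have := congrArg (fun e : Edge d => e.1 0) h
  simpa [ow_lvl] using this

lemma uu_ax (j : Dir d) : (uu j).2 = j.1 := by
  unfold uu edgeAt; split_ifs <;> rfl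

lemma uu_ne_ow {j : Dir d} (h : j ∈ lat d) (k : ℤ) : uu j ≠ ow d k := by
  intro he
  have := congrArg Prod.snd he
  rw [uu_ax] at this
  exact mem_lat.1 h this

lemma ww_ne_ow {j : Dir d} (h : j ∈ lat d) (k : ℤ) : ww j ≠ ow d k := by
  intro he
  have := congrArg (fun e : Edge d => e.1 j.1) he
  simp only [ww, ow] at this
  rw [Pi.single_eq_of_ne (mem_lat.1 h)] at this
  exact vec_self_ne j this

lemma ww_ne_uu {i j : Dir d} (h : i ∈ lat d) : ww j ≠ uu i := by
  intro he
  have := congrArg Prod.snd he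
  rw [uu_ax] at this
  exact mem_lat.1 h this.symm

lemma shE_ow (z : Site d) (k : ℤ) : shE z (ow d k) = (Pi.single 0 k + z, 0) := rfl

lemma shE_plus_ow (k : ℤ) : shE (vec plus) (ow d k) = ow d (k + 1) := by
  simp [shE, ow, vec, plus, Pi.single_add]

lemma shE_minus_ow (k : ℤ) : shE (vec minus) (ow d k) = ow d (k - 1) := by
  simp only [shE, ow, vec, minus, sub_eq_add_neg, Pi.single_add]
  simp

lemma shE_ow0 (i : Dir d) : shE (vec i) (ow d 0) = ww i := by
  simp [shE, ow, ww]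

lemma shE_uu (i j : Dir d) : shE (vec i) (uu j) = uu i ↔ j = opp i := by
  obtain ⟨i1, i2⟩ := i
  obtain ⟨j1, j2⟩ := j
  constructor
  · intro h
    have hax : j1 = i1 := by
      have := congrArg Prod.snd h
      rw [uu_ax] at this
      simpa [shE, uu_ax] using this
    subst hax
    have h1 := congrArg (fun e : Edge d => e.1 j1) h
    simp only [shE, uu, edgeAt, vec] at h1
    cases i2 <;> cases j2 <;> simp at h1 <;> simp [opp]
  · intro h
    simp only [opp, Prod.mk.injEq] at h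
    obtain ⟨rfl, rfl⟩ := h
    cases i2
    · simp [shE, uu, edgeAt]
    · simp only [shE, uu, edgeAt, vec]
      ext k
      · by_cases hk : k = j1 <;> simp [Pi.single_apply, hk]
      · simp

lemma shE_uu_opp (i : Dir d) : shE (vec i) (uu (opp i)) = uu i := (shE_uu i _).2 rfl

lemma shE_ww_opp (i : Dir d) : shE (vec i) (ww (opp i)) = ow d 0 := by
  simp [shE, ww, ow, vec_opp]

lemma shE_uu_mem (i : Dir d) {j : Dir d} (h : j ∈ lat d) : shE (vec i) (uu j) ∈ S2 d := by
  intro k _ he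
  have := congrArg Prod.snd he
  have h2 : (shE (vec i) (uu j)).2 = (uu j).2 := rfl
  rw [h2, uu_ax] at this
  exact mem_lat.1 h this

lemma vec_inj {i j : Dir d} (h : vec i = vec j) : i = j := by
  obtain ⟨i1, i2⟩ := i
  obtain ⟨j1, j2⟩ := j
  have h1 : i1 = j1 := by
    by_contra hne
    have := congrFun h i1
    rw [show vec (i1, i2) i1 = _ from vec_self (i1, i2)] at this
    simp only [vec] at this
    rw [Pi.single_eq_of_ne hne] at this
    cases i2 <;> simp at this
  subst h1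
  have := congrFun h i1
  rw [show vec (i1, i2) i1 = _ from vec_self (i1, i2),
    show vec (i1, j2) i1 = _ from vec_self (i1, j2)] at this
  cases i2 <;> cases j2 <;> simp at this <;> rfl

lemma shE_ww_mem {i j : Dir d} (hi : i ∈ lat d) (hj : j ∈ lat d) (h : j ≠ opp i) :
    shE (vec i) (ww j) ∈ S2 d := by
  intro k _ he
  have h0 : (shE (vec i) (ww j)).1 = vec j + vec i := rfl
  have hk : k = 0 := by
    have := congrArg (fun e : Edge d => e.1 0) he
    simp only [h0, ow_lvl, Pi.add_apply, vec_lat_zero hi, vec_lat_zero hj] at this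
    linarith
  subst hk
  have h1 : vec j + vec i = 0 := by
    rw [← h0, he]; simp [ow]
  have h2 : vec j = vec (opp i) := by rw [vec_opp]; exact eq_neg_of_add_eq_zero_left h1
  exact h (vec_inj h2)

lemma ww_mem {j : Dir d} (h : j ∈ lat d) : ww j ∈ S2 d := fun k _ => ww_ne_ow h k
lemma uu_mem {j : Dir d} (h : j ∈ lat d) : uu j ∈ S2 d := fun k _ => uu_ne_ow h k

lemma H1_sub_S2 : H d 1 ⊆ S2 d := by
  intro e he k hk h
  have : (1 : ℤ) ≤ e.1 0 := he
  rw [h, ow_lvl] at this
  omega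

lemma H2_sub_H1 : H d 2 ⊆ H d 1 := fun e he => by
  have : (2 : ℤ) ≤ e.1 0 := he
  show (1 : ℤ) ≤ e.1 0
  omega

lemma uu_inj {i j : Dir d} (h : uu i = uu j) : i = j := by
  obtain ⟨i1, i2⟩ := i
  obtain ⟨j1, j2⟩ := j
  have h1 : i1 = j1 := by
    have := congrArg Prod.snd h
    rwa [uu_ax, uu_ax] at this
  subst h1
  have := congrArg (fun e : Edge d => e.1 i1) h
  simp only [uu, edgeAt, vec] at this
  cases i2 <;> cases j2 <;> simp at this <;> rfl

/-! ### Closedness -/

lemma step_plus_congr_H {k : ℤ} (hk : 1 ≤ k) {f f' : Mem d → ℝ}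
    (hf : ∀ M ∈ Free (H d k), f M = f' M) {M : Mem d} (hM : M ∈ Free (H d k)) :
    step μ p plus f M = step μ p plus f' M := by
  refine step_congr ?_ le_rfl ?_ ?_ hf hM
  · intro h
    have : k ≤ (edgeAt (0 : Site d) plus).1 0 := h
    rw [edgeAt_plus, ow_lvl] at this; omega
  · intro e he
    have h1 : k ≤ e.1 0 := he
    show k ≤ (shE (vec plus) e).1 0
    rw [shE_lvl, vec_plus_zero]; omega
  · intro e he h
    have h1 : k ≤ e.1 0 := he
    have h2 := shE_lvl (vec plus) e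
    rw [h, edgeAt_plus, ow_lvl, vec_plus_zero] at h2
    omega

lemma step_plus_congr_S2 {f f' : Mem d → ℝ}
    (hf : ∀ M ∈ Free (S2 d), f M = f' M) {M : Mem d} (hM : M ∈ Free (S2 d)) :
    step μ p plus f M = step μ p plus f' M := by
  refine step_congr ?_ le_rfl ?_ ?_ hf hM
  · intro h; exact h 0 le_rfl edgeAt_plus
  · intro e he k hk h
    refine he (k - 1) (by omega) ?_
    have : shE (vec plus) e = shE (vec plus) (ow d (k - 1)) := by
      rw [h, shE_plus_ow]; congr 1; ring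
    simp only [shE, Prod.mk.injEq, add_left_inj] at this
    exact Prod.ext this.1 this.2
  · intro e he h
    refine he (-1) (by omega) ?_
    have : shE (vec plus) e = shE (vec plus) (ow d (-1)) := by
      rw [h, shE_plus_ow, edgeAt_plus]; congr 1
    simp only [shE, Prod.mk.injEq, add_left_inj] at this
    exact Prod.ext this.1 this.2

lemma step_lat_congr_H {i : Dir d} (hi : i ∈ lat d) {f f' : Mem d → ℝ}
    (hf : ∀ M ∈ Free (H d 1), f M = f' M) {M : Mem d} (hM : M ∈ Free (H d 1)) :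
    step μ p i f M = step μ p i f' M := by
  refine step_congr ?_ le_rfl ?_ ?_ hf hM
  · intro h
    have : (1 : ℤ) ≤ (uu i).1 0 := h
    rw [uu_lvl hi] at this; omega
  · intro e he
    have h1 : (1 : ℤ) ≤ e.1 0 := he
    show (1 : ℤ) ≤ (shE (vec i) e).1 0
    rw [shE_lvl, vec_lat_zero hi]; omega
  · intro e he h
    have h1 : (1 : ℤ) ≤ e.1 0 := he
    have h2 := shE_lvl (vec i) e
    rw [h, show edgeAt 0 i = uu i from rfl, uu_lvl hi, vec_lat_zero hi] at h2
    omega

lemma Free_mono {S T : Set (Edge d)} (h : S ⊆ T) : Free T ⊆ Free S :=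
  fun _ hM x hx hs => hM x hx (h hs)

lemma step_lat_congr_S2 {i : Dir d} (hi : i ∈ lat d) {f f' : Mem d → ℝ}
    (hf : ∀ M ∈ Free (H d 1), f M = f' M) {M : Mem d} (hM : M ∈ Free (S2 d)) :
    step μ p i f M = step μ p i f' M :=
  step_lat_congr_H hi hf (Free_mono H1_sub_S2 hM)

lemma step_minus_congr_S2 {f f' : Mem d → ℝ}
    (hf : ∀ M ∈ Free (H d 2), f M = f' M) {M : Mem d} (hM : M ∈ Free (S2 d)) :
    step μ p minus f M = step μ p minus f' M := by
  refine step_congr ?_ (H2_sub_H1.trans H1_sub_S2) ?_ ?_ hf hM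
  · intro h
    have : (2 : ℤ) ≤ (edgeAt (0 : Site d) minus).1 0 := h
    rw [edgeAt_minus, ow_lvl] at this; omega
  · intro e he
    have h1 : (2 : ℤ) ≤ e.1 0 := he
    refine H1_sub_S2 ?_
    show (1 : ℤ) ≤ (shE (vec minus) e).1 0
    rw [shE_lvl, vec_minus_zero]; omega
  · intro e he h
    have h1 : (2 : ℤ) ≤ e.1 0 := he
    have h2 := shE_lvl (vec minus) e
    rw [h, edgeAt_minus, ow_lvl, vec_minus_zero] at h2
    omega

lemma closed_H {k : ℤ} (hk : 1 ≤ k) : Closed μ p (qw 0 0) (Free (H d k)) := by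
  intro f f' hf M hM
  rw [P_q0, P_q0]; exact step_plus_congr_H hk hf hM

lemma closed_S2 : Closed μ p (qw 0 0) (Free (S2 d)) := by
  intro f f' hf M hM
  rw [P_q0, P_q0]; exact step_plus_congr_S2 hf hM

/-! ### Uniqueness on closed classes -/

lemma Sol.eqOn (hμ : 0 < μ) (h0 : 0 ≤ p) (h1 : p ≤ 1) (hr : Rate μ α ρ) {q : Dir d → ℝ}
    (hq : Wts q) {S : Set (Mem d)} (hS : Closed μ p q S) (hS0 : ∅ ∈ S) {g : Mem d → ℝ}
    {v : ℝ} {h : Mem d → ℝ} (hs : Sol μ p α q g v h) {v' : ℝ} {f : Mem d → ℝ}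
    (hf : ∀ M ∈ S, f M = g M - v' + P μ p q f M) (hf0 : f ∅ = 0) {C : ℝ} (hb : Bd α C f) :
    v = v' ∧ ∀ M ∈ S, h M = f M := by
  obtain ⟨C1, hC1⟩ := hs.bd
  have hbd := hC1.sub hb
  have := unique_zero hμ h0 h1 hr hq hS hS0 (c := v - v')
    (h := h - f) (fun M hM => by
      rw [map_sub]
      simp only [Pi.sub_apply]
      rw [hs.eq M, hf M hM]; ring) (by simp [hs.zero, hf0])
    (hbd.nonneg hr.α_pos.le) (fun M _ => hbd M)
  obtain ⟨e1, e2⟩ := this
  refine ⟨by linarith, fun M hM => ?_⟩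
  have := e2 M hM
  simp only [Pi.sub_apply] at this
  linarith

/-- `nu` only depends on the values on a closed class. -/
lemma nu_congr (hμ : 0 < μ) (h0 : 0 ≤ p) (h1 : p ≤ 1) (hr : Rate μ α ρ) {q : Dir d → ℝ}
    (hq : Wts q) {S : Set (Mem d)} (hS : Closed μ p q S) (hS0 : ∅ ∈ S) {g g' : Mem d → ℝ}
    {C C' : ℝ} (hg : Bd α C g) (hg' : Bd α C' g') (h : ∀ M ∈ S, g M = g' M) :
    nu μ p q g = nu μ p q g' := by
  obtain ⟨f, hs, -, -⟩ := exists_sol hμ h0 h1 hr hq hg
  obtain ⟨f', hs', -, hb'⟩ := exists_sol hμ h0 h1 hr hq hg'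
  exact (hs.eqOn hμ h0 h1 hr hq hS hS0 (fun M hM => by rw [h M hM]; exact hs'.eq M)
    hs'.zero hb').1

lemma nu_nonpos (hμ : 0 < μ) (h0 : 0 ≤ p) (h1 : p ≤ 1) (hr : Rate μ α ρ) {q : Dir d → ℝ}
    (hq : Wts q) {g : Mem d → ℝ} {C : ℝ} (hg : Bd α C g) (h : ∀ M, g M ≤ 0) :
    nu μ p q g ≤ 0 := by
  have hK : ∀ n M, Kn μ p q n g M ≤ 0 := by
    intro n
    induction n with
    | zero => intro M; simpa [Kn] using h M
    | succ n ih =>
      intro M
      rw [Kn_succ, K_apply]
      have := P_mono hμ h0 h1 hq (g := kill (Kn μ p q n g)) (g' := fun _ => 0)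
        (fun M => by rw [kill_apply]; split_ifs; exacts [le_rfl, ih M]) M
      rwa [P_const hμ hq] at this
  have h2 : U μ p q g ∅ ≤ 0 := tsum_nonpos fun n => hK n ∅
  have h3 := one_le_U_one (d := d) hμ h0 h1 hr hq ∅
  exact div_nonpos_of_nonpos_of_nonneg h2 (by linarith)

lemma nu_nonpos_on (hμ : 0 < μ) (h0 : 0 ≤ p) (h1 : p ≤ 1) (hr : Rate μ α ρ) {q : Dir d → ℝ}
    (hq : Wts q) {S : Set (Mem d)} (hS : Closed μ p q S) (hS0 : ∅ ∈ S) {g : Mem d → ℝ}
    {C : ℝ} (hg : Bd α C g) (h : ∀ M ∈ S, g M ≤ 0) : nu μ p q g ≤ 0 := by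
  classical
  have hC := hg.nonneg hr.α_pos.le
  have hb : Bd α C (fun M => if M ∈ S then g M else 0) := by
    intro M
    simp only
    split_ifs
    · exact hg M
    · simpa using mul_nonneg hC (W_pos hr.α_pos.le M).le
  rw [nu_congr hμ h0 h1 hr hq hS hS0 hg hb (fun M hM => by simp [hM])]
  refine nu_nonpos hμ h0 h1 hr hq hb fun M => ?_
  split_ifs with hM
  · exact h M hM
  · exact le_rfl

end Pool.Agent.Helper96.DP
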