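import Pool.Agent.Helper96.DP.Single

/-!
# Decorrelation of the states of several edges
-/

set_option linter.unusedSectionVars false
set_option linter.unusedSimpArgs false
set_option linter.unusedVariables false

namespace Pool.Agent.Helper96.DP

open MeasureTheory ProbabilityTheory Filter Topology Set

variable {d : ℕ}

/-- The law of the environment. -/
noncomputable def envLaw (d : ℕ) (μ : ℝ) (p : unitInterval) : Measure (Edge d → EdgeRand) :=
  Measure.infinitePi fun _ : Edge d => edgeLaw μ p

/-- The states of all edges at the times `T 0, T 1, …`. -/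
noncomputable def sta (T : ℕ → ℝ) (E : Edge d → EdgeRand) : Edge d → ℕ → Bool :=
  fun e j => stateAt (E e) (T j)

lemma prob_edgeLaw {μ : ℝ} (hμ : 0 < μ) (p : unitInterval) : IsProbabilityMeasure (edgeLaw μ p) := by
  have := prob_clockLaw hμ
  rw [edgeLaw_eq]; infer_instance

lemma prob_envLaw {μ : ℝ} (hμ : 0 < μ) (p : unitInterval) :
    IsProbabilityMeasure (envLaw d μ p) := by
  have := prob_edgeLaw hμ p
  unfold envLaw; infer_instance

lemma sta_update (T : ℕ → ℝ) (E : Edge d → EdgeRand) (e : Edge d) (ξ : EdgeRand) :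
    sta T (Function.update E e ξ) = Function.update (sta T E) e fun j => stateAt ξ (T j) := by
  funext e' j
  by_cases h : e' = e
  · subst h; simp [sta]
  · simp [sta, Function.update_of_ne h]

lemma measurable_sta (T : ℕ → ℝ) (e : Edge d) (j : ℕ) :
    Measurable fun E : Edge d → EdgeRand => sta T E e j :=
  (measurable_stateAt (T j)).comp (measurable_pi_apply e)

section
variable {p : unitInterval} {k : ℕ} {C μ : ℝ} {T : ℕ → ℝ}

lemma measurable_ctr_sta (e : Edge d) (j : ℕ) :
    Measurable fun E : Edge d → EdgeRand => ctr (p : ℝ) (sta T E e j) :=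
  (measurable_of_countable (ctr (p : ℝ))).comp (measurable_sta T e j)

lemma oneEdge (hμ : 0 < μ) (hT0 : ∀ j, 0 ≤ T j) (hTm : Monotone T) (e : Edge d)
    {ζ : (Edge d → ℕ → Bool) → ℝ}
    (hdep : ∀ a b : Edge d → ℕ → Bool, (∀ e' ≠ e, a e' = b e') → (∀ j ≤ k, a e j = b e j) →
      ζ a = ζ b) (hC : ∀ a, |ζ a| ≤ C)
    (hmeas : Measurable fun E : Edge d → EdgeRand => ζ (sta T E)) :
    ∫ E, ζ (sta T E) * ctr p (sta T E e (k + 1)) ∂(envLaw d μ p) =
    Real.exp (-(μ * (T (k + 1) - T k))) *
      ∫ E, ζ (sta T E) * ctr p (sta T E e k) ∂(envLaw d μ p) := by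
  have hpe := prob_edgeLaw hμ p
  have hpE := prob_envLaw (d := d) hμ p
  have hC0 : 0 ≤ C := (abs_nonneg _).trans (hC fun _ _ => true)
  have hint : ∀ m, Integrable (fun E : Edge d → EdgeRand =>
      ζ (sta T E) * ctr p (sta T E e m)) (envLaw d μ p) := by
    intro m
    refine Integrable.of_bound (hmeas.mul (measurable_ctr_sta e m)).aestronglyMeasurable (C * 1)
      (ae_of_all _ fun E => ?_)
    rw [Real.norm_eq_abs, abs_mul]
    exact mul_le_mul (hC _) (abs_ctr_le p.2.1 p.2.2 _) (abs_nonneg _) hC0
  have h1 := integral_update (edgeLaw μ p) e (hint (k + 1))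
  have h2 := integral_update (edgeLaw μ p) e (hint k)
  change ∫ E, ζ (sta T E) * ctr p (sta T E e (k + 1)) ∂(envLaw d μ p) = _ at h1
  change ∫ E, ζ (sta T E) * ctr p (sta T E e k) ∂(envLaw d μ p) = _ at h2
  rw [h1, h2, ← integral_const_mul]
  refine integral_congr_ae (ae_of_all _ fun E => ?_)
  simp only [sta_update, Function.update_self]
  refine single (p := p) (z := fun a => ζ (Function.update (sta T E) e a)) hμ hT0 hTm ?_
    (fun a => hC _)
  intro a b hab
  refine hdep _ _ (fun e' he' => by rw [Function.update_of_ne he', Function.update_of_ne he'])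
    fun j hj => ?_
  rw [Function.update_self, Function.update_self, hab j hj]

/-- The states of the edges of `A` decorrelate independently. -/
lemma multi (hμ : 0 < μ) (hT0 : ∀ j, 0 ≤ T j) (hTm : Monotone T) (A : Finset (Edge d)) :
    ∀ {ζ : (Edge d → ℕ → Bool) → ℝ},
    (∀ a b : Edge d → ℕ → Bool, (∀ e, ∀ j ≤ k, a e j = b e j) → ζ a = ζ b) →
    (∀ a, |ζ a| ≤ C) → (Measurable fun E : Edge d → EdgeRand => ζ (sta T E)) →
    ∫ E, ζ (sta T E) * ∏ e ∈ A, ctr p (sta T E e (k + 1)) ∂(envLaw d μ p) =
    Real.exp (-(μ * (T (k + 1) - T k))) ^ A.card *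
      ∫ E, ζ (sta T E) * ∏ e ∈ A, ctr p (sta T E e k) ∂(envLaw d μ p) := by
  induction A using Finset.induction_on with
  | empty => intro ζ _ _ _; simp
  | insert e A he ih =>
    intro ζ hdep hC hmeas
    have hC0 : 0 ≤ C := (abs_nonneg _).trans (hC fun _ _ => true)
    have e1 := oneEdge (p := p) (k := k) (C := C * 1) hμ hT0 hTm e
      (ζ := fun a => ζ a * ∏ e' ∈ A, ctr p (a e' (k + 1))) ?_ ?_ ?_
    · have e2 := ih (ζ := fun a => ζ a * ctr p (a e k)) ?_ ?_ ?_
      · rw [Finset.card_insert_of_notMem he, pow_succ', mul_assoc]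
        simp only [Finset.prod_insert he]
        rw [show (fun E : Edge d → EdgeRand => ζ (sta T E) * (ctr (p : ℝ) (sta T E e (k + 1)) *
            ∏ e' ∈ A, ctr (p : ℝ) (sta T E e' (k + 1)))) =
            fun E => ζ (sta T E) * (∏ e' ∈ A, ctr (p : ℝ) (sta T E e' (k + 1))) *
              ctr (p : ℝ) (sta T E e (k + 1)) by funext E; ring, e1]
        congr 1
        rw [show (fun E : Edge d → EdgeRand => ζ (sta T E) *
            (∏ e' ∈ A, ctr (p : ℝ) (sta T E e' (k + 1))) * ctr (p : ℝ) (sta T E e k)) =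
            fun E => ζ (sta T E) * ctr (p : ℝ) (sta T E e k) *
              ∏ e' ∈ A, ctr (p : ℝ) (sta T E e' (k + 1)) by funext E; ring, e2]
        congr 1
        refine integral_congr_ae (ae_of_all _ fun E => ?_)
        simp only
        ring
      · intro a b hab
        rw [hdep a b hab, hab e k le_rfl]
      · intro a
        rw [abs_mul]
        calc |ζ a| * |ctr (p : ℝ) (a e k)| ≤ C * 1 :=
              mul_le_mul (hC _) (abs_ctr_le p.2.1 p.2.2 _) (abs_nonneg _) hC0
          _ = C := mul_one C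
      · exact hmeas.mul (measurable_ctr_sta e k)
    · intro a b hab hab'
      have h3 : ζ a = ζ b := by
        refine hdep a b fun e' j hj => ?_
        by_cases h : e' = e
        · subst h; exact hab' j hj
        · rw [hab e' h]
      rw [h3]
      congr 1
      refine Finset.prod_congr rfl fun e' he' => ?_
      rw [hab e' (fun h => he (h ▸ he'))]
    · intro a
      rw [abs_mul, Finset.abs_prod]
      refine mul_le_mul (hC _) (Finset.prod_le_one (fun _ _ => abs_nonneg _)
        fun _ _ => abs_ctr_le p.2.1 p.2.2 _) (Finset.prod_nonneg fun _ _ => abs_nonneg _) hC0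
    · exact hmeas.mul (Finset.measurable_fun_prod _ fun e' _ => measurable_ctr_sta e' _)

/-- At time zero the states are centred and independent. -/
lemma multi_zero (hμ : 0 < μ) {A : Finset (Edge d)} (hA : A.Nonempty) :
    ∫ E, ∏ e ∈ A, ctr p (stateAt (E e) 0) ∂(envLaw d μ p) = 0 := by
  have hpe := prob_edgeLaw hμ p
  have hpE := prob_envLaw (d := d) hμ p
  have hpc := prob_clockLaw hμ
  obtain ⟨e, he⟩ := hA
  have hm : ∀ e : Edge d, Measurable fun E : Edge d → EdgeRand => ctr (p : ℝ) (stateAt (E e) 0) :=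
    fun e => (measurable_of_countable (ctr (p : ℝ))).comp
      ((measurable_stateAt 0).comp (measurable_pi_apply e))
  have hint : Integrable (fun E : Edge d → EdgeRand => ∏ e ∈ A, ctr (p : ℝ) (stateAt (E e) 0))
      (envLaw d μ p) := by
    refine Integrable.of_bound (Finset.measurable_fun_prod _ fun e _ => hm e).aestronglyMeasurable 1
      (ae_of_all _ fun E => ?_)
    rw [Real.norm_eq_abs, Finset.abs_prod]
    exact Finset.prod_le_one (fun _ _ => abs_nonneg _) fun _ _ => abs_ctr_le p.2.1 p.2.2 _
  have h1 := integral_update (edgeLaw μ p) e hint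
  change ∫ E, ∏ e ∈ A, ctr (p : ℝ) (stateAt (E e) 0) ∂(envLaw d μ p) = _ at h1
  rw [h1]
  have h2 : ∀ E : Edge d → EdgeRand, ∫ ξ, ∏ e' ∈ A, ctr (p : ℝ)
      (stateAt (Function.update E e ξ e') 0) ∂(edgeLaw μ p) = 0 := by
    intro E
    have h3 : ∀ ξ, ∏ e' ∈ A, ctr (p : ℝ) (stateAt (Function.update E e ξ e') 0) =
        ctr (p : ℝ) (stateAt ξ 0) * ∏ e' ∈ A.erase e, ctr (p : ℝ) (stateAt (E e') 0) := by
      intro ξ
      rw [← Finset.mul_prod_erase A _ he, Function.update_self]
      congr 1
      refine Finset.prod_congr rfl fun e' he' => ?_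
      rw [Function.update_of_ne (Finset.ne_of_mem_erase he')]
    simp only [h3]
    rw [integral_mul_const]
    have h4 : ∫ ξ, ctr (p : ℝ) (stateAt ξ 0) ∂(edgeLaw μ p) = 0 := by
      have hi : Integrable (fun ξ : EdgeRand => ctr (p : ℝ) (stateAt ξ 0))
          ((clockLaw μ).prod (coinLaw p)) :=
        Integrable.of_bound ((measurable_of_countable (ctr (p : ℝ))).comp
          (measurable_stateAt 0)).aestronglyMeasurable 1
          (ae_of_all _ fun ξ => abs_ctr_le p.2.1 p.2.2 _)
      rw [edgeLaw_eq, integral_prod _ hi]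
      have h5 : ∀ g : ℕ → ℝ, ∫ b, ctr (p : ℝ) (stateAt (g, b) 0) ∂(coinLaw p) = 0 := by
        intro g
        have hi2 : Integrable (fun b : ℕ → Bool => ctr (p : ℝ) (b (rings g 0))) (coinLaw p) :=
          Integrable.of_bound ((measurable_of_countable (ctr (p : ℝ))).comp
            (measurable_pi_apply _)).aestronglyMeasurable 1
            (ae_of_all _ fun ξ => abs_ctr_le p.2.1 p.2.2 _)
        have h6 := integral_update (bernoulliMeasure true false p) (rings g 0) hi2
        change ∫ b, ctr (p : ℝ) (stateAt (g, b) 0) ∂(coinLaw p) = _ at h6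
        rw [h6]
        simp only [Function.update_self, integral_ctr]
        simp
      simp only [h5]
      simp
    rw [h4, zero_mul]
  simp only [h2]
  simp

end

end Pool.Agent.Helper96.DP
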