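import Pool.Agent.Helper96.DP.Poisson

/-!
# Second-order expansion of differences of stationary means
-/

namespace Pool.Agent.Helper96.DP

open Finset Filter Topology

variable {d : ℕ} [NeZero d]

/-- The direction `+e_1`. -/
def plus : Dir d := (0, true)
/-- The direction `-e_1`. -/
def minus : Dir d := (0, false)
/-- The lateral directions. -/
def lat (d : ℕ) [NeZero d] : Finset (Dir d) := univ.filter fun a => a.1 ≠ 0

lemma plus_ne_minus : (plus : Dir d) ≠ minus := by simp [plus, minus]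

lemma mem_lat {a : Dir d} : a ∈ lat d ↔ a.1 ≠ 0 := by simp [lat]

lemma lat_ne_plus {a : Dir d} (h : a ∈ lat d) : a ≠ plus := by
  rintro rfl; exact (mem_lat.1 h) rfl

lemma lat_ne_minus {a : Dir d} (h : a ∈ lat d) : a ≠ minus := by
  rintro rfl; exact (mem_lat.1 h) rfl

lemma sum_dir (f : Dir d → ℝ) : ∑ a, f a = f plus + f minus + ∑ a ∈ lat d, f a := by
  have h : (univ : Finset (Dir d)) = insert plus (insert minus (lat d)) := by
    ext a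
    simp only [mem_univ, mem_insert, mem_lat, true_iff]
    by_cases h : a.1 = 0
    · obtain ⟨i, s⟩ := a
      simp only at h; subst h
      cases s
      · right; left; rfl
      · left; rfl
    · exact Or.inr (Or.inr h)
  rw [h, sum_insert, sum_insert]
  · ring
  · intro h; exact lat_ne_minus h rfl
  · intro h
    rcases mem_insert.1 h with h | h
    · exact plus_ne_minus h
    · exact lat_ne_plus h rfl

/-- The number of lateral directions. -/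
noncomputable def mm (d : ℕ) [NeZero d] : ℝ := (lat d).card

lemma mm_nonneg : 0 ≤ mm d := Nat.cast_nonneg _

/-- Direction weights: `ε` for the lateral directions, `r` backwards. -/
noncomputable def qw (ε r : ℝ) (a : Dir d) : ℝ :=
  if a = plus then 1 - mm d * ε - r else if a = minus then r else ε

lemma qw_plus (ε r : ℝ) : qw ε r (plus : Dir d) = 1 - mm d * ε - r := by simp [qw]
lemma qw_minus (ε r : ℝ) : qw ε r (minus : Dir d) = r := by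
  simp [qw, (plus_ne_minus (d := d)).symm]
lemma qw_lat (ε r : ℝ) {a : Dir d} (h : a ∈ lat d) : qw ε r a = ε := by
  simp [qw, lat_ne_plus h, lat_ne_minus h]

lemma wts_qw {ε r : ℝ} (hε : 0 ≤ ε) (hr : 0 ≤ r) (h : mm d * ε + r ≤ 1) :
    Wts (qw ε r : Dir d → ℝ) := by
  refine ⟨fun a => ?_, ?_⟩
  · unfold qw; split_ifs <;> linarith
  · rw [sum_dir, qw_plus, qw_minus, sum_congr rfl fun a ha => qw_lat ε r ha, sum_const,
      nsmul_eq_mul]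
    unfold mm; ring

section

variable {μ p α ρ : ℝ}

variable (μ p) in
/-- Replacing forward attempts by lateral ones. -/
noncomputable def opL : (Mem d → ℝ) →ₗ[ℝ] (Mem d → ℝ) :=
  ∑ a ∈ lat d, (step μ p a - step μ p plus)

variable (μ p) in
/-- Replacing forward attempts by backward ones. -/
noncomputable def opN : (Mem d → ℝ) →ₗ[ℝ] (Mem d → ℝ) := step μ p minus - step μ p plus

lemma P_qw (ε r : ℝ) (g : Mem d → ℝ) :
    P μ p (qw ε r) g = step μ p plus g + ε • opL μ p g + r • opN μ p g := by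
  funext M
  rw [P_apply, sum_dir, qw_plus, qw_minus]
  have : ∑ a ∈ lat d, qw ε r a * step μ p a g M = ε * ∑ a ∈ lat d, step μ p a g M := by
    rw [mul_sum]; exact sum_congr rfl fun a ha => by rw [qw_lat ε r ha]
  rw [this]
  have h2 : opL μ p g M = ∑ a ∈ lat d, step μ p a g M - mm d * step μ p plus g M := by
    rw [opL, LinearMap.sum_apply, Finset.sum_apply]
    simp only [LinearMap.sub_apply, Pi.sub_apply]
    rw [sum_sub_distrib, sum_const, nsmul_eq_mul]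
    rfl
  simp only [Pi.add_apply, Pi.smul_apply, smul_eq_mul, h2]
  simp only [opN, LinearMap.sub_apply, Pi.sub_apply]
  ring

lemma P_q0 (g : Mem d → ℝ) : P μ p (qw 0 0) g = step μ p plus g := by
  rw [P_qw]; simp

variable (p) in
/-- probability that the forward edge is open -/
noncomputable def cp (M : Mem d) : ℝ := p + phi p (edgeAt 0 plus) M
variable (p) in
/-- minus the probability that the backward edge is open -/
noncomputable def cm (M : Mem d) : ℝ := -(p + phi p (edgeAt 0 minus) M)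

variable (p) in
/-- mean displacement in direction `e_1` at a ring -/
noncomputable def cost (q : Dir d → ℝ) : Mem d → ℝ := q plus • cp p + q minus • cm p

lemma cost_qw (ε r : ℝ) : (cost p (qw ε r) : Mem d → ℝ) =
    cp p + ε • (-(mm d) • cp p) + r • (cm p - cp p) := by
  funext M
  simp only [cost, qw_plus, qw_minus, Pi.add_apply, Pi.smul_apply, Pi.sub_apply, smul_eq_mul]
  ring

variable (μ p) in
/-- first-order source, lateral -/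
noncomputable def F0 (h0 : Mem d → ℝ) : Mem d → ℝ := -(mm d) • cp p + opL μ p h0
variable (μ p) in
/-- first-order source, backward -/
noncomputable def Fm (h0 : Mem d → ℝ) : Mem d → ℝ := (cm p - cp p) + opN μ p h0

lemma Bd.opL (hμ : 0 < μ) (h0 : 0 ≤ p) (h1 : p ≤ 1) (hα : 0 ≤ α) {C : ℝ}
    {g : Mem d → ℝ} (h : Bd α C g) : Bd α (mm d * (2 * (1 + α)) * C) (opL μ p g) := by
  have := Bd.sum (lat d) (g := fun a => step μ p a g - step μ p plus g)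
    (fun a _ => (h.st hμ h0 h1 hα a).sub (h.st hμ h0 h1 hα plus))
  have e : DP.opL μ p g = ∑ a ∈ lat d, (step μ p a g - step μ p plus g) := by
    simp [DP.opL, LinearMap.sum_apply]
  rw [e]
  refine this.mono hα (le_of_eq ?_)
  unfold mm; ring

lemma Bd.opN (hμ : 0 < μ) (h0 : 0 ≤ p) (h1 : p ≤ 1) (hα : 0 ≤ α) {C : ℝ}
    {g : Mem d → ℝ} (h : Bd α C g) : Bd α (2 * (1 + α) * C) (opN μ p g) := by
  have := (h.st hμ h0 h1 hα minus).sub (h.st hμ h0 h1 hα plus)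
  exact this.mono hα (by ring_nf; exact le_rfl)

lemma Bd_cp (h0 : 0 ≤ p) (h1 : p ≤ 1) (hα : 0 ≤ α) : Bd α 1 (cp p : Mem d → ℝ) :=
  Bd_of_abs_le hα zero_le_one fun M => by
    have e1 := belief_nonneg h0 h1 (edgeAt 0 plus) M
    have e2 := belief_le_one h0 h1 (edgeAt 0 plus) M
    rw [abs_le]; unfold cp; constructor <;> linarith

lemma Bd_cm (h0 : 0 ≤ p) (h1 : p ≤ 1) (hα : 0 ≤ α) : Bd α 1 (cm p : Mem d → ℝ) :=
  Bd_of_abs_le hα zero_le_one fun M => by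
    have e1 := belief_nonneg h0 h1 (edgeAt 0 minus) M
    have e2 := belief_le_one h0 h1 (edgeAt 0 minus) M
    rw [abs_le]; unfold cm; constructor <;> linarith

lemma Bd_cost (h0 : 0 ≤ p) (h1 : p ≤ 1) (hα : 0 ≤ α) (q : Dir d → ℝ) :
    Bd α (|q plus| * 1 + |q minus| * 1) (cost p q) :=
  ((Bd_cp h0 h1 hα).smul _).add ((Bd_cm h0 h1 hα).smul _)

/-- change of the stationary mean of a fixed function -/
lemma nu_change (hμ : 0 < μ) (h0 : 0 ≤ p) (h1 : p ≤ 1) (hr : Rate μ α ρ) {g : Mem d → ℝ}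
    {v : ℝ} {f : Mem d → ℝ} (hs : Sol μ p α (qw 0 0) g v f)
    {Cf : ℝ} (hf : Bd α Cf f)
    {ε r : ℝ} (hq : Wts (qw ε r : Dir d → ℝ)) :
    nu μ p (qw ε r) g = v + ε * nu μ p (qw ε r) (opL μ p f) + r * nu μ p (qw ε r) (opN μ p f) := by
  have hα := hr.α_pos.le
  have e1 : g = (fun M => f M - P μ p (qw ε r) f M + v) +
      (ε • opL μ p f + r • opN μ p f) := by
    funext M
    have := hs.eq M
    rw [P_q0] at this
    rw [P_qw]
    simp only [Pi.add_apply, Pi.smul_apply, smul_eq_mul]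
    linarith
  have b1 := hf.opL hμ h0 h1 hα
  have b2 := hf.opN hμ h0 h1 hα
  have b3 : Bd α (Cf + (1 + α) * Cf + |v|) (fun M => f M - P μ p (qw ε r) f M + v) :=
    (hf.sub (hf.opP hμ h0 h1 hα hq)).add
      (Bd_of_abs_le (d := d) hα (abs_nonneg v) (g := fun _ => v) (fun _ => le_rfl))
  rw [e1, nu_add hμ h0 h1 hr hq b3 ((b1.smul ε).add (b2.smul r)),
    nu_coboundary hμ h0 h1 hr hq hf hs.zero,
    nu_add hμ h0 h1 hr hq (b1.smul ε) (b2.smul r),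
    nu_smul hμ h0 h1 hr hq b1, nu_smul hμ h0 h1 hr hq b2]
  ring

/-- The admissible parameters. -/
structure Adm (d : ℕ) [NeZero d] (ε r : ℝ) : Prop where
  ε0 : 0 ≤ ε
  ε1 : ε ≤ 1
  r0 : 0 ≤ r
  r1 : r ≤ 2 * ε ^ 2
  s : mm d * ε + r ≤ 1

lemma Adm.wts {ε r : ℝ} (h : Adm d ε r) : Wts (qw ε r : Dir d → ℝ) := wts_qw h.ε0 h.r0 h.s

lemma Adm.r_le {ε r : ℝ} (h : Adm d ε r) : r ≤ 2 * ε := by
  have := h.r1; have := h.ε0; have := h.ε1; nlinarith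

lemma nu_lip (hμ : 0 < μ) (h0 : 0 ≤ p) (h1 : p ≤ 1) (hr : Rate μ α ρ) {g : Mem d → ℝ}
    {Cg : ℝ} (hg : Bd α Cg g) : ∃ C, 0 ≤ C ∧ ∀ ε r, Adm d ε r →
      |nu μ p (qw ε r) g - nu μ p (qw 0 0) g| ≤ C * ε := by
  have hα := hr.α_pos.le
  have hρ : 0 < 1 - ρ := by linarith [hr.ρ_lt]
  have hq0 : Wts (qw 0 0 : Dir d → ℝ) := wts_qw le_rfl le_rfl (by simp)
  obtain ⟨f, hs, -, hf⟩ := exists_sol hμ h0 h1 hr hq0 hg
  set Cf := (1 - ρ)⁻¹ * Cg + (1 - ρ)⁻¹ * Cg * (1 - ρ)⁻¹ with hCf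
  have hCf0 : 0 ≤ Cf := hf.nonneg hα
  have hm := mm_nonneg (d := d)
  refine ⟨(1 - ρ)⁻¹ * (mm d * (2 * (1 + α)) * Cf) + 2 * ((1 - ρ)⁻¹ * (2 * (1 + α) * Cf)),
    by positivity, fun ε r ha => ?_⟩
  rw [nu_change hμ h0 h1 hr hs hf ha.wts]
  have b1 := nu_bound hμ h0 h1 hr ha.wts (hf.opL hμ h0 h1 hα)
  have b2 := nu_bound hμ h0 h1 hr ha.wts (hf.opN hμ h0 h1 hα)
  have e1 := ha.ε0
  have e2 := ha.r0
  have e3 := ha.r_le
  rw [show nu μ p (qw 0 0) g + ε * nu μ p (qw ε r) (opL μ p f) +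
    r * nu μ p (qw ε r) (opN μ p f) - nu μ p (qw 0 0) g =
    ε * nu μ p (qw ε r) (opL μ p f) + r * nu μ p (qw ε r) (opN μ p f) by ring]
  refine (abs_add_le _ _).trans ?_
  rw [abs_mul, abs_mul, abs_of_nonneg e1, abs_of_nonneg e2]
  have c1 := mul_le_mul_of_nonneg_left b1 e1
  have c2 := mul_le_mul_of_nonneg_left b2 e2
  have c3 : r * ((1 - ρ)⁻¹ * (2 * (1 + α) * Cf)) ≤ 2 * ε * ((1 - ρ)⁻¹ * (2 * (1 + α) * Cf)) :=
    mul_le_mul_of_nonneg_right e3 (by positivity)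
  linarith

/-- Second-order expansion of the difference of the stationary mean displacements. -/
theorem perturb (hμ : 0 < μ) (h0 : 0 ≤ p) (h1 : p ≤ 1) (hr : Rate μ α ρ)
    {v0 : ℝ} {f0 : Mem d → ℝ} (hs0 : Sol μ p α (qw 0 0) (cp p) v0 f0)
    {v1 : ℝ} {f1 : Mem d → ℝ} (hs1 : Sol μ p α (qw 0 0) (F0 μ p f0) v1 f1) :
    ∃ C, 0 ≤ C ∧ ∀ ε₁ r₁ ε₂ r₂ : ℝ, Adm d ε₁ r₁ → Adm d ε₂ r₂ → ε₁ ≤ ε₂ → r₁ ≤ r₂ →
      |nu μ p (qw ε₂ r₂ : Dir d → ℝ) (cost p (qw ε₂ r₂)) -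
        nu μ p (qw ε₁ r₁ : Dir d → ℝ) (cost p (qw ε₁ r₁)) -
        ((ε₂ - ε₁) * (v1 + (ε₁ + ε₂) * nu μ p (qw 0 0) (opL μ p f1)) +
          (r₂ - r₁) * nu μ p (qw 0 0) (Fm μ p f0))| ≤
      C * ((ε₂ - ε₁) * ε₂ ^ 2 + (r₂ - r₁) * ε₂) := by
  have hα := hr.α_pos.le
  have hρ : 0 < 1 - ρ := by linarith [hr.ρ_lt]
  have hρ' : 0 < (1 - ρ)⁻¹ := inv_pos.2 hρ
  have hm := mm_nonneg (d := d)
  have hq0 : Wts (qw 0 0 : Dir d → ℝ) := wts_qw le_rfl le_rfl (by simp)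
  -- bounds of the fixed functions
  obtain ⟨C0, hC0⟩ := hs0.bd
  obtain ⟨C1, hC1⟩ := hs1.bd
  have hC10 := hC1.nonneg hα
  have bF0 := ((Bd_cp (d := d) h0 h1 hα).smul (-(mm d))).add (hC0.opL hμ h0 h1 hα)
  have bFm := ((Bd_cm (d := d) h0 h1 hα).sub (Bd_cp h0 h1 hα)).add (hC0.opN hμ h0 h1 hα)
  change Bd α _ (F0 μ p f0) at bF0
  change Bd α _ (Fm μ p f0) at bFm
  set CF := |-(mm d)| * 1 + mm d * (2 * (1 + α)) * C0 with hCF
  set CM := 1 + 1 + 2 * (1 + α) * C0 with hCM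
  have hCF0 : 0 ≤ CF := bF0.nonneg hα
  have hCM0 : 0 ≤ CM := bFm.nonneg hα
  have bL := hC1.opL hμ h0 h1 hα
  have bN := hC1.opN hμ h0 h1 hα
  obtain ⟨KL, hKL0, hKL⟩ := nu_lip hμ h0 h1 hr bL
  obtain ⟨KM, hKM0, hKM⟩ := nu_lip hμ h0 h1 hr bFm
  set κL := nu μ p (qw 0 0 : Dir d → ℝ) (opL μ p f1) with hκL
  set κN := nu μ p (qw 0 0 : Dir d → ℝ) (Fm μ p f0) with hκN
  set S := (1 - ρ)⁻¹ + (1 - ρ)⁻¹ * (1 - ρ)⁻¹ with hS
  have hS0 : 0 ≤ S := by positivity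
  set A1 := S * (CF + 2 * CM) with hA1
  have hA10 : 0 ≤ A1 := by positivity
  set A2 := S * (2 * CM + mm d * (2 * (1 + α)) * C1 + 2 * (2 * (1 + α) * C1)) with hA2
  have hA20 : 0 ≤ A2 := by positivity
  set E1 := 2 * KL + 2 * ((1 - ρ)⁻¹ * (2 * (1 + α) * C1)) +
    (1 - ρ)⁻¹ * (mm d * (2 * (1 + α)) * A2) with hE1
  set E2 := KM + (1 - ρ)⁻¹ * (2 * (1 + α) * A1) with hE2
  have hE10 : 0 ≤ E1 := by positivity
  have hE20 : 0 ≤ E2 := by positivity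
  refine ⟨E1 + E2, by positivity, fun ε₁ r₁ ε₂ r₂ a1 a2 hε hrr => ?_⟩
  have w1 := a1.wts
  have w2 := a2.wts
  have p1 := a1.ε0
  have p2 := a2.ε0
  -- the solutions
  obtain ⟨H1, hH1, -, -⟩ := exists_sol hμ h0 h1 hr w1 (Bd_cost (d := d) h0 h1 hα (qw ε₁ r₁))
  obtain ⟨H2, hH2, -, -⟩ := exists_sol hμ h0 h1 hr w2 (Bd_cost (d := d) h0 h1 hα (qw ε₂ r₂))
  set V1 := nu μ p (qw ε₁ r₁ : Dir d → ℝ) (cost p (qw ε₁ r₁)) with hV1
  set V2 := nu μ p (qw ε₂ r₂ : Dir d → ℝ) (cost p (qw ε₂ r₂)) with hV2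
  obtain ⟨D, hD⟩ := hH1.bd
  obtain ⟨D', hD'⟩ := hH2.bd
  -- first approximation
  set D1 := H1 - f0 with hD1
  have s1 : Sol μ p α (qw ε₁ r₁) (ε₁ • F0 μ p f0 + r₁ • Fm μ p f0) (V1 - v0) D1 := by
    refine ⟨fun M => ?_, by simp [hD1, hH1.zero, hs0.zero], _, hD.sub hC0⟩
    have t1 := hH1.eq M
    have t2 := hs0.eq M
    rw [P_q0] at t2
    rw [P_qw] at t1
    rw [hD1, P_qw]
    simp only [F0, Fm, map_sub, Pi.add_apply, Pi.sub_apply, Pi.smul_apply, smul_eq_mul, cost_qw]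
      at t1 t2 ⊢
    linarith
  have bs1 : Bd α (ε₁ * CF + r₁ * CM) (ε₁ • F0 μ p f0 + r₁ • Fm μ p f0) := by
    have := (bF0.smul ε₁).add (bFm.smul r₁)
    rwa [abs_of_nonneg p1, abs_of_nonneg a1.r0] at this
  have bD1 : Bd α (A1 * ε₁) D1 := by
    refine (s1.bound hμ h0 h1 hr w1 bs1).2.mono hα ?_
    have : ε₁ * CF + r₁ * CM ≤ (CF + 2 * CM) * ε₁ := by
      have t0 := mul_le_mul_of_nonneg_right a1.r_le hCM0
      have t1 : 2 * ε₁ * CM = 2 * CM * ε₁ := by ring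
      have t2 : (CF + 2 * CM) * ε₁ = ε₁ * CF + 2 * CM * ε₁ := by ring
      rw [t2, ← t1]
      linarith
    have h3 := mul_le_mul_of_nonneg_left this hS0
    rw [hA1]; rw [hS] at h3 ⊢; linarith
  -- second approximation
  set D2 := D1 - ε₁ • f1 with hD2
  have s2 : Sol μ p α (qw ε₁ r₁) (r₁ • Fm μ p f0 + ε₁ • (ε₁ • opL μ p f1 + r₁ • opN μ p f1))
      (V1 - v0 - ε₁ * v1) D2 := by
    refine ⟨fun M => ?_, by simp [hD2, hD1, hH1.zero, hs0.zero, hs1.zero], _,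
      bD1.sub (hC1.smul ε₁)⟩
    have t1 := s1.eq M
    have t2 := hs1.eq M
    rw [P_q0] at t2
    rw [P_qw] at t1
    rw [hD2, P_qw]
    simp only [map_sub, map_smul, Pi.add_apply, Pi.sub_apply, Pi.smul_apply, smul_eq_mul]
      at t1 t2 ⊢
    linear_combination t1 - ε₁ * t2
  have bs2 : Bd α (r₁ * CM + ε₁ * (ε₁ * (mm d * (2 * (1 + α)) * C1) + r₁ * (2 * (1 + α) * C1)))
      (r₁ • Fm μ p f0 + ε₁ • (ε₁ • opL μ p f1 + r₁ • opN μ p f1)) := by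
    have := (bFm.smul r₁).add (((bL.smul ε₁).add (bN.smul r₁)).smul ε₁)
    rwa [abs_of_nonneg p1, abs_of_nonneg a1.r0] at this
  have bD2 : Bd α (A2 * ε₁ ^ 2) D2 := by
    refine (s2.bound hμ h0 h1 hr w1 bs2).2.mono hα ?_
    have t1 : r₁ * CM ≤ 2 * ε₁ ^ 2 * CM := mul_le_mul_of_nonneg_right a1.r1 hCM0
    have t2 : ε₁ * (r₁ * (2 * (1 + α) * C1)) ≤ ε₁ * (2 * ε₁ * (2 * (1 + α) * C1)) :=
      mul_le_mul_of_nonneg_left (mul_le_mul_of_nonneg_right a1.r_le (by positivity)) p1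
    have : r₁ * CM + ε₁ * (ε₁ * (mm d * (2 * (1 + α)) * C1) + r₁ * (2 * (1 + α) * C1)) ≤
        (2 * CM + mm d * (2 * (1 + α)) * C1 + 2 * (2 * (1 + α) * C1)) * ε₁ ^ 2 := by
      have t3 : ε₁ * (2 * ε₁ * (2 * (1 + α) * C1)) = 2 * (2 * (1 + α) * C1) * ε₁ ^ 2 := by ring
      have t4 : ε₁ * (ε₁ * (mm d * (2 * (1 + α)) * C1) + r₁ * (2 * (1 + α) * C1)) =
        mm d * (2 * (1 + α)) * C1 * ε₁ ^ 2 + ε₁ * (r₁ * (2 * (1 + α) * C1)) := by ring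
      rw [t4]
      rw [t3] at t2
      linarith
    have h3 := mul_le_mul_of_nonneg_left this hS0
    rw [hA2]; rw [hS] at h3 ⊢; linarith
  -- the difference
  have s3 : Sol μ p α (qw ε₂ r₂) ((ε₂ - ε₁) • (F0 μ p f0 + (ε₁ • opL μ p f1 + opL μ p D2)) +
      (r₂ - r₁) • (Fm μ p f0 + opN μ p D1)) (V2 - V1) (H2 - H1) := by
    refine ⟨fun M => ?_, by simp [hH1.zero, hH2.zero], _, hD'.sub hD⟩
    have t1 := hH1.eq M
    have t2 := hH2.eq M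
    have e1 : opL μ p D2 = opL μ p H1 - opL μ p f0 - ε₁ • opL μ p f1 := by
      rw [hD2, hD1, map_sub, map_sub, map_smul]
    have e2 : opN μ p D1 = opN μ p H1 - opN μ p f0 := by rw [hD1, map_sub]
    rw [P_qw] at t1 t2
    rw [e1, e2, P_qw]
    simp only [F0, Fm, map_sub, Pi.add_apply, Pi.sub_apply, Pi.smul_apply, smul_eq_mul, cost_qw]
      at t1 t2 ⊢
    linear_combination t2 - t1
  have bLD2 := bD2.opL hμ h0 h1 hα
  have bND1 := bD1.opN hμ h0 h1 hα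
  have bX : Bd α _ (F0 μ p f0 + (ε₁ • opL μ p f1 + opL μ p D2)) := bF0.add ((bL.smul ε₁).add bLD2)
  have bY : Bd α _ (Fm μ p f0 + opN μ p D1) := bFm.add bND1
  have hV := s3.eq_nu hμ h0 h1 hr w2 ((bX.smul (ε₂ - ε₁)).add (bY.smul (r₂ - r₁)))
  rw [nu_add hμ h0 h1 hr w2 (bX.smul _) (bY.smul _), nu_smul hμ h0 h1 hr w2 bX,
    nu_smul hμ h0 h1 hr w2 bY, nu_add hμ h0 h1 hr w2 bF0 ((bL.smul ε₁).add bLD2),
    nu_add hμ h0 h1 hr w2 (bL.smul ε₁) bLD2, nu_smul hμ h0 h1 hr w2 bL,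
    nu_add hμ h0 h1 hr w2 bFm bND1, nu_change hμ h0 h1 hr hs1 hC1 w2] at hV
  have n1 := hKL ε₂ r₂ a2
  have n2 := hKM ε₂ r₂ a2
  have n3 := nu_bound hμ h0 h1 hr w2 bN
  have n4 := nu_bound hμ h0 h1 hr w2 bLD2
  have n5 := nu_bound hμ h0 h1 hr w2 bND1
  set x1 := nu μ p (qw ε₂ r₂) (opL μ p f1) with hx1
  set x2 := nu μ p (qw ε₂ r₂) (Fm μ p f0) with hx2
  set x3 := nu μ p (qw ε₂ r₂) (opN μ p f1) with hx3
  set x4 := nu μ p (qw ε₂ r₂) (opL μ p D2) with hx4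
  set x5 := nu μ p (qw ε₂ r₂) (opN μ p D1) with hx5
  have eV : V2 - V1 - ((ε₂ - ε₁) * (v1 + (ε₁ + ε₂) * κL) + (r₂ - r₁) * κN) =
      (ε₂ - ε₁) * ((ε₁ + ε₂) * (x1 - κL) + r₂ * x3 + x4) +
        (r₂ - r₁) * ((x2 - κN) + x5) := by
    rw [hV]; ring
  rw [eV]
  have hd1 : 0 ≤ ε₂ - ε₁ := by linarith
  have hd2 : 0 ≤ r₂ - r₁ := by linarith
  have y1 : |(ε₁ + ε₂) * (x1 - κL) + r₂ * x3 + x4| ≤ E1 * ε₂ ^ 2 := by
    refine (abs_add_le _ _).trans ?_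
    have z1 : |(ε₁ + ε₂) * (x1 - κL) + r₂ * x3| ≤ (ε₁ + ε₂) * (KL * ε₂) +
        r₂ * ((1 - ρ)⁻¹ * (2 * (1 + α) * C1)) := by
      refine (abs_add_le _ _).trans ?_
      rw [abs_mul, abs_mul, abs_of_nonneg (by linarith : 0 ≤ ε₁ + ε₂), abs_of_nonneg a2.r0]
      exact add_le_add (mul_le_mul_of_nonneg_left n1 (by linarith))
        (mul_le_mul_of_nonneg_left n3 a2.r0)
    have z2 : (ε₁ + ε₂) * (KL * ε₂) ≤ (2 * ε₂) * (KL * ε₂) :=
      mul_le_mul_of_nonneg_right (by linarith) (by positivity)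
    have z3 : r₂ * ((1 - ρ)⁻¹ * (2 * (1 + α) * C1)) ≤
        2 * ε₂ ^ 2 * ((1 - ρ)⁻¹ * (2 * (1 + α) * C1)) :=
      mul_le_mul_of_nonneg_right a2.r1 (by positivity)
    have z4 : (1 - ρ)⁻¹ * (mm d * (2 * (1 + α)) * (A2 * ε₁ ^ 2)) ≤
        (1 - ρ)⁻¹ * (mm d * (2 * (1 + α)) * (A2 * ε₂ ^ 2)) := by
      gcongr
    have z5 : E1 * ε₂ ^ 2 = (2 * ε₂) * (KL * ε₂) +
        2 * ε₂ ^ 2 * ((1 - ρ)⁻¹ * (2 * (1 + α) * C1)) +
        (1 - ρ)⁻¹ * (mm d * (2 * (1 + α)) * (A2 * ε₂ ^ 2)) := by rw [hE1]; ring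
    linarith
  have y2 : |(x2 - κN) + x5| ≤ E2 * ε₂ := by
    refine (abs_add_le _ _).trans ?_
    have z4 : (1 - ρ)⁻¹ * (2 * (1 + α) * (A1 * ε₁)) ≤
        (1 - ρ)⁻¹ * (2 * (1 + α) * (A1 * ε₂)) := by gcongr
    have z5 : E2 * ε₂ = KM * ε₂ + (1 - ρ)⁻¹ * (2 * (1 + α) * (A1 * ε₂)) := by rw [hE2]; ring
    linarith
  refine (abs_add_le _ _).trans ?_
  rw [abs_mul, abs_mul, abs_of_nonneg hd1, abs_of_nonneg hd2]
  have u1 := mul_le_mul_of_nonneg_left y1 hd1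
  have u2 := mul_le_mul_of_nonneg_left y2 hd2
  have u3 : 0 ≤ (ε₂ - ε₁) * ε₂ ^ 2 := by positivity
  have u4 : 0 ≤ (r₂ - r₁) * ε₂ := by positivity
  have u5 := mul_nonneg hE20 u3
  have u6 := mul_nonneg hE10 u4
  have u7 : (E1 + E2) * ((ε₂ - ε₁) * ε₂ ^ 2 + (r₂ - r₁) * ε₂) =
    (ε₂ - ε₁) * (E1 * ε₂ ^ 2) + (r₂ - r₁) * (E2 * ε₂) + E2 * ((ε₂ - ε₁) * ε₂ ^ 2) +
      E1 * ((r₂ - r₁) * ε₂) := by ring
  rw [u7]
  linarith

end

end Pool.Agent.Helper96.DP
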