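import Pool.Agent.Helper96.DP.Multi
import Pool.Agent.Helper96.DP.Perturb

/-!
# The walk and the expectations of the states seen from the walk
-/

set_option linter.unusedSectionVars false
set_option linter.unusedSimpArgs false
set_option linter.unusedVariables false

namespace Pool.Agent.Helper96.DP

open MeasureTheory ProbabilityTheory Filter Topology Set

variable {d : ℕ}

/-- The walk as a function of the picked directions and the states at the ring times. -/
def wpos (D : ℕ → Dir d) (a : Edge d → ℕ → Bool) : ℕ → Site d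
  | 0 => 0
  | n + 1 => if a (edgeAt (wpos D a n) (D n)) (n + 1) = true
      then wpos D a n + vec (D n) else wpos D a n

lemma pos_eq (ω : Rand d) (n : ℕ) :
    pos ω n = wpos ω.2.2 (sta (ringTime ω.2.1) ω.1) n := by
  induction n with
  | zero => rfl
  | succ n ih => simp only [pos, wpos, ih, sta]; rfl

lemma wpos_dep (D D' : ℕ → Dir d) (a b : Edge d → ℕ → Bool) (n : ℕ) (hD : ∀ j < n, D j = D' j)
    (h : ∀ e, ∀ j ≤ n, a e j = b e j) : wpos D a n = wpos D' b n := by
  induction n with
  | zero => rfl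
  | succ n ih =>
    have h1 := ih (fun j hj => hD j (hj.trans (Nat.lt_succ_self n)))
      fun e j hj => h e j (hj.trans (Nat.le_succ n))
    simp only [wpos, h1, h _ _ le_rfl, hD n (Nat.lt_succ_self n)]

lemma wpos_mem (n : ℕ) : ∃ S : Finset (Site d), ∀ D a, wpos D a n ∈ S := by
  induction n with
  | zero => exact ⟨{0}, fun D a => by simp [wpos]⟩
  | succ n ih =>
    obtain ⟨S, hS⟩ := ih
    refine ⟨S ∪ (S ×ˢ (Finset.univ : Finset (Dir d))).image fun x => x.1 + vec x.2, fun D a => ?_⟩
    rw [Finset.mem_union, Finset.mem_image]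
    unfold wpos
    split_ifs
    · exact Or.inr ⟨(wpos D a n, D n), by simp [hS], rfl⟩
    · exact Or.inl (hS _ _)

lemma shE_inj (z : Site d) : Function.Injective (shE z : Edge d → Edge d) := by
  rintro ⟨x, i⟩ ⟨y, j⟩ h
  simp only [shE, Prod.mk.injEq, add_left_inj] at h
  exact Prod.ext h.1 h.2

lemma edgeAt_shE (x : Site d) (b : Dir d) : edgeAt x b = shE x (edgeAt 0 b) := by
  unfold edgeAt shE
  split_ifs with h
  · simp
  · simp [add_comm]

lemma shE_shE (x y : Site d) (e : Edge d) : shE (x + y) e = shE x (shE y e) := by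
  unfold shE
  simp only
  rw [add_comm x y, add_assoc]

/-- `1_{u open}` times the product over `B`, expressed through products. -/
def Xc (p : ℝ) (u : Edge d) (B : Finset (Edge d)) (χ : Finset (Edge d) → ℝ) : ℝ :=
  if u ∈ B then (1 - p) * χ B + p * (1 - p) * χ (B.erase u) else p * χ B + χ (insert u B)

/-- The effect of an attempt in direction `b` on the products. -/
def attc (p : ℝ) (b : Dir d) (A : Finset (Edge d)) (χ : Finset (Edge d) → ℝ) : ℝ :=
  Xc p (edgeAt 0 b) (A.image (shE (vec b))) χ + χ A - Xc p (edgeAt 0 b) A χ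

lemma Xc_prod (p : ℝ) (u : Edge d) (B : Finset (Edge d)) (f : Edge d → ℝ) :
    Xc p u B (fun B => ∏ e ∈ B, f e) =
      (p + f u) * ∏ e ∈ B, (if e = u then 1 - p else f e) := by
  unfold Xc
  split_ifs with h <;> beta_reduce
  · rw [← Finset.mul_prod_erase B f h, ← Finset.mul_prod_erase B _ h, if_pos rfl]
    have h1 : ∏ e ∈ B.erase u, (if e = u then 1 - p else f e) = ∏ e ∈ B.erase u, f e :=
      Finset.prod_congr rfl fun e he => by rw [if_neg (Finset.ne_of_mem_erase he)]
    rw [h1]; ring
  · rw [Finset.prod_insert h]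
    have h1 : ∏ e ∈ B, (if e = u then 1 - p else f e) = ∏ e ∈ B, f e :=
      Finset.prod_congr rfl fun e he => by rw [if_neg (fun h' : e = u => h (h' ▸ he))]
    rw [h1]; ring

lemma Xc_prod' (p : ℝ) (u : Edge d) (B : Finset (Edge d)) (f : Edge d → ℝ) :
    (∏ e ∈ B, f e) - Xc p u B (fun B => ∏ e ∈ B, f e) =
      (1 - p - f u) * ∏ e ∈ B, (if e = u then -p else f e) := by
  unfold Xc
  split_ifs with h <;> beta_reduce
  · rw [← Finset.mul_prod_erase B f h, ← Finset.mul_prod_erase B _ h, if_pos rfl]
    have h1 : ∏ e ∈ B.erase u, (if e = u then -p else f e) = ∏ e ∈ B.erase u, f e :=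
      Finset.prod_congr rfl fun e he => by rw [if_neg (Finset.ne_of_mem_erase he)]
    rw [h1]; ring
  · rw [Finset.prod_insert h]
    have h1 : ∏ e ∈ B, (if e = u then -p else f e) = ∏ e ∈ B, f e :=
      Finset.prod_congr rfl fun e he => by rw [if_neg (fun h' : e = u => h (h' ▸ he))]
    rw [h1]; ring

lemma attc_prod (p : ℝ) (b : Dir d) (A : Finset (Edge d)) (f : Edge d → ℝ) :
    attc p b A (fun B => ∏ e ∈ B, f e) =
      (p + f (edgeAt 0 b)) *
        ∏ e ∈ A, (if shE (vec b) e = edgeAt 0 b then 1 - p else f (shE (vec b) e)) +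
      (1 - p - f (edgeAt 0 b)) * ∏ e ∈ A, (if e = edgeAt 0 b then -p else f e) := by
  unfold attc
  rw [add_sub_assoc, Xc_prod', Xc_prod, Finset.prod_image (fun _ _ _ _ h => shE_inj _ h)]

/-- memory side -/
lemma step_Phi_att {μ p : ℝ} (hμ : 0 < μ) (b : Dir d) (A : Finset (Edge d)) (M : Mem d) :
    step μ p b (Phi p A) M = w μ A.card 0 * attc p b A (fun B => Phi p B M) := by
  rw [step_Phi hμ]
  unfold Phi
  rw [attc_prod]

/-- environment side -/
lemma attc_ctr (p : ℝ) (b : Dir d) (A : Finset (Edge d)) (y : Edge d → Bool) :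
    attc p b A (fun B => ∏ e ∈ B, ctr p (y e)) =
      if y (edgeAt 0 b) = true then ∏ e ∈ A, ctr p (y (shE (vec b) e))
      else ∏ e ∈ A, ctr p (y e) := by
  rw [attc_prod p b A (fun e => ctr p (y e))]
  split_ifs with h
  · have h1 : ctr p (y (edgeAt 0 b)) = 1 - p := by simp [ctr, h]
    rw [h1]
    have h2 : ∏ e ∈ A, (if shE (vec b) e = edgeAt 0 b then 1 - p else
        ctr p (y (shE (vec b) e))) = ∏ e ∈ A, ctr p (y (shE (vec b) e)) := by
      refine Finset.prod_congr rfl fun e _ => ?_
      split_ifs with h3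
      · rw [h3, h1]
      · rfl
    rw [h2]; ring
  · have h1 : ctr p (y (edgeAt 0 b)) = -p := by simp [ctr, h]
    rw [h1]
    have h2 : ∏ e ∈ A, (if e = edgeAt 0 b then -p else ctr p (y e)) =
        ∏ e ∈ A, ctr p (y e) := by
      refine Finset.prod_congr rfl fun e _ => ?_
      split_ifs with h3
      · rw [h3, h1]
      · rfl
    rw [h2]; ring

/-- The product of the centred states of the edges of `A`, relative to the walk. -/
noncomputable def chi (p : ℝ) (D : ℕ → Dir d) (a : Edge d → ℕ → Bool) (k m : ℕ)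
    (A : Finset (Edge d)) : ℝ :=
  ∏ e ∈ A, ctr p (a (shE (wpos D a k) e) m)

lemma chi_succ (p : ℝ) (D : ℕ → Dir d) (a : Edge d → ℕ → Bool) (k : ℕ) (A : Finset (Edge d)) :
    chi p D a (k + 1) (k + 1) A = attc p (D k) A (chi p D a k (k + 1)) := by
  have h := attc_ctr p (D k) A (fun e => a (shE (wpos D a k) e) (k + 1))
  change _ = attc p (D k) A (fun B => ∏ e ∈ B, ctr p (a (shE (wpos D a k) e) (k + 1)))
  rw [h]
  unfold chi
  simp only [wpos]
  rw [edgeAt_shE (wpos D a k) (D k)]
  split_ifs with h1
  · simp only [shE_shE]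
  · rfl

lemma abs_chi_le {p : ℝ} (h0 : 0 ≤ p) (h1 : p ≤ 1) (D : ℕ → Dir d) (a : Edge d → ℕ → Bool)
    (k m : ℕ) (A : Finset (Edge d)) : |chi p D a k m A| ≤ 1 := by
  unfold chi
  rw [Finset.abs_prod]
  exact Finset.prod_le_one (fun _ _ => abs_nonneg _) fun _ _ => abs_ctr_le h0 h1 _

/-! ### Measurability -/

lemma measurable_stateAt2 : Measurable fun z : EdgeRand × ℝ => stateAt z.1 z.2 := by
  have h1 : Measurable fun z : (ℕ → Bool) × ℕ => z.1 z.2 :=
    measurable_from_prod_countable_left fun n => measurable_pi_apply n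
  exact h1.comp ((measurable_snd.comp measurable_fst).prodMk
    (measurable_rings2.comp ((measurable_fst.comp measurable_fst).prodMk measurable_snd)))

lemma measurable_stateAt3 :
    Measurable fun z : ((Edge d → EdgeRand) × ℝ) × Edge d => stateAt (z.1.1 z.2) z.1.2 :=
  measurable_from_prod_countable_left fun e => by
    have h2 : Measurable fun x : (Edge d → EdgeRand) × ℝ => (x.1 e, x.2) :=
      ((measurable_pi_apply e).comp measurable_fst).prodMk measurable_snd
    exact measurable_stateAt2.comp h2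

lemma measurable_ringTime (n : ℕ) : Measurable fun s : ℕ → ℝ => ringTime s n :=
  Finset.measurable_fun_sum _ fun i _ => measurable_pi_apply i

lemma measurable_pos (n : ℕ) : Measurable fun ω : Rand d => pos ω n := by
  induction n with
  | zero => exact measurable_const
  | succ n ih =>
    have h1 : Measurable fun ω : Rand d => edgeAt (pos ω n) (ω.2.2 n) :=
      (measurable_of_countable fun z : Site d × Dir d => edgeAt z.1 z.2).comp
        (ih.prodMk ((measurable_pi_apply n).comp (measurable_snd.comp measurable_snd)))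
    have h2 : Measurable fun ω : Rand d =>
        stateAt (ω.1 (edgeAt (pos ω n) (ω.2.2 n))) (ringTime ω.2.1 (n + 1)) :=
      measurable_stateAt3.comp ((measurable_fst.prodMk ((measurable_ringTime (n + 1)).comp
        (measurable_fst.comp measurable_snd))).prodMk h1)
    have h3 : Measurable fun ω : Rand d => (pos ω n, ω.2.2 n,
        stateAt (ω.1 (edgeAt (pos ω n) (ω.2.2 n))) (ringTime ω.2.1 (n + 1))) :=
      ih.prodMk (((measurable_pi_apply n).comp (measurable_snd.comp measurable_snd)).prodMk h2)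
    exact (measurable_of_countable fun z : Site d × Dir d × Bool =>
      if z.2.2 = true then z.1 + vec z.2.1 else z.1).comp h3

/-- `chi` as a function of all the randomness. -/
noncomputable def chiω (p : ℝ) (ω : Rand d) (k m : ℕ) (A : Finset (Edge d)) : ℝ :=
  chi p ω.2.2 (sta (ringTime ω.2.1) ω.1) k m A

lemma measurable_chiω (p : ℝ) (k m : ℕ) (A : Finset (Edge d)) :
    Measurable fun ω : Rand d => chiω p ω k m A := by
  unfold chiω chi
  refine Finset.measurable_fun_prod _ fun e _ => ?_
  refine (measurable_of_countable (ctr p)).comp ?_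
  have h1 : Measurable fun ω : Rand d => shE (wpos ω.2.2 (sta (ringTime ω.2.1) ω.1) k) e := by
    have := (measurable_of_countable fun z : Site d => shE z e).comp (measurable_pos (d := d) k)
    simpa [pos_eq, Function.comp_def] using this
  exact measurable_stateAt3.comp ((measurable_fst.prodMk ((measurable_ringTime m).comp
    (measurable_fst.comp measurable_snd))).prodMk h1)

lemma measurable_wpos (T : ℕ → ℝ) (D : ℕ → Dir d) (n : ℕ) :
    Measurable fun E : Edge d → EdgeRand => wpos D (sta T E) n := by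
  induction n with
  | zero => exact measurable_const
  | succ n ih =>
    have h1 : Measurable fun E : Edge d → EdgeRand => edgeAt (wpos D (sta T E) n) (D n) :=
      (measurable_of_countable fun z : Site d => edgeAt z (D n)).comp ih
    have h2 : Measurable fun E : Edge d → EdgeRand =>
        sta T E (edgeAt (wpos D (sta T E) n) (D n)) (n + 1) :=
      measurable_stateAt3.comp ((measurable_id.prodMk measurable_const).prodMk h1)
    exact (measurable_of_countable fun z : Site d × Bool =>
      if z.2 = true then z.1 + vec (D n) else z.1).comp (ih.prodMk h2)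

lemma measurable_chi (p : ℝ) (T : ℕ → ℝ) (D : ℕ → Dir d) (k m : ℕ) (A : Finset (Edge d)) :
    Measurable fun E : Edge d → EdgeRand => chi p D (sta T E) k m A := by
  unfold chi
  refine Finset.measurable_fun_prod _ fun e _ => ?_
  refine (measurable_of_countable (ctr p)).comp ?_
  exact measurable_stateAt3.comp ((measurable_id.prodMk measurable_const).prodMk
    ((measurable_of_countable fun z : Site d => shE z e).comp (measurable_wpos T D k)))

/-! ### Expectation over the environment -/

section
variable {p : unitInterval} {μ : ℝ}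

/-- expectation over the environment -/
noncomputable def Ech (μ : ℝ) (p : unitInterval) (T : ℕ → ℝ) (D : ℕ → Dir d) (k m : ℕ)
    (A : Finset (Edge d)) : ℝ := ∫ E, chi p D (sta T E) k m A ∂(envLaw d μ p)

lemma integrable_chi (hμ : 0 < μ) (T : ℕ → ℝ) (D : ℕ → Dir d) (k m : ℕ) (A : Finset (Edge d)) :
    Integrable (fun E : Edge d → EdgeRand => chi (p : ℝ) D (sta T E) k m A) (envLaw d μ p) := by
  have hpE := prob_envLaw (d := d) hμ p
  exact Integrable.of_bound (measurable_chi _ T D k m A).aestronglyMeasurable 1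
    (ae_of_all _ fun E => abs_chi_le p.2.1 p.2.2 _ _ _ _ _)

lemma abs_Ech_le (hμ : 0 < μ) (T : ℕ → ℝ) (D : ℕ → Dir d) (k m : ℕ) (A : Finset (Edge d)) :
    |Ech μ p T D k m A| ≤ 1 := by
  have hpE := prob_envLaw (d := d) hμ p
  have := norm_integral_le_of_norm_le_const (μ := envLaw d μ p)
    (f := fun E : Edge d → EdgeRand => chi (p : ℝ) D (sta T E) k m A) (C := 1)
    (ae_of_all _ fun E => abs_chi_le p.2.1 p.2.2 _ _ _ _ _)
  simpa [Ech] using this

lemma Ech_decay (hμ : 0 < μ) {T : ℕ → ℝ} (hT0 : ∀ j, 0 ≤ T j) (hTm : Monotone T)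
    (D : ℕ → Dir d) (k : ℕ) (A : Finset (Edge d)) :
    Ech μ p T D k (k + 1) A =
      Real.exp (-(μ * (T (k + 1) - T k))) ^ A.card * Ech μ p T D k k A := by
  obtain ⟨S, hS⟩ := wpos_mem (d := d) k
  have hdec : ∀ m, ∀ E : Edge d → EdgeRand, chi (p : ℝ) D (sta T E) k m A =
      ∑ x ∈ S, (if wpos D (sta T E) k = x then 1 else 0) *
        ∏ e ∈ A.image (shE x), ctr (p : ℝ) (sta T E e m) := by
    intro m E
    rw [Finset.sum_eq_single (wpos D (sta T E) k)]
    · rw [if_pos rfl, one_mul, Finset.prod_image (fun _ _ _ _ h => shE_inj _ h)]; rfl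
    · intro x _ hx; rw [if_neg (Ne.symm hx), zero_mul]
    · intro h; exact absurd (hS _ _) h
  have hpE := prob_envLaw (d := d) hμ p
  have hm : ∀ x : Site d, Measurable fun E : Edge d → EdgeRand =>
      (if wpos D (sta T E) k = x then (1:ℝ) else 0) := fun x =>
    (measurable_of_countable fun y : Site d => if y = x then (1:ℝ) else 0).comp
      (measurable_wpos T D k)
  have hi : ∀ m, ∀ x ∈ S, Integrable (fun E : Edge d → EdgeRand =>
      (if wpos D (sta T E) k = x then (1:ℝ) else 0) *
        ∏ e ∈ A.image (shE x), ctr (p : ℝ) (sta T E e m)) (envLaw d μ p) := by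
    intro m x _
    refine Integrable.of_bound ((hm x).mul (Finset.measurable_fun_prod _ fun e _ =>
      measurable_ctr_sta e m)).aestronglyMeasurable 1 (ae_of_all _ fun E => ?_)
    rw [Real.norm_eq_abs, abs_mul, Finset.abs_prod]
    refine mul_le_one₀ (by split_ifs <;> simp) (Finset.prod_nonneg fun _ _ => abs_nonneg _)
      (Finset.prod_le_one (fun _ _ => abs_nonneg _) fun _ _ => abs_ctr_le p.2.1 p.2.2 _)
  unfold Ech
  simp only [hdec]
  rw [integral_finsetSum _ (hi (k + 1)), integral_finsetSum _ (hi k), Finset.mul_sum]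
  refine Finset.sum_congr rfl fun x _ => ?_
  have h1 := multi (p := p) (k := k) (C := 1) hμ hT0 hTm (A.image (shE x))
    (ζ := fun a => if wpos D a k = x then (1:ℝ) else 0) (fun a b hab => by
      simp only [wpos_dep D D a b k (fun _ _ => rfl) hab]) (fun a => by split_ifs <;> simp) (hm x)
  rw [Finset.card_image_of_injective _ (shE_inj x)] at h1
  exact h1

lemma integral_add_sub {X : Type*} [MeasurableSpace X] {ν : Measure X} {f g h : X → ℝ}
    (hf : Integrable f ν) (hg : Integrable g ν) (hh : Integrable h ν) :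
    ∫ x, (f x + g x - h x) ∂ν = ∫ x, f x ∂ν + ∫ x, g x ∂ν - ∫ x, h x ∂ν := by
  change ∫ x, ((f + g) - h) x ∂ν = _
  rw [integral_sub' (hf.add hg) hh, integral_add' hf hg]

lemma Ech_attc (hμ : 0 < μ) (T : ℕ → ℝ) (D : ℕ → Dir d) (k : ℕ) (A : Finset (Edge d)) :
    Ech μ p T D (k + 1) (k + 1) A = attc p (D k) A (Ech μ p T D k (k + 1)) := by
  have hi := fun B => integrable_chi (p := p) hμ T D k (k + 1) B
  have hX : ∀ (u : Edge d) (B : Finset (Edge d)),
      Integrable (fun E : Edge d → EdgeRand => Xc (p : ℝ) u B (chi p D (sta T E) k (k + 1)))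
        (envLaw d μ p) ∧
      ∫ E, Xc (p : ℝ) u B (chi p D (sta T E) k (k + 1)) ∂(envLaw d μ p) =
        Xc (p : ℝ) u B (Ech μ p T D k (k + 1)) := by
    intro u B
    unfold Xc
    by_cases h : u ∈ B
    · simp only [if_pos h]
      refine ⟨((hi _).const_mul _).add ((hi _).const_mul _), ?_⟩
      rw [integral_add ((hi _).const_mul _) ((hi _).const_mul _), integral_const_mul,
        integral_const_mul]
      rfl
    · simp only [if_neg h]
      refine ⟨((hi _).const_mul _).add (hi _), ?_⟩
      rw [integral_add ((hi _).const_mul _) (hi _), integral_const_mul]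
      rfl
  unfold Ech
  simp only [chi_succ]
  unfold attc
  rw [integral_add_sub (hX _ _).1 (hi A) (hX _ _).1, (hX _ _).2, (hX _ _).2]
  rfl

lemma Ech_zero (hμ : 0 < μ) {T : ℕ → ℝ} (hT : T 0 = 0) (D : ℕ → Dir d) (A : Finset (Edge d)) :
    Ech μ p T D 0 0 A = if A = ∅ then 1 else 0 := by
  have hpE := prob_envLaw (d := d) hμ p
  unfold Ech chi
  simp only [wpos]
  have h1 : ∀ e : Edge d, shE (0 : Site d) e = e := fun e => by simp [shE]
  simp only [h1, sta, hT]
  split_ifs with h
  · subst h; simp
  · exact multi_zero hμ (Finset.nonempty_iff_ne_empty.2 h)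

lemma Ech_dep (T T' : ℕ → ℝ) (D D' : ℕ → Dir d) (k m : ℕ) (A : Finset (Edge d)) (hkm : k ≤ m)
    (hT : ∀ j ≤ m, T j = T' j) (hD : ∀ j < k, D j = D' j) :
    Ech μ p T D k m A = Ech μ p T' D' k m A := by
  unfold Ech
  refine integral_congr_ae (ae_of_all _ fun E => ?_)
  unfold chi
  have h1 : wpos D (sta T E) k = wpos D' (sta T' E) k :=
    wpos_dep D D' _ _ k hD fun e j hj => by simp only [sta, hT j (hj.trans hkm)]
  simp only [h1, sta, hT m le_rfl]

end

end Pool.Agent.Helper96.DP
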