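import Pool.Agent.Helper96.DP.Chain

/-!
# The Poisson equation of the memory chain
-/

namespace Pool.Agent.Helper96.DP

open Finset Filter Topology

variable {d : ℕ}

/-- The weight function. -/
noncomputable def W (α : ℝ) (M : Mem d) : ℝ := 1 + α * M.card

lemma one_le_W {α : ℝ} (hα : 0 ≤ α) (M : Mem d) : 1 ≤ W α M := by
  unfold W; have : 0 ≤ α * (M.card : ℝ) := by positivity
  linarith

lemma W_pos {α : ℝ} (hα : 0 ≤ α) (M : Mem d) : 0 < W α M := lt_of_lt_of_le one_pos (one_le_W hα M)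

/-- The transition operator for the direction weights `q`. -/
noncomputable def P (μ p : ℝ) (q : Dir d → ℝ) : (Mem d → ℝ) →ₗ[ℝ] (Mem d → ℝ) :=
  ∑ a, q a • step μ p a

lemma P_apply (μ p : ℝ) (q : Dir d → ℝ) (g : Mem d → ℝ) (M : Mem d) :
    P μ p q g M = ∑ a, q a * step μ p a g M := by
  simp [P, LinearMap.sum_apply, Finset.sum_apply]

/-- Set the value at the empty memory to zero. -/
def kill : (Mem d → ℝ) →ₗ[ℝ] (Mem d → ℝ) where
  toFun g M := if M = ∅ then 0 else g M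
  map_add' g g' := by funext M; by_cases h : M = ∅ <;> simp [h]
  map_smul' c g := by funext M; by_cases h : M = ∅ <;> simp [h]

lemma kill_apply (g : Mem d → ℝ) (M : Mem d) : kill g M = if M = ∅ then 0 else g M := rfl

/-- The transition operator killed at the empty memory. -/
noncomputable def K (μ p : ℝ) (q : Dir d → ℝ) : (Mem d → ℝ) →ₗ[ℝ] (Mem d → ℝ) :=
  (P μ p q).comp kill

lemma K_apply (μ p : ℝ) (q : Dir d → ℝ) (g : Mem d → ℝ) : K μ p q g = P μ p q (kill g) := rfl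

lemma thin_W {μ : ℝ} (hμ : 0 < μ) (α : ℝ) (M : Mem d) :
    thin μ (W α) M = 1 + α * (M.card / (1 + μ)) := by
  have h1 : (W α : Mem d → ℝ) = (fun _ => (1:ℝ)) + α • fun M : Mem d => (M.card : ℝ) := by
    funext M; simp [W]
  rw [h1, map_add, map_smul]
  simp only [Pi.add_apply, Pi.smul_apply, smul_eq_mul]
  rw [thin_const hμ]
  congr 2
  have h2 : thin μ (fun M : Mem d => (M.card : ℝ)) M = ∑ x ∈ M, thin μ (ind {x}) M := by
    simp only [thin_apply]
    rw [sum_comm]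
    refine sum_congr rfl fun M' hM' => ?_
    rw [← mul_sum]
    congr 1
    have : (M'.card : ℝ) = ∑ x ∈ M, if x ∈ M' then (1:ℝ) else 0 := by
      rw [← sum_filter, sum_const, nsmul_eq_mul, mul_one]
      congr 2
      ext x; simp only [mem_filter]
      exact ⟨fun h => ⟨mem_powerset.1 hM' h, h⟩, fun h => h.2⟩
    rw [this]
    refine sum_congr rfl fun x _ => ?_
    simp [ind]
  rw [h2]
  have h3 : ∀ x ∈ M, thin μ (ind {x}) M = 1 / (1 + μ) := by
    intro x hx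
    rw [thin_ind hμ]
    simp [ind, hx, w_zero]
  rw [sum_congr rfl h3, sum_const, nsmul_eq_mul]
  ring

lemma thin_kill {μ : ℝ} (g : Mem d → ℝ) (M : Mem d) :
    thin μ (kill g) M = thin μ g M - w μ 0 M.card * g ∅ := by
  rw [thin_apply, thin_apply]
  have h : ∑ M' ∈ M.powerset, w μ M'.card (M.card - M'.card) * (if M' = ∅ then g ∅ else 0) =
      w μ 0 M.card * g ∅ := by
    rw [sum_eq_single ∅]
    · simp
    · intro M' _ h; simp [h]
    · intro h; exact absurd (empty_mem_powerset M) h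
  rw [← h, ← sum_sub_distrib]
  refine sum_congr rfl fun M' _ => ?_
  rw [kill_apply]
  by_cases h : M' = ∅ <;> simp [h]

/-- A contraction rate for the killed chain. -/
structure Rate (μ α ρ : ℝ) : Prop where
  α_pos : 0 < α
  ρ_pos : 0 < ρ
  ρ_lt : ρ < 1
  le : ∀ n : ℕ, 1 - w μ 0 (n + 1) + α * ((n + 1 : ℕ) / (1 + μ)) ≤ ρ * (1 + α * n)

lemma exists_rate {μ : ℝ} (hμ : 0 < μ) : ∃ α ρ, Rate μ α ρ := by
  set γ := 1 / (1 + μ) with hγ
  have hγ0 : 0 < γ := by positivity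
  have hγ1 : γ < 1 := by rw [hγ, div_lt_one (by linarith)]; linarith
  obtain ⟨N, hN⟩ := exists_nat_gt (2 * γ / (1 - γ))
  have hN' : 2 * γ < N * (1 - γ) := by
    rwa [div_lt_iff₀ (by linarith)] at hN
  have hN0 : 0 < (N : ℝ) := by
    rcases Nat.eq_zero_or_pos N with h | h
    · rw [h] at hN'; simp at hN'; linarith
    · exact_mod_cast h
  have hN1 : 1 ≤ N := by exact_mod_cast hN0
  have hw := w_pos hμ 0 N
  have hw1 : w μ 0 N ≤ 1 := by
    have := w_anti' hμ 0 (Nat.zero_le N)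
    rw [w_zero] at this; simpa using this
  set α := w μ 0 N / (2 * N) with hα
  have hα0 : 0 < α := by positivity
  set ρ := max (1 - w μ 0 N / 2) (max (1 - α * (1 - γ) / 4) ((3 + γ) / 4)) with hρ
  have hρ1 : 1 - w μ 0 N / 2 ≤ ρ := le_max_left _ _
  have hρ2 : 1 - α * (1 - γ) / 4 ≤ ρ := (le_max_left _ _).trans (le_max_right _ _)
  have hρ3 : (3 + γ) / 4 ≤ ρ := (le_max_right _ _).trans (le_max_right _ _)
  have hρ0 : 0 < ρ := by linarith
  have hρlt : ρ < 1 := by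
    refine max_lt (by linarith) (max_lt ?_ (by linarith))
    have : 0 < α * (1 - γ) / 4 := by
      have : 0 < 1 - γ := by linarith
      positivity
    linarith
  refine ⟨α, ρ, hα0, hρ0, hρlt, fun n => ?_⟩
  have e1 : ((n + 1 : ℕ) : ℝ) / (1 + μ) = γ * (n + 1) := by rw [hγ]; push_cast; ring
  rw [e1]
  have hwn := w_pos hμ 0 (n + 1)
  rcases lt_or_ge n N with h | h
  · -- small n
    have h1 : w μ 0 N ≤ w μ 0 (n + 1) := w_anti' hμ 0 h
    have h2 : ((n : ℝ) + 1) ≤ N := by exact_mod_cast h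
    have h3 : α * (γ * (n + 1)) ≤ w μ 0 N / 2 := by
      have : α * (γ * (n + 1)) ≤ α * (1 * N) := by
        apply mul_le_mul_of_nonneg_left _ hα0.le
        apply mul_le_mul hγ1.le h2 (by positivity) (by norm_num)
      refine this.trans (le_of_eq ?_)
      rw [hα]; field_simp
    have h4 : ρ ≤ ρ * (1 + α * n) := by
      have : 0 ≤ ρ * (α * n) := by positivity
      linarith
    linarith
  · -- large n
    have h1 : (N : ℝ) ≤ n := by exact_mod_cast h
    have h2 : 2 * γ < n * (1 - γ) := lt_of_lt_of_le hN' (mul_le_mul_of_nonneg_right h1 (by linarith))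
    have h3 : (1 : ℝ) ≤ n := by exact_mod_cast hN1.trans h
    have h4 : γ * (n + 1) ≤ (1 + γ) / 2 * n := by nlinarith
    have h5 : (3 + γ) / 4 * (α * n) ≤ ρ * (α * n) :=
      mul_le_mul_of_nonneg_right hρ3 (by positivity)
    have h6 : α * (γ * (n + 1)) ≤ α * ((1 + γ) / 2 * n) := mul_le_mul_of_nonneg_left h4 hα0.le
    have h7 : 1 - ρ ≤ α * (1 - γ) / 4 := by linarith
    have h8 : α * (1 - γ) / 4 ≤ α * (1 - γ) / 4 * n := by
      have : 0 ≤ α * (1 - γ) / 4 := by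
        have : 0 ≤ 1 - γ := by linarith
        positivity
      nlinarith
    nlinarith

section

variable {μ p α ρ : ℝ}

lemma thin_kill_W (hμ : 0 < μ) (M : Mem d) :
    thin μ (kill (W α)) M = 1 - w μ 0 M.card + α * (M.card / (1 + μ)) := by
  rw [thin_kill, thin_W hμ]; simp [W]; ring

lemma thin_kill_W_le (hμ : 0 < μ) (hr : Rate μ α ρ) (M : Mem d) {n : ℕ} (h : M.card ≤ n + 1) :
    thin μ (kill (W α)) M ≤ ρ * (1 + α * n) := by
  rw [thin_kill_W hμ]
  refine le_trans ?_ (hr.le n)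
  have h1 : w μ 0 (n + 1) ≤ w μ 0 M.card := w_anti' hμ 0 h
  have h2 : (M.card : ℝ) / (1 + μ) ≤ ((n + 1 : ℕ) : ℝ) / (1 + μ) := by
    apply div_le_div_of_nonneg_right _ (by linarith)
    exact_mod_cast h
  have h3 := mul_le_mul_of_nonneg_left h2 hr.α_pos.le
  linarith

lemma step_kill_W_le (hμ : 0 < μ) (h0 : 0 ≤ p) (h1 : p ≤ 1) (hr : Rate μ α ρ) (a : Dir d)
    (M : Mem d) : step μ p a (kill (W α)) M ≤ ρ * W α M := by
  rw [step_apply]
  have e1 := thin_kill_W_le hμ hr (sh (vec a) (upd (edgeAt 0 a) true M))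
    (by rw [card_sh]; exact card_upd_le _ _ M)
  have e2 := thin_kill_W_le hμ hr (upd (edgeAt 0 a) false M) (card_upd_le _ _ M)
  have b1 := belief_nonneg h0 h1 (edgeAt 0 a) M
  have b2 := belief_le_one h0 h1 (edgeAt 0 a) M
  have := mul_le_mul_of_nonneg_left e1 b1
  have := mul_le_mul_of_nonneg_left e2 b2
  have e3 : W α M = 1 + α * M.card := rfl
  rw [e3]
  nlinarith

lemma step_W_le (hμ : 0 < μ) (h0 : 0 ≤ p) (h1 : p ≤ 1) (hα : 0 ≤ α) (a : Dir d)
    (M : Mem d) : step μ p a (W α) M ≤ 1 + α * ((M.card + 1) / (1 + μ)) := by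
  rw [step_apply, thin_W hμ, thin_W hμ, card_sh]
  have key : ∀ s, 1 + α * (((upd (edgeAt 0 a) s M).card : ℝ) / (1 + μ)) ≤
      1 + α * ((M.card + 1) / (1 + μ)) := by
    intro s
    have := card_upd_le (edgeAt 0 a) s M
    have h2 : ((upd (edgeAt 0 a) s M).card : ℝ) / (1 + μ) ≤ (M.card + 1) / (1 + μ) := by
      apply div_le_div_of_nonneg_right _ (by linarith)
      exact_mod_cast this
    have := mul_le_mul_of_nonneg_left h2 hα
    linarith
  have b1 := belief_nonneg h0 h1 (edgeAt 0 a) M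
  have b2 := belief_le_one h0 h1 (edgeAt 0 a) M
  have := mul_le_mul_of_nonneg_left (key true) b1
  have := mul_le_mul_of_nonneg_left (key false) b2
  nlinarith

/-- `g` is bounded by `C` times the weight. -/
def Bd (α C : ℝ) (g : Mem d → ℝ) : Prop := ∀ M, |g M| ≤ C * W α M

lemma Bd.nonneg (hα : 0 ≤ α) {C : ℝ} {g : Mem d → ℝ} (h : Bd α C g) : 0 ≤ C := by
  have := (abs_nonneg _).trans (h ∅)
  have h2 := W_pos (d := d) hα ∅
  exact nonneg_of_mul_nonneg_left this h2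

lemma Bd.add {C C' : ℝ} {g g' : Mem d → ℝ} (h : Bd α C g) (h' : Bd α C' g') :
    Bd α (C + C') (g + g') := fun M => by
  refine (abs_add_le _ _).trans ?_
  rw [add_mul]; exact add_le_add (h M) (h' M)

lemma Bd.sub {C C' : ℝ} {g g' : Mem d → ℝ} (h : Bd α C g) (h' : Bd α C' g') :
    Bd α (C + C') (g - g') := fun M => by
  refine (abs_sub _ _).trans ?_
  rw [add_mul]; exact add_le_add (h M) (h' M)

lemma Bd.smul {C : ℝ} {g : Mem d → ℝ} (h : Bd α C g) (c : ℝ) : Bd α (|c| * C) (c • g) := fun M => by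
  rw [Pi.smul_apply, smul_eq_mul, abs_mul, mul_assoc]
  exact mul_le_mul_of_nonneg_left (h M) (abs_nonneg c)

lemma Bd.mono (hα : 0 ≤ α) {C C' : ℝ} {g : Mem d → ℝ} (h : Bd α C g) (hC : C ≤ C') : Bd α C' g :=
  fun M => (h M).trans (mul_le_mul_of_nonneg_right hC (W_pos hα M).le)

lemma Bd.sum {ι : Type*} (s : Finset ι) {C : ℝ} {g : ι → Mem d → ℝ} (h : ∀ i ∈ s, Bd α C (g i)) :
    Bd α (s.card * C) (∑ i ∈ s, g i) := fun M => by
  rw [Finset.sum_apply]
  refine (abs_sum_le_sum_abs _ _).trans ?_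
  refine (sum_le_sum fun i hi => h i hi M).trans ?_
  rw [sum_const, nsmul_eq_mul, mul_assoc]

lemma Bd_of_abs_le (hα : 0 ≤ α) {C : ℝ} (hC : 0 ≤ C) {g : Mem d → ℝ} (h : ∀ M, |g M| ≤ C) :
    Bd α C g := fun M => (h M).trans (by
      have := one_le_W hα M
      nlinarith)

lemma abs_step_le (hμ : 0 < μ) (h0 : 0 ≤ p) (h1 : p ≤ 1) (a : Dir d) {g g' : Mem d → ℝ}
    (h : ∀ M, |g M| ≤ g' M) (M : Mem d) : |step μ p a g M| ≤ step μ p a g' M := by
  rw [abs_le]
  constructor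
  · have := step_mono hμ h0 h1 a (g := -g') (g' := g) (fun M => (abs_le.1 (h M)).1) M
    rwa [map_neg, Pi.neg_apply] at this
  · exact step_mono hμ h0 h1 a (fun M => (abs_le.1 (h M)).2) M

lemma Bd.st (hμ : 0 < μ) (h0 : 0 ≤ p) (h1 : p ≤ 1) (hα : 0 ≤ α) (a : Dir d) {C : ℝ}
    {g : Mem d → ℝ} (h : Bd α C g) : Bd α ((1 + α) * C) (step μ p a g) := fun M => by
  have hC := h.nonneg hα
  have e1 := abs_step_le hμ h0 h1 a (g' := C • W α) (fun M => h M) M
  rw [map_smul, Pi.smul_apply, smul_eq_mul] at e1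
  refine e1.trans ?_
  rw [mul_comm (1 + α) C, mul_assoc]
  refine mul_le_mul_of_nonneg_left ((step_W_le hμ h0 h1 hα a M).trans ?_) hC
  unfold W
  have h2 : ((M.card : ℝ) + 1) / (1 + μ) ≤ M.card + 1 :=
    div_le_self (by positivity) (by linarith)
  have h3 := mul_le_mul_of_nonneg_left h2 hα
  have h4 : 0 ≤ α * (α * M.card) := by positivity
  nlinarith

lemma Bd.kl {C : ℝ} {g : Mem d → ℝ} (h : Bd α C g) (M : Mem d) :
    |kill g M| ≤ (C • kill (W α)) M := by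
  rw [Pi.smul_apply, smul_eq_mul, kill_apply, kill_apply]
  by_cases hM : M = ∅
  · simp [hM]
  · simpa [hM] using h M

/-- Direction weights. -/
structure Wts (q : Dir d → ℝ) : Prop where
  nonneg : ∀ a, 0 ≤ q a
  sum : ∑ a, q a = 1

lemma P_const (hμ : 0 < μ) {q : Dir d → ℝ} (hq : Wts q) (c : ℝ) (M : Mem d) :
    P μ p q (fun _ => c) M = c := by
  rw [P_apply]
  simp only [step_const hμ]
  rw [← sum_mul, hq.sum, one_mul]

lemma P_mono (hμ : 0 < μ) (h0 : 0 ≤ p) (h1 : p ≤ 1) {q : Dir d → ℝ} (hq : Wts q)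
    {g g' : Mem d → ℝ} (h : ∀ M, g M ≤ g' M) (M : Mem d) : P μ p q g M ≤ P μ p q g' M := by
  rw [P_apply, P_apply]
  exact sum_le_sum fun a _ => mul_le_mul_of_nonneg_left (step_mono hμ h0 h1 a h M) (hq.nonneg a)

lemma Bd.opK (hμ : 0 < μ) (h0 : 0 ≤ p) (h1 : p ≤ 1) (hr : Rate μ α ρ) {q : Dir d → ℝ} (hq : Wts q)
    {C : ℝ} {g : Mem d → ℝ} (h : Bd α C g) : Bd α (ρ * C) (K μ p q g) := fun M => by
  have hC := h.nonneg hr.α_pos.le
  rw [K_apply, P_apply]
  refine (abs_sum_le_sum_abs _ _).trans ?_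
  have key : ∀ a ∈ (univ : Finset (Dir d)), |q a * step μ p a (kill g) M| ≤
      q a * (ρ * C * W α M) := by
    intro a _
    rw [abs_mul, abs_of_nonneg (hq.nonneg a)]
    refine mul_le_mul_of_nonneg_left ?_ (hq.nonneg a)
    refine (abs_step_le hμ h0 h1 a (h.kl) M).trans ?_
    rw [map_smul, Pi.smul_apply, smul_eq_mul]
    have := mul_le_mul_of_nonneg_left (step_kill_W_le hμ h0 h1 hr a M) hC
    linarith
  refine (sum_le_sum key).trans ?_
  rw [← sum_mul, hq.sum, one_mul]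

lemma Bd.opP (hμ : 0 < μ) (h0 : 0 ≤ p) (h1 : p ≤ 1) (hα : 0 ≤ α) {q : Dir d → ℝ} (hq : Wts q)
    {C : ℝ} {g : Mem d → ℝ} (h : Bd α C g) : Bd α ((1 + α) * C) (P μ p q g) := fun M => by
  rw [P_apply]
  refine (abs_sum_le_sum_abs _ _).trans ?_
  have key : ∀ a ∈ (univ : Finset (Dir d)), |q a * step μ p a g M| ≤
      q a * ((1 + α) * C * W α M) := by
    intro a _
    rw [abs_mul, abs_of_nonneg (hq.nonneg a)]
    exact mul_le_mul_of_nonneg_left (h.st hμ h0 h1 hα a M) (hq.nonneg a)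
  refine (sum_le_sum key).trans ?_
  rw [← sum_mul, hq.sum, one_mul]

lemma tendsto_thin {ι : Type*} {l : Filter ι} {f : ι → Mem d → ℝ} {g : Mem d → ℝ}
    (h : ∀ M, Tendsto (fun i => f i M) l (𝓝 (g M))) (M : Mem d) :
    Tendsto (fun i => thin μ (f i) M) l (𝓝 (thin μ g M)) := by
  simp only [thin_apply]
  exact tendsto_finsetSum _ fun M' _ => (h M').const_mul _

lemma tendsto_step {ι : Type*} {l : Filter ι} {f : ι → Mem d → ℝ} {g : Mem d → ℝ} (a : Dir d)
    (h : ∀ M, Tendsto (fun i => f i M) l (𝓝 (g M))) (M : Mem d) :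
    Tendsto (fun i => step μ p a (f i) M) l (𝓝 (step μ p a g M)) := by
  simp only [step_apply]
  exact ((tendsto_thin h _).const_mul _).add ((tendsto_thin h _).const_mul _)

lemma tendsto_kill {ι : Type*} {l : Filter ι} {f : ι → Mem d → ℝ} {g : Mem d → ℝ}
    (h : ∀ M, Tendsto (fun i => f i M) l (𝓝 (g M))) (M : Mem d) :
    Tendsto (fun i => kill (f i) M) l (𝓝 (kill g M)) := by
  simp only [kill_apply]
  by_cases hM : M = ∅
  · simp only [hM, if_true]; exact tendsto_const_nhds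
  · simpa [hM] using h M

lemma tendsto_K {ι : Type*} {l : Filter ι} {f : ι → Mem d → ℝ} {g : Mem d → ℝ} (q : Dir d → ℝ)
    (h : ∀ M, Tendsto (fun i => f i M) l (𝓝 (g M))) (M : Mem d) :
    Tendsto (fun i => K μ p q (f i) M) l (𝓝 (K μ p q g M)) := by
  simp only [K_apply, P_apply]
  exact tendsto_finsetSum _ fun a _ => (tendsto_step a (tendsto_kill h) M).const_mul _

/-- The powers of the killed operator. -/
noncomputable def Kn (μ p : ℝ) (q : Dir d → ℝ) (n : ℕ) (g : Mem d → ℝ) : Mem d → ℝ :=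
  (fun f => K μ p q f)^[n] g

lemma Kn_succ (q : Dir d → ℝ) (n : ℕ) (g : Mem d → ℝ) :
    Kn μ p q (n + 1) g = K μ p q (Kn μ p q n g) := by
  unfold Kn; rw [Function.iterate_succ_apply']

lemma Bd.opKn (hμ : 0 < μ) (h0 : 0 ≤ p) (h1 : p ≤ 1) (hr : Rate μ α ρ) {q : Dir d → ℝ} (hq : Wts q)
    {C : ℝ} {g : Mem d → ℝ} (h : Bd α C g) (n : ℕ) : Bd α (ρ ^ n * C) (Kn μ p q n g) := by
  induction n with
  | zero => simpa [Kn] using h
  | succ n ih =>
    rw [Kn_succ, pow_succ', mul_assoc]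
    exact ih.opK hμ h0 h1 hr hq

/-- The potential of the killed chain. -/
noncomputable def U (μ p : ℝ) (q : Dir d → ℝ) (g : Mem d → ℝ) (M : Mem d) : ℝ :=
  ∑' n, Kn μ p q n g M

lemma hasSum_U (hμ : 0 < μ) (h0 : 0 ≤ p) (h1 : p ≤ 1) (hr : Rate μ α ρ) {q : Dir d → ℝ}
    (hq : Wts q) {C : ℝ} {g : Mem d → ℝ} (h : Bd α C g) (M : Mem d) :
    HasSum (fun n => Kn μ p q n g M) (U μ p q g M) := by
  refine Summable.hasSum ?_
  refine Summable.of_norm_bounded (g := fun n => ρ ^ n * C * W α M) ?_ fun n => ?_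
  · have := (summable_geometric_of_lt_one hr.ρ_pos.le hr.ρ_lt).mul_right (C * W α M)
    simpa [mul_assoc] using this
  · exact h.opKn hμ h0 h1 hr hq n M

lemma U_eq (hμ : 0 < μ) (h0 : 0 ≤ p) (h1 : p ≤ 1) (hr : Rate μ α ρ) {q : Dir d → ℝ}
    (hq : Wts q) {C : ℝ} {g : Mem d → ℝ} (h : Bd α C g) (M : Mem d) :
    U μ p q g M = g M + K μ p q (U μ p q g) M := by
  have hs : ∀ M, Tendsto (fun N => ∑ n ∈ range N, Kn μ p q n g M) atTop (𝓝 (U μ p q g M)) :=
    fun M => (hasSum_U hμ h0 h1 hr hq h M).tendsto_sum_nat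
  have h2 : Tendsto (fun N => g M + K μ p q (fun M => ∑ n ∈ range N, Kn μ p q n g M) M) atTop
      (𝓝 (g M + K μ p q (U μ p q g) M)) := (tendsto_K q hs M).const_add _
  have h3 : ∀ N, g M + K μ p q (fun M => ∑ n ∈ range N, Kn μ p q n g M) M =
      ∑ n ∈ range (N + 1), Kn μ p q n g M := by
    intro N
    rw [sum_range_succ']
    have e1 : (fun M => ∑ n ∈ range N, Kn μ p q n g M) = ∑ n ∈ range N, Kn μ p q n g := by
      funext M; rw [Finset.sum_apply]
    rw [e1, map_sum, Finset.sum_apply, add_comm]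
    congr 1
    exact sum_congr rfl fun n _ => by rw [Kn_succ]
  simp only [h3] at h2
  exact tendsto_nhds_unique ((tendsto_add_atTop_iff_nat 1).2 (hs M)) h2

lemma Bd.opU (hμ : 0 < μ) (h0 : 0 ≤ p) (h1 : p ≤ 1) (hr : Rate μ α ρ) {q : Dir d → ℝ}
    (hq : Wts q) {C : ℝ} {g : Mem d → ℝ} (h : Bd α C g) : Bd α ((1 - ρ)⁻¹ * C) (U μ p q g) := by
  intro M
  have hs := hasSum_U hμ h0 h1 hr hq h M
  have h2 : HasSum (fun n => ρ ^ n * C * W α M) ((1 - ρ)⁻¹ * C * W α M) := by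
    have := (hasSum_geometric_of_lt_one hr.ρ_pos.le hr.ρ_lt).mul_right (C * W α M)
    simpa [mul_assoc] using this
  have h3 := tsum_of_norm_bounded h2 (f := fun n => Kn μ p q n g M)
    (fun n => by rw [Real.norm_eq_abs]; exact h.opKn hμ h0 h1 hr hq n M)
  rwa [Real.norm_eq_abs] at h3

lemma one_le_U_one (hμ : 0 < μ) (h0 : 0 ≤ p) (h1 : p ≤ 1) (hr : Rate μ α ρ) {q : Dir d → ℝ}
    (hq : Wts q) (M : Mem d) : 1 ≤ U μ p q (fun _ => 1) M := by
  have hb : Bd α 1 (fun _ : Mem d => (1 : ℝ)) :=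
    Bd_of_abs_le hr.α_pos.le zero_le_one (by simp)
  have hpos : ∀ n M, 0 ≤ Kn μ p q n (fun _ : Mem d => (1:ℝ)) M := by
    intro n
    induction n with
    | zero => intro M; simp [Kn]
    | succ n ih =>
      intro M
      rw [Kn_succ, K_apply]
      have := P_mono hμ h0 h1 hq (g := fun _ => 0)
        (g' := kill (Kn μ p q n (fun _ : Mem d => (1:ℝ))))
        (fun M => by rw [kill_apply]; split_ifs; exacts [le_rfl, ih M]) M
      rwa [P_const hμ hq] at this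
  have hs := hasSum_U hμ h0 h1 hr hq hb M
  have := le_hasSum hs 0 (fun n _ => hpos n M)
  simpa [Kn] using this

/-- `(v, h)` solves the Poisson equation for the function `g`. -/
structure Sol (μ p α : ℝ) (q : Dir d → ℝ) (g : Mem d → ℝ) (v : ℝ) (h : Mem d → ℝ) : Prop where
  eq : ∀ M, h M = g M - v + P μ p q h M
  zero : h ∅ = 0
  bd : ∃ C, Bd α C h

/-- The stationary mean of `g`. -/
noncomputable def nu (μ p : ℝ) (q : Dir d → ℝ) (g : Mem d → ℝ) : ℝ :=
  U μ p q g ∅ / U μ p q (fun _ => 1) ∅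

lemma exists_sol (hμ : 0 < μ) (h0 : 0 ≤ p) (h1 : p ≤ 1) (hr : Rate μ α ρ) {q : Dir d → ℝ}
    (hq : Wts q) {C : ℝ} {g : Mem d → ℝ} (hg : Bd α C g) :
    ∃ h, Sol μ p α q g (nu μ p q g) h ∧ |nu μ p q g| ≤ (1 - ρ)⁻¹ * C ∧
      Bd α ((1 - ρ)⁻¹ * C + (1 - ρ)⁻¹ * C * (1 - ρ)⁻¹) h := by
  have hα := hr.α_pos.le
  have hb : Bd α 1 (fun _ : Mem d => (1 : ℝ)) := Bd_of_abs_le hα zero_le_one (by simp)
  have hU1 := one_le_U_one (d := d) hμ h0 h1 hr hq ∅
  have hU0 : U μ p q (fun _ => 1) ∅ ≠ 0 := by linarith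
  have hbU := hg.opU hμ h0 h1 hr hq
  have hbU1 := hb.opU hμ h0 h1 hr hq
  set v := nu μ p q g with hv
  have hv : v = U μ p q g ∅ / U μ p q (fun _ => 1) ∅ := rfl
  have hvb : |v| ≤ (1 - ρ)⁻¹ * C := by
    rw [hv, abs_div, abs_of_pos (by linarith : 0 < U μ p q (fun _ => 1) ∅)]
    refine (div_le_self (abs_nonneg _) hU1).trans ?_
    have := hbU ∅
    simpa [W] using this
  have hbh : Bd α ((1 - ρ)⁻¹ * C + (1 - ρ)⁻¹ * C * (1 - ρ)⁻¹)
      (U μ p q g - v • U μ p q (fun _ => 1)) := by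
    have h3 := hbU.sub (hbU1.smul v)
    refine h3.mono hα ?_
    have : 0 < (1 - ρ)⁻¹ := inv_pos.2 (by linarith [hr.ρ_lt])
    have h4 := mul_le_mul_of_nonneg_right hvb this.le
    simp only [mul_one]
    linarith
  have hz : (U μ p q g - v • U μ p q (fun _ => 1)) ∅ = 0 := by
    simp only [Pi.sub_apply, Pi.smul_apply, smul_eq_mul]
    rw [hv]; field_simp; ring
  refine ⟨U μ p q g - v • U μ p q (fun _ => 1), ⟨fun M => ?_, hz, _, hbh⟩, hvb, hbh⟩
  have hk : kill (U μ p q g - v • U μ p q (fun _ => 1)) =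
      (U μ p q g - v • U μ p q (fun _ => 1)) := by
    funext M'
    rw [kill_apply]
    split_ifs with h
    · rw [h, hz]
    · rfl
  have e3 : P μ p q (U μ p q g - v • U μ p q (fun _ => 1)) M =
      K μ p q (U μ p q g) M - v * K μ p q (U μ p q (fun _ => 1)) M := by
    conv_lhs => rw [← hk]
    rw [← K_apply, map_sub, map_smul]; rfl
  rw [e3]
  simp only [Pi.sub_apply, Pi.smul_apply, smul_eq_mul]
  rw [U_eq hμ h0 h1 hr hq hg M, U_eq hμ h0 h1 hr hq hb M]
  ring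

/-- `P q` at the points of `S` only uses the values at the points of `S`. -/
def Closed (μ p : ℝ) (q : Dir d → ℝ) (S : Set (Mem d)) : Prop :=
  ∀ f f' : Mem d → ℝ, (∀ M ∈ S, f M = f' M) → ∀ M ∈ S, P μ p q f M = P μ p q f' M

lemma unique_zero (hμ : 0 < μ) (h0 : 0 ≤ p) (h1 : p ≤ 1) (hr : Rate μ α ρ) {q : Dir d → ℝ}
    (hq : Wts q) {S : Set (Mem d)} (hS : Closed μ p q S) (hS0 : ∅ ∈ S) {c : ℝ} {h : Mem d → ℝ}
    (he : ∀ M ∈ S, h M = -c + P μ p q h M) (hz : h ∅ = 0) {C : ℝ} (hC0 : 0 ≤ C)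
    (hb : ∀ M ∈ S, |h M| ≤ C * W α M) : c = 0 ∧ ∀ M ∈ S, h M = 0 := by
  classical
  have hα := hr.α_pos.le
  have hone : Bd α 1 (fun _ : Mem d => (1 : ℝ)) := Bd_of_abs_le hα zero_le_one (by simp)
  set h' : Mem d → ℝ := fun M => if M ∈ S then h M else 0 with hh'
  have hb' : Bd α C h' := by
    intro M
    simp only [hh']
    split_ifs with hM
    · exact hb M hM
    · simpa using mul_nonneg hC0 (W_pos hα M).le
  have hKcl : ∀ f f' : Mem d → ℝ, (∀ M ∈ S, f M = f' M) → ∀ M ∈ S, K μ p q f M = K μ p q f' M := by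
    intro f f' hff M hM
    rw [K_apply, K_apply]
    refine hS _ _ (fun M' hM' => ?_) M hM
    rw [kill_apply, kill_apply, hff M' hM']
  have he' : ∀ M ∈ S, h' M = -c + K μ p q h' M := by
    intro M hM
    have e1 : h' M = h M := by simp [hh', hM]
    rw [e1, he M hM, K_apply]
    congr 1
    refine hS _ _ (fun M' hM' => ?_) M hM
    rw [kill_apply]
    split_ifs with h3
    · rw [h3, hz]
    · simp [hh', hM']
  have hind : ∀ N : ℕ, ∀ M ∈ S, h' M =
      -c * (∑ n ∈ range N, Kn μ p q n (fun _ : Mem d => (1:ℝ)) M) + Kn μ p q N h' M := by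
    intro N
    induction N with
    | zero => intro M _; simp [Kn]
    | succ N ih =>
      intro M hM
      have e1 : K μ p q h' M = K μ p q (-c • (∑ n ∈ range N, Kn μ p q n
          (fun _ : Mem d => (1:ℝ))) + Kn μ p q N h') M := by
        refine hKcl _ _ (fun M' hM' => ?_) M hM
        rw [ih M' hM']
        simp only [Pi.add_apply, Pi.smul_apply, smul_eq_mul, Finset.sum_apply]
      rw [he' M hM, e1, map_add, map_smul, map_sum, sum_range_succ']
      simp only [Pi.add_apply, Pi.smul_apply, smul_eq_mul, Finset.sum_apply, Kn_succ]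
      simp only [Kn, Function.iterate_zero, id_eq]
      ring
  have hU := fun M => (hasSum_U hμ h0 h1 hr hq hone M).tendsto_sum_nat
  have hlim : ∀ M ∈ S, h' M = -c * U μ p q (fun _ => 1) M := by
    intro M hM
    have t1 : Tendsto (fun N => -c * (∑ n ∈ range N, Kn μ p q n (fun _ : Mem d => (1:ℝ)) M) +
        Kn μ p q N h' M) atTop (𝓝 (-c * U μ p q (fun _ => 1) M + 0)) := by
      refine ((hU M).const_mul _).add ?_
      refine squeeze_zero_norm (fun N => hb'.opKn hμ h0 h1 hr hq N M) ?_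
      have := (tendsto_pow_atTop_nhds_zero_of_lt_one hr.ρ_pos.le hr.ρ_lt).mul_const (C * W α M)
      simpa [mul_assoc] using this
    rw [add_zero] at t1
    refine tendsto_nhds_unique ?_ t1
    exact tendsto_const_nhds.congr fun N => hind N M hM
  have hU1 := one_le_U_one (d := d) hμ h0 h1 hr hq ∅
  have hc : c = 0 := by
    have e1 := hlim ∅ hS0
    have e2 : h' ∅ = 0 := by simp [hh', hS0, hz]
    rw [e2] at e1
    have : c * U μ p q (fun _ => 1) ∅ = 0 := by linarith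
    rcases mul_eq_zero.1 this with h3 | h3
    · exact h3
    · linarith
  refine ⟨hc, fun M hM => ?_⟩
  have e1 := hlim M hM
  rw [hc] at e1
  simpa [hh', hM] using e1

lemma closed_univ (q : Dir d → ℝ) : Closed μ p q Set.univ := by
  intro f f' h M _
  have : f = f' := funext fun M => h M (Set.mem_univ M)
  rw [this]

lemma Sol.bound (hμ : 0 < μ) (h0 : 0 ≤ p) (h1 : p ≤ 1) (hr : Rate μ α ρ) {q : Dir d → ℝ}
    (hq : Wts q) {C : ℝ} {g : Mem d → ℝ} (hg : Bd α C g) {v : ℝ} {h : Mem d → ℝ}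
    (hs : Sol μ p α q g v h) : |v| ≤ (1 - ρ)⁻¹ * C ∧
      Bd α ((1 - ρ)⁻¹ * C + (1 - ρ)⁻¹ * C * (1 - ρ)⁻¹) h := by
  obtain ⟨h', hs', hv', hb'⟩ := exists_sol hμ h0 h1 hr hq hg
  obtain ⟨C1, hC1⟩ := hs.bd
  have hbd := hC1.sub hb'
  have := unique_zero hμ h0 h1 hr hq (closed_univ q) (Set.mem_univ _) (c := v - nu μ p q g)
    (h := h - h') (fun M _ => by
      rw [map_sub]
      simp only [Pi.sub_apply]
      rw [hs.eq M, hs'.eq M]; ring) (by simp [hs.zero, hs'.zero])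
    (hbd.nonneg hr.α_pos.le) (fun M _ => hbd M)
  obtain ⟨e1, e2⟩ := this
  have hvv : v = nu μ p q g := by linarith
  have hhh : h = h' := by
    funext M
    have := e2 M (Set.mem_univ M)
    simp only [Pi.sub_apply] at this
    linarith
  rw [hvv, hhh]
  exact ⟨hv', hb'⟩

lemma Sol.unique (hμ : 0 < μ) (h0 : 0 ≤ p) (h1 : p ≤ 1) (hr : Rate μ α ρ) {q : Dir d → ℝ}
    (hq : Wts q) {g : Mem d → ℝ} {v v' : ℝ} {h h' : Mem d → ℝ}
    (hs : Sol μ p α q g v h) (hs' : Sol μ p α q g v' h') : v = v' ∧ h = h' := by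
  obtain ⟨C1, hC1⟩ := hs.bd
  obtain ⟨C2, hC2⟩ := hs'.bd
  have hbd := hC1.sub hC2
  have := unique_zero hμ h0 h1 hr hq (closed_univ q) (Set.mem_univ _) (c := v - v')
    (h := h - h') (fun M _ => by
      rw [map_sub]
      simp only [Pi.sub_apply]
      rw [hs.eq M, hs'.eq M]; ring) (by simp [hs.zero, hs'.zero])
    (hbd.nonneg hr.α_pos.le) (fun M _ => hbd M)
  obtain ⟨e1, e2⟩ := this
  refine ⟨by linarith, funext fun M => ?_⟩
  have := e2 M (Set.mem_univ M)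
  simp only [Pi.sub_apply] at this
  linarith

lemma Sol.eq_nu (hμ : 0 < μ) (h0 : 0 ≤ p) (h1 : p ≤ 1) (hr : Rate μ α ρ) {q : Dir d → ℝ}
    (hq : Wts q) {C : ℝ} {g : Mem d → ℝ} (hg : Bd α C g) {v : ℝ} {h : Mem d → ℝ}
    (hs : Sol μ p α q g v h) : v = nu μ p q g := by
  obtain ⟨h', hs', -, -⟩ := exists_sol hμ h0 h1 hr hq hg
  exact (hs.unique hμ h0 h1 hr hq hs').1

lemma Sol.add {q : Dir d → ℝ} {g g' : Mem d → ℝ} {v v' : ℝ} {h h' : Mem d → ℝ}
    (hs : Sol μ p α q g v h) (hs' : Sol μ p α q g' v' h') :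
    Sol μ p α q (g + g') (v + v') (h + h') := by
  obtain ⟨C1, hC1⟩ := hs.bd
  obtain ⟨C2, hC2⟩ := hs'.bd
  refine ⟨fun M => ?_, by simp [hs.zero, hs'.zero], _, hC1.add hC2⟩
  rw [map_add]
  simp only [Pi.add_apply]
  rw [hs.eq M, hs'.eq M]; ring

lemma Sol.smul {q : Dir d → ℝ} {g : Mem d → ℝ} {v : ℝ} {h : Mem d → ℝ}
    (hs : Sol μ p α q g v h) (c : ℝ) : Sol μ p α q (c • g) (c * v) (c • h) := by
  obtain ⟨C1, hC1⟩ := hs.bd
  refine ⟨fun M => ?_, by simp [hs.zero], _, hC1.smul c⟩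
  rw [map_smul]
  simp only [Pi.smul_apply, smul_eq_mul]
  rw [hs.eq M]; ring

lemma nu_bound (hμ : 0 < μ) (h0 : 0 ≤ p) (h1 : p ≤ 1) (hr : Rate μ α ρ) {q : Dir d → ℝ}
    (hq : Wts q) {C : ℝ} {g : Mem d → ℝ} (hg : Bd α C g) : |nu μ p q g| ≤ (1 - ρ)⁻¹ * C :=
  (exists_sol hμ h0 h1 hr hq hg).choose_spec.2.1

lemma nu_add (hμ : 0 < μ) (h0 : 0 ≤ p) (h1 : p ≤ 1) (hr : Rate μ α ρ) {q : Dir d → ℝ}
    (hq : Wts q) {C C' : ℝ} {g g' : Mem d → ℝ} (hg : Bd α C g) (hg' : Bd α C' g') :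
    nu μ p q (g + g') = nu μ p q g + nu μ p q g' := by
  obtain ⟨h, hs, -, -⟩ := exists_sol hμ h0 h1 hr hq hg
  obtain ⟨h', hs', -, -⟩ := exists_sol hμ h0 h1 hr hq hg'
  exact ((hs.add hs').eq_nu hμ h0 h1 hr hq (hg.add hg')).symm

lemma nu_smul (hμ : 0 < μ) (h0 : 0 ≤ p) (h1 : p ≤ 1) (hr : Rate μ α ρ) {q : Dir d → ℝ}
    (hq : Wts q) {C : ℝ} {g : Mem d → ℝ} (hg : Bd α C g) (c : ℝ) :
    nu μ p q (c • g) = c * nu μ p q g := by
  obtain ⟨h, hs, -, -⟩ := exists_sol hμ h0 h1 hr hq hg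
  exact ((hs.smul c).eq_nu hμ h0 h1 hr hq (hg.smul c)).symm

/-- The stationary mean of `f - P f` vanishes. -/
lemma nu_coboundary (hμ : 0 < μ) (h0 : 0 ≤ p) (h1 : p ≤ 1) (hr : Rate μ α ρ) {q : Dir d → ℝ}
    (hq : Wts q) {C : ℝ} {f : Mem d → ℝ} (hf : Bd α C f) (hf0 : f ∅ = 0) (c : ℝ) :
    nu μ p q (fun M => f M - P μ p q f M + c) = c := by
  have hb : Bd α (C + (1 + α) * C + |c|) (fun M => f M - P μ p q f M + c) := by
    have h2 := (hf.sub (hf.opP hμ h0 h1 hr.α_pos.le hq)).add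
      (Bd_of_abs_le (d := d) hr.α_pos.le (abs_nonneg c) (g := fun _ => c) (fun _ => le_rfl))
    exact h2
  refine (Sol.eq_nu hμ h0 h1 hr hq hb (h := f) ⟨fun M => by ring, hf0, _, hf⟩).symm

end

end Pool.Agent.Helper96.DP
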