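import Pool.Agent.Helper96.DP.Def

/-!
# Facts about exponential laws and infinite products
-/

set_option linter.unusedSectionVars false
set_option linter.unusedSimpArgs false
set_option linter.unusedVariables false

namespace Pool.Agent.Helper96.DP

open MeasureTheory ProbabilityTheory Filter Topology Set

lemma integral_expLaw {r : ℝ} (hr : 0 < r) (f : ℝ → ℝ) :
    ∫ x, f x ∂(expMeasure r) = ∫ x in Ioi (0:ℝ), r * Real.exp (-(r * x)) * f x := by
  have h1 : expMeasure r = volume.withDensity (gammaPDF 1 r) := rfl
  rw [h1, integral_withDensity_eq_integral_toReal_smul]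
  · have h2 : (fun x => (gammaPDF 1 r x).toReal • f x) =
        (Ici (0:ℝ)).indicator fun x => r * Real.exp (-(r * x)) * f x := by
      funext x
      by_cases hx : 0 ≤ x
      · rw [indicator_of_mem (show x ∈ Ici (0:ℝ) from hx), gammaPDF_of_nonneg hx,
          ENNReal.toReal_ofReal (by simp; positivity)]
        simp
      · rw [indicator_of_notMem (show x ∉ Ici (0:ℝ) from hx), gammaPDF_of_neg (not_le.1 hx)]
        simp
    rw [h2, integral_indicator measurableSet_Ici, integral_Ici_eq_integral_Ioi]
  · exact (measurable_gammaPDFReal 1 r).ennreal_ofReal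
  · exact ae_of_all _ fun x => ENNReal.ofReal_lt_top

lemma integral_exp_expLaw {r c : ℝ} (hr : 0 < r) (hc : 0 ≤ c) :
    ∫ x, Real.exp (-(c * x)) ∂(expMeasure r) = r / (r + c) := by
  rw [integral_expLaw hr]
  have h1 : ∀ x : ℝ, r * Real.exp (-(r * x)) * Real.exp (-(c * x)) =
      r * Real.exp (-(r + c) * x) := by
    intro x; rw [mul_assoc, ← Real.exp_add]; congr 2; ring
  simp only [h1]
  rw [integral_const_mul, integral_exp_mul_Ioi (by linarith)]
  have h2 : r + c ≠ 0 := by positivity
  simp only [neg_mul, mul_zero, neg_zero, Real.exp_zero]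
  rw [div_neg, neg_div, neg_neg]
  field_simp

lemma ae_pos_expLaw {r : ℝ} (hr : 0 < r) : ∀ᵐ x ∂(expMeasure r), 0 < x := by
  have : IsProbabilityMeasure (expMeasure r) := isProbabilityMeasure_expMeasure hr
  rw [ae_iff]
  have h1 : {x : ℝ | ¬ 0 < x} = Iic 0 := by ext x; simp
  rw [h1]
  have h2 := cdf_expMeasure_eq hr 0
  rw [cdf_eq_real] at h2
  simp at h2
  simpa [measureReal_def, ENNReal.toReal_eq_zero_iff] using h2

lemma expLaw_Ioi {r : ℝ} (hr : 0 < r) {t : ℝ} (ht : 0 ≤ t) :
    (expMeasure r).real (Ioi t) = Real.exp (-(r * t)) := by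
  have : IsProbabilityMeasure (expMeasure r) := isProbabilityMeasure_expMeasure hr
  have h2 := cdf_expMeasure_eq hr t
  rw [cdf_eq_real, if_pos ht] at h2
  have h3 : (Ioi t) = (Iic t)ᶜ := by ext x; simp
  rw [h3, measureReal_compl measurableSet_Iic, h2]
  simp

lemma integrable_id_expLaw {r : ℝ} (hr : 0 < r) : Integrable (fun x : ℝ => x) (expMeasure r) := by
  have h1 : expMeasure r = volume.withDensity (gammaPDF 1 r) := rfl
  rw [h1, integrable_withDensity_iff_integrable_smul' ?_ ?_]
  · have h2 : (fun x => (gammaPDF 1 r x).toReal • x) =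
        (Ici (0:ℝ)).indicator fun x => r * (x ^ ((2:ℝ) - 1) * Real.exp (-(r * x))) := by
      funext x
      by_cases hx : 0 ≤ x
      · rw [indicator_of_mem (show x ∈ Ici (0:ℝ) from hx), gammaPDF_of_nonneg hx,
          ENNReal.toReal_ofReal (by simp; positivity)]
        norm_num
        ring
      · rw [indicator_of_notMem (show x ∉ Ici (0:ℝ) from hx), gammaPDF_of_neg (not_le.1 hx)]
        simp
    rw [h2, integrable_indicator_iff measurableSet_Ici, integrableOn_Ici_iff_integrableOn_Ioi]
    refine Integrable.const_mul ?_ r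
    have := Real.GammaIntegral_convergent (s := 2) (by norm_num)
    have h3 := (integrableOn_Ioi_comp_mul_left_iff
      (fun x : ℝ => Real.exp (-x) * x ^ ((2:ℝ) - 1)) 0 hr).2 (by simpa using this)
    refine (h3.const_mul (r⁻¹)).congr ?_
    filter_upwards [ae_restrict_mem measurableSet_Ioi] with x hx
    have hx : 0 < x := hx
    norm_num
    field_simp
  · exact (measurable_gammaPDFReal 1 r).ennreal_ofReal
  · exact ae_of_all _ fun x => ENNReal.ofReal_lt_top

lemma integral_id_expLaw {r : ℝ} (hr : 0 < r) : ∫ x, x ∂(expMeasure r) = 1 / r := by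
  rw [integral_expLaw hr]
  have h1 : ∀ x ∈ Ioi (0:ℝ), r * Real.exp (-(r * x)) * x =
      r * (x ^ ((2:ℝ) - 1) * Real.exp (-(r * x))) := by
    intro x hx; norm_num; ring
  rw [setIntegral_congr_fun measurableSet_Ioi h1, integral_const_mul,
    Real.integral_rpow_mul_exp_neg_mul_Ioi (by norm_num) hr]
  norm_num
  field_simp

/-- Resampling one coordinate of an infinite product. -/
lemma map_update {ι : Type*} [DecidableEq ι] {X : Type*} [MeasurableSpace X] (ν : Measure X)
    [IsProbabilityMeasure ν] (i : ι) :
    (ν.prod (Measure.infinitePi fun _ : ι => ν)).map (fun z => Function.update z.2 i z.1) =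
      Measure.infinitePi fun _ : ι => ν := by
  have hm : Measurable (fun z : X × (ι → X) => Function.update z.2 i z.1) := by
    rw [measurable_pi_iff]
    intro j
    by_cases h : j = i
    · subst h; simpa using measurable_fst
    · simp only [Function.update_of_ne h]; exact (measurable_pi_apply j).comp measurable_snd
  refine Measure.eq_infinitePi _ fun s t ht => ?_
  rw [Measure.map_apply hm (MeasurableSet.pi s.countable_toSet fun j _ => ht j)]
  by_cases hi : i ∈ s
  · have h1 : (fun z : X × (ι → X) => Function.update z.2 i z.1) ⁻¹' (Set.pi s t) =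
        (t i) ×ˢ (Set.pi (s.erase i : Finset ι) t) := by
      ext z
      simp only [mem_preimage, Set.mem_pi, mem_prod, Finset.mem_coe, Finset.mem_erase]
      constructor
      · intro h
        refine ⟨by simpa using h i hi, fun j hj => ?_⟩
        have := h j hj.2
        rwa [Function.update_of_ne hj.1] at this
      · rintro ⟨ha, hb⟩ j hj
        by_cases hji : j = i
        · subst hji; simpa using ha
        · rw [Function.update_of_ne hji]; exact hb j ⟨hji, hj⟩
    rw [h1, Measure.prod_prod, Measure.infinitePi_pi _ fun j _ => ht j,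
      Finset.mul_prod_erase s (fun j => ν (t j)) hi]
  · have h1 : (fun z : X × (ι → X) => Function.update z.2 i z.1) ⁻¹' (Set.pi s t) =
        univ ×ˢ (Set.pi s t) := by
      ext z
      simp only [mem_preimage, Set.mem_pi, mem_prod, Finset.mem_coe, mem_univ, true_and]
      refine forall₂_congr fun j hj => ?_
      rw [Function.update_of_ne (show j ≠ i from fun h => hi (h ▸ hj))]
    rw [h1, Measure.prod_prod, Measure.infinitePi_pi _ fun j _ => ht j, measure_univ, one_mul]

lemma measurable_update2 {ι : Type*} [DecidableEq ι] {X : Type*} [MeasurableSpace X] (i : ι) :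
    Measurable (fun z : X × (ι → X) => Function.update z.2 i z.1) := by
  rw [measurable_pi_iff]
  intro j
  by_cases h : j = i
  · subst h; simpa using measurable_fst
  · simp only [Function.update_of_ne h]; exact (measurable_pi_apply j).comp measurable_snd

lemma integral_update {ι : Type*} [DecidableEq ι] {X : Type*} [MeasurableSpace X] (ν : Measure X)
    [IsProbabilityMeasure ν] (i : ι) {F : (ι → X) → ℝ}
    (hF : Integrable F (Measure.infinitePi fun _ : ι => ν)) :
    ∫ ω, F ω ∂(Measure.infinitePi fun _ : ι => ν) =
      ∫ ω, ∫ x, F (Function.update ω i x) ∂ν ∂(Measure.infinitePi fun _ : ι => ν) := by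
  have hF' : Integrable F ((ν.prod (Measure.infinitePi fun _ : ι => ν)).map
      (fun z => Function.update z.2 i z.1)) := by rwa [map_update]
  have h2 : Integrable (fun z : X × (ι → X) => F (Function.update z.2 i z.1))
      (ν.prod (Measure.infinitePi fun _ : ι => ν)) := hF'.comp_measurable (measurable_update2 i)
  calc ∫ ω, F ω ∂(Measure.infinitePi fun _ : ι => ν)
      = ∫ ω, F ω ∂((ν.prod (Measure.infinitePi fun _ : ι => ν)).map
        (fun z => Function.update z.2 i z.1)) := by rw [map_update]
    _ = ∫ z, F (Function.update z.2 i z.1) ∂(ν.prod (Measure.infinitePi fun _ : ι => ν)) :=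
        integral_map (measurable_update2 i).aemeasurable hF'.aestronglyMeasurable
    _ = ∫ ω, ∫ x, F (Function.update ω i x) ∂ν ∂(Measure.infinitePi fun _ : ι => ν) :=
        integral_prod_symm _ h2

end Pool.Agent.Helper96.DP
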