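import Pool.Agent.Helper96.DP.Clock

/-!
# The memoryless property of Poisson clocks
-/

set_option linter.unusedSectionVars false
set_option linter.unusedSimpArgs false
set_option linter.unusedVariables false

namespace Pool.Agent.Helper96.DP

open MeasureTheory ProbabilityTheory Filter Topology Set

section

variable {r : ℝ} {t : ℕ → ℝ} {k : ℕ} {ψ : (ℕ → ℕ) → ℝ} {C : ℝ}

lemma measurable_hist (hψ : ∀ n n' : ℕ → ℕ, (∀ j ≤ k, n j = n' j) → ψ n = ψ n') :
    Measurable fun g : ℕ → ℝ => ψ fun j => rings g (t j) := by
  let e : (Fin (k + 1) → ℕ) → ℝ := fun v => ψ fun j => if h : j < k + 1 then v ⟨j, h⟩ else 0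
  have h1 : (fun g : ℕ → ℝ => ψ fun j => rings g (t j)) =
      e ∘ fun g (i : Fin (k + 1)) => rings g (t i) := by
    funext g
    refine hψ _ _ fun j hj => ?_
    simp [Nat.lt_succ_of_le hj]
  rw [h1]
  exact (measurable_of_countable e).comp (measurable_pi_iff.2 fun i => measurable_rings _)

lemma renewal_aux (hr : 0 < r) (ht0 : ∀ j, 0 ≤ t j) (htm : Monotone t)
    (hψ : ∀ n n' : ℕ → ℕ, (∀ j ≤ k, n j = n' j) → ψ n = ψ n') (hC : ∀ n, |ψ n| ≤ C) (n : ℕ)
    {τ : ℝ} (hτ : t k ≤ τ) :
    ∫ g in {g | rings g (t k) = n}, (if rings g τ = rings g (t k)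
      then ψ (fun j => rings g (t j)) else 0) ∂(clockLaw r) =
    ∫ g, (if ringTime g n ≤ t k then Real.exp (-(r * (τ - ringTime g n))) *
      ψ (fun j => rings (Function.update g n (t k - ringTime g n + 1)) (t j)) else 0)
      ∂(clockLaw r) := by
  have hp : IsProbabilityMeasure (expMeasure r) := isProbabilityMeasure_expMeasure hr
  have hpc := prob_clockLaw hr
  have hms : MeasurableSet {g : ℕ → ℝ | rings g (t k) = n} :=
    measurable_rings (t k) (measurableSet_singleton n)
  have hmτ : Measurable fun g : ℕ → ℝ =>
      (if rings g τ = rings g (t k) then ψ (fun j => rings g (t j)) else 0) :=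
    Measurable.ite (measurableSet_eq_fun (measurable_rings τ) (measurable_rings (t k)))
      (measurable_hist hψ) measurable_const
  set F : (ℕ → ℝ) → ℝ := ({g : ℕ → ℝ | rings g (t k) = n}).indicator fun g =>
    (if rings g τ = rings g (t k) then ψ (fun j => rings g (t j)) else 0) with hF
  have hFm : Measurable F := hmτ.indicator hms
  have hC0 : 0 ≤ C := (abs_nonneg _).trans (hC fun _ => 0)
  have hFb : ∀ g, ‖F g‖ ≤ C := by
    intro g
    rw [hF, Real.norm_eq_abs]
    by_cases h : g ∈ {g : ℕ → ℝ | rings g (t k) = n}
    · rw [indicator_of_mem h]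
      split_ifs
      · exact hC _
      · simpa using hC0
    · rw [indicator_of_notMem h]; simpa using hC0
  have hFi : Integrable F (clockLaw r) :=
    Integrable.of_bound hFm.aestronglyMeasurable C (ae_of_all _ hFb)
  rw [← integral_indicator hms]
  change ∫ g, F g ∂(clockLaw r) = _
  have h1 := integral_update (expMeasure r) n hFi
  change ∫ g, F g ∂(clockLaw r) = ∫ g, ∫ x, F (Function.update g n x) ∂(expMeasure r)
    ∂(clockLaw r) at h1
  rw [h1]
  refine integral_congr_ae ?_
  filter_upwards [ae_good hr] with g hg
  have h2 : ∀ᵐ x ∂(expMeasure r), F (Function.update g n x) =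
      (Ioi (τ - ringTime g n)).indicator (fun _ => if ringTime g n ≤ t k then
        ψ (fun j => rings (Function.update g n (t k - ringTime g n + 1)) (t j)) else 0) x := by
    filter_upwards [ae_pos_expLaw hr] with x hx
    have hgx := hg.update n hx
    have i1 := rings_eq_iff hgx (ht0 k) n
    have i2 := rings_eq_iff hgx ((ht0 k).trans hτ) n
    rw [ringTime_update g n x le_rfl, Function.update_self] at i1 i2
    by_cases hx2 : τ < ringTime g n + x
    · have hmem : x ∈ Ioi (τ - ringTime g n) := by simp; linarith
      rw [indicator_of_mem hmem]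
      by_cases hR : ringTime g n ≤ t k
      · have e1 : rings (Function.update g n x) (t k) = n := i1.2 ⟨hR, by linarith⟩
        have e2 : rings (Function.update g n x) τ = n := i2.2 ⟨by linarith, hx2⟩
        rw [hF, indicator_of_mem (show Function.update g n x ∈ {g | rings g (t k) = n} from e1),
          if_pos hR, if_pos (by rw [e1, e2])]
        refine hψ _ _ fun j hj => ?_
        have hjk : t j ≤ t k := htm hj
        exact rings_update hg (ht0 j) (by linarith) (by linarith) hx (by linarith)
      · have e1 : rings (Function.update g n x) (t k) ≠ n := fun h => hR (i1.1 h).1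
        rw [hF, indicator_of_notMem (show Function.update g n x ∉ {g | rings g (t k) = n} from e1),
          if_neg hR]
    · have hmem : x ∉ Ioi (τ - ringTime g n) := by simp; linarith
      rw [indicator_of_notMem hmem]
      by_cases e1 : rings (Function.update g n x) (t k) = n
      · rw [hF, indicator_of_mem (show Function.update g n x ∈ {g | rings g (t k) = n} from e1),
          if_neg]
        rw [e1]
        exact fun h => hx2 (i2.1 h).2
      · rw [hF, indicator_of_notMem (show Function.update g n x ∉ {g | rings g (t k) = n} from e1)]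
  rw [integral_congr_ae h2, integral_indicator_const _ measurableSet_Ioi, smul_eq_mul]
  by_cases hR : ringTime g n ≤ t k
  · rw [if_pos hR, if_pos hR, expLaw_Ioi hr (by linarith)]
  · rw [if_neg hR, if_neg hR, mul_zero]

/-- The event of no ring between `t k` and `t (k + 1)` is independent of the counts up to time
`t k`. -/
lemma renewal (hr : 0 < r) (ht0 : ∀ j, 0 ≤ t j) (htm : Monotone t)
    (hψ : ∀ n n' : ℕ → ℕ, (∀ j ≤ k, n j = n' j) → ψ n = ψ n') (hC : ∀ n, |ψ n| ≤ C) :
    ∫ g, (if rings g (t (k + 1)) = rings g (t k) then ψ (fun j => rings g (t j)) else 0)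
      ∂(clockLaw r) =
    Real.exp (-(r * (t (k + 1) - t k))) * ∫ g, ψ (fun j => rings g (t j)) ∂(clockLaw r) := by
  have hp : IsProbabilityMeasure (expMeasure r) := isProbabilityMeasure_expMeasure hr
  have hpc := prob_clockLaw hr
  have hC0 : 0 ≤ C := (abs_nonneg _).trans (hC fun _ => 0)
  have hms : ∀ n, MeasurableSet {g : ℕ → ℝ | rings g (t k) = n} :=
    fun n => measurable_rings (t k) (measurableSet_singleton n)
  have hdis : Pairwise (Function.onFun Disjoint fun n => {g : ℕ → ℝ | rings g (t k) = n}) := by
    intro m n hmn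
    rw [Function.onFun, Set.disjoint_left]
    intro g h1 h2
    exact hmn (h1.symm.trans h2)
  have hun : (⋃ n, {g : ℕ → ℝ | rings g (t k) = n}) = univ := by
    ext g; simp
  have key : ∀ τ, t k ≤ τ → HasSum (fun n => ∫ g in {g | rings g (t k) = n},
      (if rings g τ = rings g (t k) then ψ (fun j => rings g (t j)) else 0) ∂(clockLaw r))
      (∫ g, (if rings g τ = rings g (t k) then ψ (fun j => rings g (t j)) else 0)
        ∂(clockLaw r)) := by
    intro τ hτ
    have hm : Measurable fun g : ℕ → ℝ =>
        (if rings g τ = rings g (t k) then ψ (fun j => rings g (t j)) else 0) :=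
      Measurable.ite (measurableSet_eq_fun (measurable_rings τ) (measurable_rings (t k)))
        (measurable_hist hψ) measurable_const
    have hi : Integrable (fun g : ℕ → ℝ =>
        (if rings g τ = rings g (t k) then ψ (fun j => rings g (t j)) else 0)) (clockLaw r) := by
      refine Integrable.of_bound hm.aestronglyMeasurable C (ae_of_all _ fun g => ?_)
      rw [Real.norm_eq_abs]
      split_ifs
      · exact hC _
      · simpa using hC0
    have := hasSum_integral_iUnion hms hdis hi.integrableOn
    rwa [hun, setIntegral_univ] at this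
  have k1 := key (t (k + 1)) (htm (Nat.le_succ k))
  have k2 := key (t k) le_rfl
  simp only [if_true] at k2
  have k3 := k2.mul_left (Real.exp (-(r * (t (k + 1) - t k))))
  refine k1.unique ?_
  convert! k3 using 1
  funext n
  have a1 := renewal_aux hr ht0 htm hψ hC n (htm (Nat.le_succ k))
  have a2 := renewal_aux hr ht0 htm hψ hC n (le_refl (t k))
  simp only [if_true] at a2
  rw [a1, a2, ← integral_const_mul]
  refine integral_congr_ae (ae_of_all _ fun g => ?_)
  simp only
  split_ifs
  · rw [← mul_assoc, ← Real.exp_add]
    congr 2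
    rw [Nat.succ_eq_add_one]; ring
  · simp

end

end Pool.Agent.Helper96.DP
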