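import Pool.Agent.Helper96.DP.Explicit

/-!
# The second-order coefficient
-/

set_option linter.unusedSectionVars false
set_option linter.unusedSimpArgs false
set_option linter.unusedVariables false

namespace Pool.Agent.Helper96.DP

open Finset Filter Topology

variable {d : ℕ} [NeZero d] {μ p α ρ : ℝ}

section coefficients
variable (μ p)

noncomputable def ca : ℝ := -((p + μ) * (1 + μ)) / kap μ p ^ 2
noncomputable def cb1 : ℝ :=
  (0 * (1 - gam μ 2 * p) - (-1 / kap μ p) * (gam μ 2 * p * (1 - p))) / del p (gam μ 1) (gam μ 2)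
noncomputable def cb2 : ℝ :=
  ((-1 / kap μ p) * (1 - gam μ 1 * (1 - p)) - 0 * gam μ 1) / del p (gam μ 1) (gam μ 2)
noncomputable def cc1 : ℝ :=
  ((p / kap μ p) * (1 - gam μ 2 * p) - 0 * (gam μ 2 * p * (1 - p))) / del p (gam μ 1) (gam μ 2)
noncomputable def cc2 : ℝ :=
  (0 * (1 - gam μ 1 * (1 - p)) - (p / kap μ p) * gam μ 1) / del p (gam μ 1) (gam μ 2)
noncomputable def ce1 : ℝ :=
  ((1 / kap μ p) * (1 - gam μ 3 * p) - 0 * (gam μ 3 * p * (1 - p))) / del p (gam μ 2) (gam μ 3)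
noncomputable def ce2 : ℝ :=
  (0 * (1 - gam μ 2 * (1 - p)) - (1 / kap μ p) * gam μ 2) / del p (gam μ 2) (gam μ 3)

end coefficients

section signs
variable (hμ : 0 < μ) (h0 : 0 < p) (h1 : p < 1)
include hμ h0 h1

lemma del12 : 0 < del p (gam μ 1) (gam μ 2) :=
  del_pos h0.le h1.le (gam_lt_one hμ (by norm_num)) (gam_lt_one hμ (by norm_num))
lemma del23 : 0 < del p (gam μ 2) (gam μ 3) :=
  del_pos h0.le h1.le (gam_lt_one hμ (by norm_num)) (gam_lt_one hμ (by norm_num))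

lemma gp_lt (k : ℕ) : 0 < 1 - gam μ k * p := by
  have := gam_le_one hμ k
  have := gam_pos hμ k
  nlinarith

lemma gp_lt' (k : ℕ) : 0 < 1 - gam μ k * (1 - p) := by
  have := gam_le_one hμ k
  have := gam_pos hμ k
  nlinarith

lemma cb2_neg : cb2 μ p ≤ 0 := by
  unfold cb2
  have hk := kap_pos hμ h1.le
  have h2 := gp_lt' hμ h0 h1 1
  have h3 : -1 / kap μ p ≤ 0 := by rw [neg_div]; have : 0 < 1 / kap μ p := by positivity
                                   linarith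
  apply div_nonpos_of_nonpos_of_nonneg _ (del12 hμ h0 h1).le
  nlinarith

lemma cc1_pos : 0 ≤ cc1 μ p := by
  unfold cc1
  have hk := kap_pos hμ h1.le
  have h2 := gp_lt hμ h0 h1 2
  have h3 := del12 hμ h0 h1
  rw [zero_mul, sub_zero]
  positivity

lemma ce1_pos : 0 ≤ ce1 μ p := by
  unfold ce1
  have hk := kap_pos hμ h1.le
  have h2 := gp_lt hμ h0 h1 3
  have h3 := del23 hμ h0 h1
  rw [zero_mul, sub_zero]
  positivity

end signs

/-- The first-order corrector, one lateral direction. -/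
noncomputable def kf (μ p : ℝ) (j : Dir d) : Mem d → ℝ :=
  ca μ p • Phi p {ow d 0} + cb1 μ p • Phi p {uu j} + cb2 μ p • Phi p {ow d 0, uu j} +
  cc1 μ p • Phi p {ww j} + cc2 μ p • Phi p {ow d 0, ww j} + ce1 μ p • Phi p {uu j, ww j} +
  ce2 μ p • Phi p {ow d 0, uu j, ww j}

/-- The first-order corrector. -/
noncomputable def kF (μ p : ℝ) : Mem d → ℝ := ∑ j ∈ lat d, kf μ p j

lemma Bd_kf (h0 : 0 ≤ p) (h1 : p ≤ 1) (hα : 0 ≤ α) (j : Dir d) :
    Bd α (|ca μ p| * 1 + |cb1 μ p| * 1 + |cb2 μ p| * 1 + |cc1 μ p| * 1 + |cc2 μ p| * 1 +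
      |ce1 μ p| * 1 + |ce2 μ p| * 1) (kf μ p j : Mem d → ℝ) := by
  have hb := fun A : Finset (Edge d) => Bd_Phi (d := d) h0 h1 hα A
  exact (((((((hb _).smul _).add ((hb _).smul _)).add ((hb _).smul _)).add ((hb _).smul _)).add
    ((hb _).smul _)).add ((hb _).smul _)).add ((hb _).smul _)

lemma Bd_kF (h0 : 0 ≤ p) (h1 : p ≤ 1) (hα : 0 ≤ α) : ∃ C, Bd α C (kF μ p : Mem d → ℝ) :=
  ⟨_, Bd.sum (lat d) fun j _ => Bd_kf h0 h1 hα j⟩

lemma kf_empty (j : Dir d) : kf μ p j (∅ : Mem d) = 0 := by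
  simp [kf, Phi_empty_mem]

lemma kF_empty : kF μ p (∅ : Mem d) = 0 := by
  simp [kF, kf_empty]

lemma kf_apply {j : Dir d} (hj : j ∈ lat d) (M : Mem d) : kf μ p j M =
    ca μ p * phi p (ow d 0) M + cb1 μ p * phi p (uu j) M +
    cb2 μ p * (phi p (ow d 0) M * phi p (uu j) M) +
    cc1 μ p * phi p (ww j) M + cc2 μ p * (phi p (ow d 0) M * phi p (ww j) M) +
    ce1 μ p * (phi p (uu j) M * phi p (ww j) M) +
    ce2 μ p * (phi p (ow d 0) M * (phi p (uu j) M * phi p (ww j) M)) := by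
  have h1 : ow d 0 ≠ uu j := (uu_ne_ow hj 0).symm
  have h2 : ow d 0 ≠ ww j := (ww_ne_ow hj 0).symm
  have h3 : uu j ≠ ww j := (ww_ne_uu hj).symm
  simp only [kf, Pi.add_apply, Pi.smul_apply, smul_eq_mul, Phi_single, Phi_pair h1, Phi_pair h2,
    Phi_pair h3, Phi_triple h1 h2 h3]

lemma fwd_kf (hμ : 0 < μ) {M : Mem d} (hM : M ∈ Free (H d 1)) {j : Dir d} (hj : j ∈ lat d) :
    step μ p plus (kf μ p j) M = (1 - p - phi p (ow d 0) M) * (
      -(ca μ p * gam μ 1 * p) + (cb1 μ p * gam μ 1 - cb2 μ p * gam μ 2 * p) * phi p (uu j) M +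
      (cc1 μ p * gam μ 1 - cc2 μ p * gam μ 2 * p) * phi p (ww j) M +
      (ce1 μ p * gam μ 2 - ce2 μ p * gam μ 3 * p) * (phi p (uu j) M * phi p (ww j) M)) := by
  simp only [kf, map_add, map_smul, Pi.add_apply, Pi.smul_apply, smul_eq_mul]
  rw [fwd_o hμ hM, fwd_u hμ hM hj, fwd_ou hμ hM hj, fwd_w hμ hM hj, fwd_ow hμ hM hj,
    fwd_uw hμ hM hj, fwd_ouw hμ hM hj]
  ring

/-- A lateral step applied to the belief about the forward edge. -/
lemma lat_o (hμ : 0 < μ) {i : Dir d} (hi : i ∈ lat d) (M : Mem d) :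
    step μ p i (Phi p {ow d 0}) M = gam μ 1 * ((p + phi p (uu i) M) * phi p (ww i) M +
      (1 - p - phi p (uu i) M) * phi p (ow d 0) M) := by
  rw [step_Phi hμ, w_gam]
  have h1 : shE (vec i) (ow d 0) ≠ edgeAt 0 i := by
    rw [shE_ow0]; exact ww_ne_uu hi
  have h2 : ow d 0 ≠ edgeAt 0 i := (uu_ne_ow hi 0).symm
  rw [prod_singleton, prod_singleton, if_neg h1, if_neg h2, shE_ow0]
  rfl

/-- the source of the first-order equation -/
lemma F0_eq (hμ : 0 < μ) (h0 : 0 ≤ p) (h1 : p ≤ 1) (hr : Rate μ α ρ) {v0 : ℝ} {f0 : Mem d → ℝ}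
    (hs0 : Sol μ p α (qw 0 0) (cp p) v0 f0) {M : Mem d} (hM : M ∈ Free (H d 1)) :
    F0 μ p f0 M = ∑ i ∈ lat d, (1 / kap μ p) * ((p + phi p (uu i) M) *
      (phi p (ww i) M - phi p (ow d 0) M) - μ * phi p (ow d 0) M - p * μ) := by
  obtain ⟨hv, hf⟩ := sol0 hμ h0 h1 hr hs0
  have hk := (kap_pos hμ h1).ne'
  have e1 : F0 μ p f0 M = ∑ i ∈ lat d, (step μ p i f0 M - step μ p plus f0 M - cp p M) := by
    have t1 : opL μ p f0 M = ∑ i ∈ lat d, (step μ p i f0 M - step μ p plus f0 M) := by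
      rw [opL, LinearMap.sum_apply, Finset.sum_apply]
      rfl
    have t2 : ∑ i ∈ lat d, (step μ p i f0 M - step μ p plus f0 M - cp p M) =
        ∑ i ∈ lat d, (step μ p i f0 M - step μ p plus f0 M) - mm d * cp p M := by
      rw [sum_sub_distrib (f := fun i => step μ p i f0 M - step μ p plus f0 M), sum_const,
        nsmul_eq_mul]
      rfl
    rw [t2, ← t1]
    simp only [F0, Pi.add_apply, Pi.smul_apply, smul_eq_mul]
    ring
  rw [e1]
  refine sum_congr rfl fun i hi => ?_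
  have e2 := hs0.eq M
  rw [P_q0] at e2
  have e3 : step μ p i f0 M = step μ p i (((1 + μ) / kap μ p) • Phi p {ow d 0}) M :=
    step_lat_congr_H hi (fun M' hM' => by
      rw [hf M' hM']; simp [Phi_single]) hM
  rw [e3, map_smul, Pi.smul_apply, smul_eq_mul, lat_o hμ hi, gam_one hμ]
  have e4 : step μ p plus f0 M = f0 M - cp p M + v0 := by linarith
  rw [e4, hf M hM, hv]
  have h2 : 1 + μ ≠ 0 := by positivity
  field_simp
  ring

/-- The first-order coefficient, one lateral direction. -/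
noncomputable def v1m (μ p : ℝ) : ℝ := -(p / kap μ p ^ 2) * (μ ^ 2 - p * (1 - p))

lemma sol1 (hμ : 0 < μ) (h0 : 0 < p) (h1 : p < 1) (hr : Rate μ α ρ) {v0 : ℝ} {f0 : Mem d → ℝ}
    (hs0 : Sol μ p α (qw 0 0) (cp p) v0 f0) {v1 : ℝ} {f1 : Mem d → ℝ}
    (hs1 : Sol μ p α (qw 0 0) (F0 μ p f0) v1 f1) :
    v1 = mm d * v1m μ p ∧ ∀ M ∈ Free (H d 1), f1 M = kF μ p M := by
  have hq0 : Wts (qw 0 0 : Dir d → ℝ) := wts_qw le_rfl le_rfl (by simp)
  have hk := kap_pos hμ h1.le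
  obtain ⟨C, hC⟩ := Bd_kF (d := d) (μ := μ) h0.le h1.le hr.α_pos.le
  refine hs1.eqOn hμ h0.le h1.le hr hq0 (closed_H le_rfl) (empty_mem_Free _)
    (v' := mm d * v1m μ p) (f := kF μ p) (fun M hM => ?_) kF_empty hC
  rw [P_q0, F0_eq hμ h0.le h1.le hr hs0 hM]
  have e1 : kF μ p M = ∑ j ∈ lat d, kf μ p j M := by rw [kF, Finset.sum_apply]
  have e2 : step μ p plus (kF μ p) M = ∑ j ∈ lat d, step μ p plus (kf μ p j) M := by
    rw [kF, map_sum, Finset.sum_apply]
  have e3 : mm d * v1m μ p = ∑ j ∈ lat d, v1m μ p := by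
    rw [sum_const, nsmul_eq_mul]; rfl
  rw [e1, e2, e3, ← sum_sub_distrib, ← sum_add_distrib]
  refine sum_congr rfl fun j hj => ?_
  rw [fwd_kf hμ hM hj, kf_apply hj]
  have d12 := (del12 hμ h0 h1).ne'
  have d23 := (del23 hμ h0 h1).ne'
  obtain ⟨b1, b2⟩ := lin_sys d12 (s := 0) (s' := -1 / kap μ p) (x := cb1 μ p) (y := cb2 μ p)
    rfl rfl
  obtain ⟨c1, c2⟩ := lin_sys d12 (s := p / kap μ p) (s' := 0) (x := cc1 μ p) (y := cc2 μ p)
    rfl rfl
  obtain ⟨x1, x2⟩ := lin_sys d23 (s := 1 / kap μ p) (s' := 0) (x := ce1 μ p) (y := ce2 μ p)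
    rfl rfl
  have a1 : ca μ p = -(p + μ) / kap μ p + ca μ p * gam μ 1 * p := by
    rw [ca, gam_one hμ]
    have h2 : 1 + μ ≠ 0 := by positivity
    have := hk.ne'
    field_simp
    unfold kap; ring
  have a2 : v1m μ p = -(p * μ) / kap μ p - ca μ p * gam μ 1 * p * (1 - p) := by
    rw [ca, gam_one hμ, v1m]
    have h2 : 1 + μ ≠ 0 := by positivity
    have := hk.ne'
    field_simp
    unfold kap; ring
  set o := phi p (ow d 0) M with ho
  set u := phi p (uu j) M with hu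
  set v := phi p (ww j) M with hv
  set X := cb1 μ p * gam μ 1 - cb2 μ p * gam μ 2 * p with hX
  set Y := cc1 μ p * gam μ 1 - cc2 μ p * gam μ 2 * p with hY
  set T := ce1 μ p * gam μ 2 - ce2 μ p * gam μ 3 * p with hT
  rw [b1, b2, c1, c2, x1, x2, a2]
  linear_combination o * a1

lemma step_Phi' (hμ : 0 < μ) (i : Dir d) (A : Finset (Edge d)) (M : Mem d) :
    step μ p i (Phi p A) M = gam μ A.card * ((p + phi p (uu i) M) *
        ∏ e ∈ A, (if shE (vec i) e = uu i then 1 - p else phi p (shE (vec i) e) M) +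
      (1 - p - phi p (uu i) M) *
        ∏ e ∈ A, (if e = uu i then -p else phi p e M)) := by
  rw [step_Phi hμ, w_gam]; rfl

/-! ### Lateral steps from typical memories -/

section lateral
variable (hμ : 0 < μ) {M : Mem d} (hM : M ∈ Free (S2 d)) {i j : Dir d} (hi : i ∈ lat d)
  (hj : j ∈ lat d)
include hμ hM hi

lemma lato : step μ p i (Phi p {ow d 0}) M = gam μ 1 * ((1 - p) * phi p (ow d 0) M) := by
  rw [lat_o hμ hi, phi_Free hM (uu_mem hi), phi_Free hM (ww_mem hi)]; ring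

include hj

omit hμ hM in
lemma fac_u (M : Mem d) (hM : M ∈ Free (S2 d)) :
    (if shE (vec i) (uu j) = uu i then 1 - p else phi p (shE (vec i) (uu j)) M) =
    if j = opp i then 1 - p else 0 := by
  by_cases h : j = opp i
  · subst h; rw [if_pos (shE_uu_opp i), if_pos rfl]
  · rw [if_neg (fun h' => h ((shE_uu i j).1 h')), if_neg h, phi_Free hM (shE_uu_mem i hj)]

omit hμ hM in
lemma fac_w (M : Mem d) (hM : M ∈ Free (S2 d)) :
    (if shE (vec i) (ww j) = uu i then 1 - p else phi p (shE (vec i) (ww j)) M) =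
    if j = opp i then phi p (ow d 0) M else 0 := by
  by_cases h : j = opp i
  · subst h; rw [shE_ww_opp, if_neg (uu_ne_ow hi 0).symm, if_pos rfl]
  · have h1 : shE (vec i) (ww j) ≠ uu i := by
      intro h'
      have := congrArg Prod.snd h'
      have h2 : (shE (vec i) (ww j)).2 = 0 := rfl
      rw [h2, uu_ax i] at this
      exact mem_lat.1 hi this.symm
    rw [if_neg h1, if_neg h, phi_Free hM (shE_ww_mem hi hj h)]

omit hμ hM hj in
lemma fac_o (M : Mem d) (hM : M ∈ Free (S2 d)) :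
    (if shE (vec i) (ow d 0) = uu i then 1 - p else phi p (shE (vec i) (ow d 0)) M) = 0 := by
  rw [shE_ow0, if_neg (ww_ne_uu hi), phi_Free hM (ww_mem hi)]

omit hμ hM in
lemma gac_u (M : Mem d) (hM : M ∈ Free (S2 d)) :
    (if uu j = uu i then -p else phi p (uu j) M) = if j = i then -p else 0 := by
  by_cases h : j = i
  · subst h; rw [if_pos rfl, if_pos rfl]
  · rw [if_neg (fun h' => h (uu_inj h')), if_neg h, phi_Free hM (uu_mem hj)]

omit hμ hM in
lemma gac_w (M : Mem d) (hM : M ∈ Free (S2 d)) :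
    (if ww j = uu i then -p else phi p (ww j) M) = 0 := by
  rw [if_neg (ww_ne_uu hi), phi_Free hM (ww_mem hj)]

omit hμ hM hj in
lemma gac_o (M : Mem d) :
    (if ow d 0 = uu i then -p else phi p (ow d 0) M) = phi p (ow d 0) M := by
  rw [if_neg (uu_ne_ow hi 0).symm]

lemma latu : step μ p i (Phi p {uu j}) M =
    gam μ 1 * (p * (if j = opp i then 1 - p else 0) + (1 - p) * (if j = i then -p else 0)) := by
  rw [step_Phi' hμ, prod_singleton, prod_singleton, fac_u hi hj M hM, gac_u hi hj M hM,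
    phi_Free hM (uu_mem hi), card_singleton]
  ring

lemma latw : step μ p i (Phi p {ww j}) M =
    gam μ 1 * (p * (if j = opp i then phi p (ow d 0) M else 0)) := by
  rw [step_Phi' hμ, prod_singleton, prod_singleton, fac_w hi hj M hM, gac_w hi hj M hM,
    phi_Free hM (uu_mem hi), card_singleton]
  ring

lemma latou : step μ p i (Phi p {ow d 0, uu j}) M =
    gam μ 2 * ((1 - p) * (phi p (ow d 0) M * (if j = i then -p else 0))) := by
  have h : ow d 0 ≠ uu j := (uu_ne_ow hj 0).symm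
  rw [step_Phi' hμ, prod_pair h, prod_pair h, fac_o hi M hM, gac_o hi M,
    gac_u hi hj M hM, phi_Free hM (uu_mem hi),
    card_pair h]
  ring

lemma latow : step μ p i (Phi p {ow d 0, ww j}) M = 0 := by
  have h : ow d 0 ≠ ww j := (ww_ne_ow hj 0).symm
  rw [step_Phi' hμ, prod_pair h, prod_pair h, fac_o hi M hM, gac_w hi hj M hM]
  ring

lemma latuw : step μ p i (Phi p {uu j, ww j}) M =
    gam μ 2 * (p * (if j = opp i then (1 - p) * phi p (ow d 0) M else 0)) := by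
  have h : uu j ≠ ww j := (ww_ne_uu hj).symm
  rw [step_Phi' hμ, prod_pair h, prod_pair h, fac_u hi hj M hM, fac_w hi hj M hM,
    gac_w hi hj M hM, phi_Free hM (uu_mem hi),
    card_pair h]
  split_ifs <;> ring

lemma latouw : step μ p i (Phi p {ow d 0, uu j, ww j}) M = 0 := by
  have h1 : ow d 0 ∉ ({uu j, ww j} : Finset (Edge d)) := by
    simp [(uu_ne_ow hj 0).symm, (ww_ne_ow hj 0).symm]
  have h : uu j ≠ ww j := (ww_ne_uu hj).symm
  rw [step_Phi' hμ, prod_insert h1, prod_insert h1, prod_pair h, prod_pair h,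
    fac_o hi M hM, gac_w hi hj M hM]
  ring

lemma lat_kf : step μ p i (kf μ p j) M =
    ca μ p * gam μ 1 * (1 - p) * phi p (ow d 0) M +
    (if j = opp i then cb1 μ p * gam μ 1 * p * (1 - p) +
      (cc1 μ p * gam μ 1 * p + ce1 μ p * gam μ 2 * p * (1 - p)) * phi p (ow d 0) M else 0) +
    (if j = i then -(cb1 μ p * gam μ 1 * p * (1 - p)) -
      cb2 μ p * gam μ 2 * p * (1 - p) * phi p (ow d 0) M else 0) := by
  simp only [kf, map_add, map_smul, Pi.add_apply, Pi.smul_apply, smul_eq_mul]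
  rw [lato hμ hM hi, latu hμ hM hi hj, latou hμ hM hi hj, latw hμ hM hi hj, latow hμ hM hi hj,
    latuw hμ hM hi hj, latouw hμ hM hi hj]
  split_ifs <;> ring

end lateral

/-- The coefficient of the belief about the forward edge after a lateral step. -/
noncomputable def cX (μ p m : ℝ) : ℝ :=
  m * (ca μ p * gam μ 1 * (1 - p)) + cc1 μ p * gam μ 1 * p + ce1 μ p * gam μ 2 * p * (1 - p) -
    cb2 μ p * gam μ 2 * p * (1 - p)

lemma lat_kF (hμ : 0 < μ) {M : Mem d} (hM : M ∈ Free (S2 d)) {i : Dir d} (hi : i ∈ lat d) :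
    step μ p i (kF μ p) M = cX μ p (mm d) * phi p (ow d 0) M := by
  have e1 : step μ p i (kF μ p) M = ∑ j ∈ lat d, step μ p i (kf μ p j) M := by
    rw [kF, map_sum, Finset.sum_apply]
  rw [e1, sum_congr rfl fun j hj => lat_kf hμ hM hi hj, sum_add_distrib, sum_add_distrib,
    sum_const, sum_ite_eq', sum_ite_eq', if_pos hi, if_pos (opp_mem_lat hi), nsmul_eq_mul]
  unfold cX mm; ring

lemma fwd_kF (hμ : 0 < μ) {M : Mem d} (hM : M ∈ Free (S2 d)) :
    step μ p plus (kF μ p) M = -(mm d * (ca μ p * gam μ 1 * p * (1 - p - phi p (ow d 0) M))) := by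
  have e1 : step μ p plus (kF μ p) M = ∑ j ∈ lat d, step μ p plus (kf μ p j) M := by
    rw [kF, map_sum, Finset.sum_apply]
  have e2 : ∀ j ∈ lat d, step μ p plus (kf μ p j) M =
      -(ca μ p * gam μ 1 * p * (1 - p - phi p (ow d 0) M)) := by
    intro j hj
    rw [fwd_kf hμ (Free_mono H1_sub_S2 hM) hj, phi_Free hM (uu_mem hj), phi_Free hM (ww_mem hj)]
    ring
  rw [e1, sum_congr rfl e2, sum_const, nsmul_eq_mul]
  unfold mm; ring

lemma opL_f1 (hμ : 0 < μ) (h0 : 0 < p) (h1 : p < 1) (hr : Rate μ α ρ) {v0 : ℝ} {f0 : Mem d → ℝ}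
    (hs0 : Sol μ p α (qw 0 0) (cp p) v0 f0) {v1 : ℝ} {f1 : Mem d → ℝ}
    (hs1 : Sol μ p α (qw 0 0) (F0 μ p f0) v1 f1) {M : Mem d} (hM : M ∈ Free (S2 d)) :
    opL μ p f1 M = mm d * (cX μ p (mm d) * phi p (ow d 0) M +
      mm d * (ca μ p * gam μ 1 * p * (1 - p - phi p (ow d 0) M))) := by
  obtain ⟨-, hf⟩ := sol1 hμ h0 h1 hr hs0 hs1
  have e1 : opL μ p f1 M = ∑ i ∈ lat d, (step μ p i f1 M - step μ p plus f1 M) := by
    rw [opL, LinearMap.sum_apply, Finset.sum_apply]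
    rfl
  rw [e1]
  have e2 : ∀ i ∈ lat d, step μ p i f1 M - step μ p plus f1 M =
      cX μ p (mm d) * phi p (ow d 0) M +
      mm d * (ca μ p * gam μ 1 * p * (1 - p - phi p (ow d 0) M)) := by
    intro i hi
    rw [step_lat_congr_S2 hi hf hM, lat_kF hμ hM hi,
      step_plus_congr_H le_rfl hf (Free_mono H1_sub_S2 hM), fwd_kF hμ hM]
    ring
  rw [sum_congr rfl e2, sum_const, nsmul_eq_mul]
  rfl

lemma nu_const (hμ : 0 < μ) (h0 : 0 ≤ p) (h1 : p ≤ 1) (hr : Rate μ α ρ) {q : Dir d → ℝ}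
    (hq : Wts q) (c : ℝ) : nu μ p q (fun _ : Mem d => c) = c := by
  have hb0 : Bd α 0 (fun _ : Mem d => (0:ℝ)) := Bd_of_abs_le hr.α_pos.le le_rfl (by simp)
  have := nu_coboundary hμ h0 h1 hr hq hb0 rfl c
  simpa [P_const hμ hq] using this

/-- The coefficient of `ε²` from pairs of lateral steps is negative. -/
lemma kL_neg (hμ : 0 < μ) (h0 : 0 < p) (h1 : p < 1) (hr : Rate μ α ρ) (hm : 0 < mm d) {v0 : ℝ}
    {f0 : Mem d → ℝ} (hs0 : Sol μ p α (qw 0 0) (cp p) v0 f0) {v1 : ℝ} {f1 : Mem d → ℝ}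
    (hs1 : Sol μ p α (qw 0 0) (F0 μ p f0) v1 f1) :
    nu μ p (qw 0 0) (opL μ p f1) < 0 := by
  have hα := hr.α_pos.le
  have hq0 : Wts (qw 0 0 : Dir d → ℝ) := wts_qw le_rfl le_rfl (by simp)
  have hk := kap_pos hμ h1.le
  obtain ⟨C1, hC1⟩ := hs1.bd
  have bL := hC1.opL hμ h0.le h1.le hα
  set c1 := mm d * (cX μ p (mm d) - mm d * (ca μ p * gam μ 1 * p)) with hc1
  set c0 := mm d * (mm d * (ca μ p * gam μ 1 * p * (1 - p))) with hc0
  have bcp := Bd_cp (d := d) h0.le h1.le hα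
  have bc : Bd α |c0 - c1 * p| (fun _ : Mem d => c0 - c1 * p) :=
    Bd_of_abs_le hα (abs_nonneg _) (fun _ => le_rfl)
  have hb := (bcp.smul c1).add bc
  have e1 := nu_congr hμ h0.le h1.le hr hq0 closed_S2 (empty_mem_Free _) bL hb (fun M hM => by
    rw [opL_f1 hμ h0 h1 hr hs0 hs1 hM]
    simp only [Pi.add_apply, Pi.smul_apply, smul_eq_mul, cp, edgeAt_plus]
    rw [hc0, hc1]; ring)
  have e2 : v0 = nu μ p (qw 0 0 : Dir d → ℝ) (cp p) := hs0.eq_nu hμ h0.le h1.le hr hq0 bcp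
  rw [e1, nu_add hμ h0.le h1.le hr hq0 (bcp.smul c1) bc, nu_smul hμ h0.le h1.le hr hq0 bcp,
    nu_const hμ h0.le h1.le hr hq0, ← e2, (sol0 hμ h0.le h1.le hr hs0).1]
  -- the sign
  have g1 := gam_pos hμ 1
  have g2 := gam_pos hμ 2
  have s1 := cb2_neg hμ h0 h1
  have s2 := cc1_pos hμ h0 h1
  have s3 := ce1_pos hμ h0 h1
  have hp : 0 < 1 - p := by linarith
  have ha : ca μ p < 0 := by
    unfold ca; rw [neg_div]
    have : 0 < (p + μ) * (1 + μ) / kap μ p ^ 2 := by positivity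
    linarith
  have hs : p * μ / kap μ p = p - p * (1 - p) / kap μ p := by
    have := hk.ne'
    field_simp
    unfold kap; ring
  rw [hs]
  set s := p * (1 - p) / kap μ p with hsdef
  have hspos : 0 < s := by positivity
  have e3 : c1 * (p - s) + (c0 - c1 * p) = mm d * (-(s * (cc1 μ p * gam μ 1 * p +
      ce1 μ p * gam μ 2 * p * (1 - p) - cb2 μ p * gam μ 2 * p * (1 - p))) +
      mm d * (ca μ p * gam μ 1) * (p * (1 - p) + p * s - (1 - p) * s)) := by
    rw [hc0, hc1]; unfold cX; ring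
  have e4 : p * (1 - p) + p * s - (1 - p) * s = p * (1 - p) * (μ + p) / kap μ p := by
    rw [hsdef]
    have := hk.ne'
    field_simp
    unfold kap; ring
  have e5 : 0 < p * (1 - p) + p * s - (1 - p) * s := by rw [e4]; positivity
  rw [e3]
  apply mul_neg_of_pos_of_neg hm
  have t1 : 0 ≤ s * (cc1 μ p * gam μ 1 * p +
      ce1 μ p * gam μ 2 * p * (1 - p) - cb2 μ p * gam μ 2 * p * (1 - p)) := by
    apply mul_nonneg hspos.le
    have u1 : 0 ≤ cc1 μ p * gam μ 1 * p := by positivity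
    have u2 : 0 ≤ ce1 μ p * gam μ 2 * p * (1 - p) := by positivity
    have u3 : cb2 μ p * gam μ 2 * p * (1 - p) ≤ 0 := by
      have : 0 ≤ gam μ 2 * p * (1 - p) := by positivity
      have := mul_nonpos_of_nonpos_of_nonneg s1 this
      linarith
    linarith
  have t2 : mm d * (ca μ p * gam μ 1) * (p * (1 - p) + p * s - (1 - p) * s) < 0 := by
    have : mm d * (ca μ p * gam μ 1) < 0 :=
      mul_neg_of_pos_of_neg hm (mul_neg_of_neg_of_pos ha g1)
    exact mul_neg_of_neg_of_pos this e5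
  linarith

end Pool.Agent.Helper96.DP
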