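import Pool.Agent.Helper96.DP.Renewal

/-!
# Decorrelation of the state of edges
-/

set_option linter.unusedSectionVars false
set_option linter.unusedSimpArgs false
set_option linter.unusedVariables false

namespace Pool.Agent.Helper96.DP

open MeasureTheory ProbabilityTheory Filter Topology Set

/-- centred state -/
noncomputable def ctr (p : ℝ) (b : Bool) : ℝ := (if b then 1 else 0) - p

lemma abs_ctr_le {p : ℝ} (h0 : 0 ≤ p) (h1 : p ≤ 1) (b : Bool) : |ctr p b| ≤ 1 := by
  unfold ctr; rw [abs_le]; split_ifs <;> constructor <;> linarith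

/-- The law of the states. -/
noncomputable def coinLaw (p : unitInterval) : Measure (ℕ → Bool) :=
  Measure.infinitePi fun _ : ℕ => bernoulliMeasure true false p

instance (p : unitInterval) : IsProbabilityMeasure (coinLaw p) := by
  unfold coinLaw; infer_instance

lemma edgeLaw_eq (μ : ℝ) (p : unitInterval) : edgeLaw μ p = (clockLaw μ).prod (coinLaw p) := rfl

lemma integral_ctr (p : unitInterval) :
    ∫ b, ctr (p : ℝ) b ∂(bernoulliMeasure true false p) = 0 := by
  rw [bernoulliMeasure_def, integral_add_measure, integral_smul_nnreal_measure,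
    integral_smul_nnreal_measure, integral_dirac, integral_dirac]
  · simp only [ctr, NNReal.smul_def, smul_eq_mul, if_true]
    simp
    ring
  · exact Integrable.of_finite
  · exact Integrable.of_finite

section
variable {p : unitInterval} {k : ℕ} {z : (ℕ → Bool) → ℝ} {C : ℝ}

lemma measurable_fin_dep (hz : ∀ a b : ℕ → Bool, (∀ j ≤ k, a j = b j) → z a = z b)
    {X : Type*} [MeasurableSpace X] {f : X → ℕ → Bool} (hf : ∀ j, Measurable fun x => f x j) :
    Measurable fun x => z (f x) := by
  let e : (Fin (k + 1) → Bool) → ℝ := fun v => z fun j => if h : j < k + 1 then v ⟨j, h⟩ else true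
  have h1 : (fun x => z (f x)) = e ∘ fun x (i : Fin (k + 1)) => f x i := by
    funext x
    refine hz _ _ fun j hj => ?_
    simp [Nat.lt_succ_of_le hj]
  rw [h1]
  exact (measurable_of_countable e).comp (measurable_pi_iff.2 fun i => hf i)

lemma coin_zero (hz : ∀ a b : ℕ → Bool, (∀ j ≤ k, a j = b j) → z a = z b)
    (hC : ∀ a, |z a| ≤ C) {n : ℕ → ℕ} {m : ℕ} (hm : ∀ j ≤ k, n j < m) :
    ∫ b, z (fun j => b (n j)) * ctr p (b m) ∂(coinLaw p) = 0 := by
  have hmeas : Measurable fun b : ℕ → Bool => z (fun j => b (n j)) * ctr p (b m) :=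
    (measurable_fin_dep hz fun j => measurable_pi_apply _).mul
      ((measurable_of_countable (ctr (p : ℝ))).comp (measurable_pi_apply m))
  have hi : Integrable (fun b : ℕ → Bool => z (fun j => b (n j)) * ctr p (b m)) (coinLaw p) := by
    refine Integrable.of_bound hmeas.aestronglyMeasurable (C * 1) (ae_of_all _ fun b => ?_)
    rw [Real.norm_eq_abs, abs_mul]
    exact mul_le_mul (hC _) (abs_ctr_le p.2.1 p.2.2 _) (abs_nonneg _)
      ((abs_nonneg _).trans (hC (fun _ => true)))
  have h1 := integral_update (bernoulliMeasure true false p) m hi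
  change ∫ b, z (fun j => b (n j)) * ctr p (b m) ∂(coinLaw p) = _ at h1
  rw [h1]
  have h2 : ∀ b : ℕ → Bool, ∫ x, z (fun j => Function.update b m x (n j)) *
      ctr p (Function.update b m x m) ∂(bernoulliMeasure true false p) = 0 := by
    intro b
    have h3 : ∀ x, z (fun j => Function.update b m x (n j)) * ctr p (Function.update b m x m) =
        z (fun j => b (n j)) * ctr p x := by
      intro x
      rw [Function.update_self]
      congr 1
      refine hz _ _ fun j hj => ?_
      rw [Function.update_of_ne (hm j hj).ne]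
    simp only [h3]
    rw [integral_const_mul, integral_ctr, mul_zero]
  simp only [h2]
  simp

variable {μ : ℝ} {t : ℕ → ℝ}

lemma measurable_stateAt (τ : ℝ) : Measurable fun ξ : EdgeRand => stateAt ξ τ := by
  have h1 : Measurable fun z : (ℕ → Bool) × ℕ => z.1 z.2 :=
    measurable_from_prod_countable_left fun n => measurable_pi_apply n
  exact h1.comp (measurable_snd.prodMk ((measurable_rings τ).comp measurable_fst))

/-- The Markov property of the state of an edge. -/
lemma single (hμ : 0 < μ) (ht0 : ∀ j, 0 ≤ t j) (htm : Monotone t)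
    (hz : ∀ a b : ℕ → Bool, (∀ j ≤ k, a j = b j) → z a = z b) (hC : ∀ a, |z a| ≤ C) :
    ∫ ξ, z (fun j => stateAt ξ (t j)) * ctr p (stateAt ξ (t (k + 1))) ∂(edgeLaw μ p) =
    Real.exp (-(μ * (t (k + 1) - t k))) *
      ∫ ξ, z (fun j => stateAt ξ (t j)) * ctr p (stateAt ξ (t k)) ∂(edgeLaw μ p) := by
  have hpc := prob_clockLaw hμ
  have hC0 : 0 ≤ C := (abs_nonneg _).trans (hC fun _ => true)
  have hbd : ∀ (a : ℕ → Bool) (b : Bool), ‖z a * ctr p b‖ ≤ C * 1 := by
    intro a b
    rw [Real.norm_eq_abs, abs_mul]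
    exact mul_le_mul (hC _) (abs_ctr_le p.2.1 p.2.2 _) (abs_nonneg _) hC0
  have hmeas : ∀ m, Measurable fun ξ : EdgeRand =>
      z (fun j => stateAt ξ (t j)) * ctr p (stateAt ξ (t m)) := fun m =>
    (measurable_fin_dep hz fun j => measurable_stateAt _).mul
      ((measurable_of_countable (ctr (p : ℝ))).comp (measurable_stateAt _))
  have hint : ∀ m, Integrable (fun ξ : EdgeRand =>
      z (fun j => stateAt ξ (t j)) * ctr p (stateAt ξ (t m))) ((clockLaw μ).prod (coinLaw p)) :=
    fun m => Integrable.of_bound (hmeas m).aestronglyMeasurable (C * 1)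
      (ae_of_all _ fun ξ => hbd _ _)
  rw [edgeLaw_eq, integral_prod _ (hint _), integral_prod _ (hint _)]
  set Ψ : (ℕ → ℕ) → ℝ := fun n => ∫ b, z (fun j => b (n j)) * ctr p (b (n k)) ∂(coinLaw p) with hΨ
  have hΨdep : ∀ n n' : ℕ → ℕ, (∀ j ≤ k, n j = n' j) → Ψ n = Ψ n' := by
    intro n n' h
    simp only [hΨ]
    refine integral_congr_ae (ae_of_all _ fun b => ?_)
    simp only
    rw [h k le_rfl]
    congr 1
    exact hz _ _ fun j hj => by rw [h j hj]
  have hΨb : ∀ n, |Ψ n| ≤ C * 1 := by
    intro n
    have := norm_integral_le_of_norm_le_const (μ := coinLaw p)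
      (f := fun b : ℕ → Bool => z (fun j => b (n j)) * ctr p (b (n k))) (C := C * 1)
      (ae_of_all _ fun b => hbd _ _)
    simpa using this
  have e2 : ∀ g : ℕ → ℝ, ∫ b, z (fun j => stateAt (g, b) (t j)) * ctr p (stateAt (g, b) (t k))
      ∂(coinLaw p) = Ψ fun j => rings g (t j) := fun g => rfl
  have e1 : ∀ᵐ g ∂(clockLaw μ), ∫ b, z (fun j => stateAt (g, b) (t j)) *
      ctr p (stateAt (g, b) (t (k + 1))) ∂(coinLaw p) =
      if rings g (t (k + 1)) = rings g (t k) then Ψ fun j => rings g (t j) else 0 := by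
    filter_upwards [ae_good hμ] with g hg
    split_ifs with h
    · simp only [hΨ, stateAt, h]
    · refine coin_zero (n := fun j => rings g (t j)) (m := rings g (t (k + 1))) hz hC
        fun j hj => ?_
      have h1 : rings g (t j) ≤ rings g (t k) := rings_mono hg (htm hj)
      have h2 : rings g (t k) ≤ rings g (t (k + 1)) := rings_mono hg (htm (Nat.le_succ k))
      exact lt_of_le_of_lt h1 (lt_of_le_of_ne h2 (Ne.symm h))
  simp only [e2]
  rw [integral_congr_ae e1]
  exact renewal hμ ht0 htm hΨdep hΨb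

end

end Pool.Agent.Helper96.DP
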