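import Pool.Agent.Helper96.DP.Global

/-!
# The speed is the stationary mean of the cost
-/

set_option linter.unusedSectionVars false
set_option linter.unusedSimpArgs false
set_option linter.unusedVariables false

namespace Pool.Agent.Helper96.DP

open MeasureTheory ProbabilityTheory Filter Topology Set

variable {d : ℕ} [NeZero d]

/-- displacement at the `(n+1)`-st ring in direction `e_1` -/
noncomputable def dsp (p : ℝ) (ω : Rand d) (n : ℕ) : ℝ :=
  (vec (ω.2.2 n) 0 : ℝ) * (p + chiω p ω n (n + 1) {edgeAt 0 (ω.2.2 n)})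

lemma pos_succ_sub (p : ℝ) (ω : Rand d) (n : ℕ) :
    ((pos ω (n + 1) 0 : ℤ) : ℝ) - (pos ω n 0 : ℤ) = dsp p ω n := by
  unfold dsp chiω chi
  simp only [Finset.prod_singleton, ← pos_eq, ← edgeAt_shE]
  rw [pos]
  simp only [sta, ctr]
  by_cases h : stateAt (ω.1 (edgeAt (pos ω n) (ω.2.2 n))) (ringTime ω.2.1 (n + 1)) = true
  · simp only [h, if_true, Pi.add_apply]; push_cast; ring
  · have h' : stateAt (ω.1 (edgeAt (pos ω n) (ω.2.2 n))) (ringTime ω.2.1 (n + 1)) = false := by
      simpa using h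
    simp [h']

lemma vec_abs_le (a : Dir d) (i : Fin d) : |((vec a i : ℤ) : ℝ)| ≤ 1 := by
  unfold vec
  by_cases h : i = a.1
  · subst h
    rw [Pi.single_eq_same]
    split_ifs <;> simp
  · rw [Pi.single_eq_of_ne h]; simp

lemma abs_pos_le (ω : Rand d) (n : ℕ) (i : Fin d) : |((pos ω n i : ℤ) : ℝ)| ≤ n := by
  induction n with
  | zero => simp [pos]
  | succ n ih =>
    rw [pos]
    split_ifs with h
    · simp only [Pi.add_apply]
      push_cast
      exact (abs_add_le _ _).trans (add_le_add ih (vec_abs_le _ _))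
    · push_cast; linarith

lemma vec_plus : (vec (plus : Dir d) 0 : ℤ) = 1 := by simp [vec, plus]
lemma vec_minus : (vec (minus : Dir d) 0 : ℤ) = -1 := by simp [vec, minus]
lemma vec_lat {a : Dir d} (h : a ∈ lat d) : (vec a 0 : ℤ) = 0 := by
  unfold vec
  exact Pi.single_eq_of_ne (Ne.symm (mem_lat.1 h)) _

lemma measurable_coord (n : ℕ) (i : Fin d) :
    Measurable fun ω : Rand d => ((pos ω n i : ℤ) : ℝ) :=
  (measurable_of_countable fun z : Site d => ((z i : ℤ) : ℝ)).comp (measurable_pos n)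

section
variable {p : unitInterval} {μ lam : ℝ}

lemma integrable_coord (hμ : 0 < μ) (n : ℕ) (i : Fin d) :
    Integrable (fun ω : Rand d => ((pos ω n i : ℤ) : ℝ)) (modelLaw d μ p lam) := by
  have := prob_modelLaw (d := d) hμ p lam
  exact Integrable.of_bound (measurable_coord n i).aestronglyMeasurable n
    (ae_of_all _ fun ω => abs_pos_le ω n i)

lemma integral_dsp (hμ : 0 < μ) (n : ℕ) :
    ∫ ω, dsp (p : ℝ) ω n ∂(modelLaw d μ p lam) =
      ∑ b : Dir d, dirProb lam b * ((vec b 0 : ℝ) * (p + uk μ p lam n (n + 1) {edgeAt 0 b})) := by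
  have hpm := prob_modelLaw (d := d) hμ p lam
  have hpE := prob_envLaw (d := d) hμ p
  have hpc := prob_clockLaw one_pos
  have hi : Integrable (fun ω : Rand d => dsp (p : ℝ) ω n) (modelLaw d μ p lam) := by
    have := (integrable_coord (p := p) (lam := lam) (d := d) hμ (n + 1) 0).sub
      (integrable_coord (p := p) (lam := lam) (d := d) hμ n 0)
    refine this.congr (ae_of_all _ fun ω => ?_)
    simp only [Pi.sub_apply]
    exact pos_succ_sub (p : ℝ) ω n
  rw [modelLaw_eq] at hi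
  rw [modelLaw_eq, integral_prod_symm _ hi]
  have h2 := hi.integral_prod_right
  rw [integral_prod _ h2]
  have e1 : ∀ (s : ℕ → ℝ) (D : ℕ → Dir d), ∫ E, dsp (p : ℝ) (E, (s, D)) n ∂(envLaw d μ p) =
      (vec (D n) 0 : ℝ) * (p + Ech μ p (ringTime s) D n (n + 1) {edgeAt 0 (D n)}) := by
    intro s D
    unfold dsp
    simp only
    rw [integral_const_mul]
    congr 1
    have hi3 : Integrable (fun E : Edge d → EdgeRand =>
        chiω (p : ℝ) ((E, (s, D)) : Rand d) n (n + 1) {edgeAt 0 (D n)}) (envLaw d μ p) :=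
      integrable_chi hμ (ringTime s) D n (n + 1) _
    rw [integral_add (integrable_const _) hi3, integral_const]
    simp only [probReal_univ, one_smul]
    rfl
  simp only [e1]
  have e2 : ∀ s : ℕ → ℝ, ∫ D, ((vec (D n) 0 : ℤ) : ℝ) * (p +
      Ech μ p (ringTime s) D n (n + 1) {edgeAt 0 (D n)}) ∂(dirsLaw d lam) =
      ∑ b : Dir d, dirProb lam b *
        ((vec b 0 : ℝ) * (p + Vk μ p lam n (n + 1) {edgeAt 0 b} s)) := by
    intro s
    rw [dirs_avg lam n (F := fun b D => ((vec b 0 : ℤ) : ℝ) * ((p : ℝ) +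
      Ech μ p (ringTime s) D n (n + 1) {edgeAt 0 b}))]
    · refine Finset.sum_congr rfl fun b _ => ?_
      rw [integral_const_mul, integral_add (integrable_const _) (integrable_Ech hμ _ _ _ _),
        integral_const]
      simp only [probReal_univ, one_smul]
      rfl
    · intro b
      exact ((integrable_const _).add (integrable_Ech hμ _ _ _ _)).const_mul _
    · intro b D x
      rw [Ech_dep (ringTime s) (ringTime s) (Function.update D n x) D n (n + 1) {edgeAt 0 b}
        (Nat.le_succ n) (fun _ _ => rfl) fun j hj => by rw [Function.update_of_ne hj.ne]]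
  simp only [e2]
  rw [integral_finsetSum]
  · refine Finset.sum_congr rfl fun b _ => ?_
    rw [integral_const_mul, integral_const_mul,
      integral_add (integrable_const _) (integrable_Vk hμ _ _ _), integral_const, uk_eq hμ]
    simp only [probReal_univ, one_smul]
  · intro b _
    exact (((integrable_const _).add (integrable_Vk hμ _ _ _)).const_mul _).const_mul _

lemma pow_const (hμ : 0 < μ) {q : Dir d → ℝ} (hq : Wts q) (p c : ℝ) (n : ℕ) :
    ((P μ p q) ^ n) (fun _ => c) = fun _ => c := by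
  induction n with
  | zero => simp
  | succ n ih =>
    rw [pow_succ, Module.End.mul_apply]
    have : P μ p q (fun _ => c) = fun _ => c := by
      funext M; exact P_const hμ hq c M
    rw [this, ih]

lemma integral_dsp' (hμ : 0 < μ) (n : ℕ) :
    ∫ ω, dsp (p : ℝ) ω n ∂(modelLaw d μ p lam) =
      ((P μ (p : ℝ) (dirProb lam)) ^ n) (cost (p : ℝ) (dirProb lam)) (∅ : Mem d) := by
  rw [integral_dsp hμ, sum_dir]
  have h0 : ∑ a ∈ lat d, dirProb lam a *
      (((vec a 0 : ℤ) : ℝ) * (p + uk μ p lam n (n + 1) {edgeAt 0 a})) = 0 :=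
    Finset.sum_eq_zero fun a ha => by rw [vec_lat ha]; simp
  rw [h0, vec_plus, vec_minus, uk_eq_P hμ, uk_eq_P hμ]
  have h1 : (cost (p : ℝ) (dirProb lam) : Mem d → ℝ) =
      dirProb lam (plus : Dir d) • ((fun _ => (p : ℝ)) + Phi (p : ℝ) {edgeAt 0 plus}) +
      dirProb lam (minus : Dir d) • (-((fun _ => (p : ℝ)) + Phi (p : ℝ) {edgeAt 0 minus})) := by
    funext M
    simp [cost, cp, cm, Phi]
    ring
  rw [h1, map_add, map_smul, map_smul, map_neg, map_add, map_add,
    pow_const hμ (wts_dirProb lam)]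
  simp only [Pi.add_apply, Pi.smul_apply, Pi.neg_apply, smul_eq_mul]
  push_cast
  ring

lemma integral_pos (hμ : 0 < μ) (n : ℕ) :
    ∫ ω, ((pos ω n 0 : ℤ) : ℝ) ∂(modelLaw d μ p lam) =
      ∑ k ∈ Finset.range n,
        ((P μ (p : ℝ) (dirProb lam)) ^ k) (cost (p : ℝ) (dirProb lam)) (∅ : Mem d) := by
  induction n with
  | zero => simp [pos]
  | succ n ih =>
    rw [Finset.sum_range_succ, ← ih, ← integral_dsp' hμ]
    have hi1 := integrable_coord (p := p) (lam := lam) (d := d) hμ (n + 1) 0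
    have hi2 := integrable_coord (p := p) (lam := lam) (d := d) hμ n 0
    have h3 : ∫ ω, dsp (p : ℝ) ω n ∂(modelLaw d μ p lam) =
        ∫ ω, (((pos ω (n + 1) 0 : ℤ) : ℝ) - (pos ω n 0 : ℤ)) ∂(modelLaw d μ p lam) :=
      integral_congr_ae (ae_of_all _ fun ω => (pos_succ_sub (p : ℝ) ω n).symm)
    rw [h3, integral_sub hi1 hi2]
    ring

/-! ### The Cesàro limit -/

lemma PW_le (hμ : 0 < μ) {p α : ℝ} (h0 : 0 ≤ p) (h1 : p ≤ 1) (hα : 0 ≤ α) {q : Dir d → ℝ}
    (hq : Wts q) (M : Mem d) : P μ p q (W α) M ≤ 1 + α * ((M.card + 1) / (1 + μ)) := by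
  rw [P_apply]
  calc ∑ a, q a * step μ p a (W α) M ≤ ∑ a, q a * (1 + α * ((M.card + 1) / (1 + μ))) :=
        Finset.sum_le_sum fun a _ =>
          mul_le_mul_of_nonneg_left (step_W_le hμ h0 h1 hα a M) (hq.nonneg a)
    _ = 1 + α * ((M.card + 1) / (1 + μ)) := by rw [← Finset.sum_mul, hq.sum, one_mul]

lemma powW_le (hμ : 0 < μ) {p α : ℝ} (h0 : 0 ≤ p) (h1 : p ≤ 1) (hα : 0 ≤ α) {q : Dir d → ℝ}
    (hq : Wts q) : ∃ C : ℝ, ∀ n : ℕ, ((P μ p q) ^ n) (W α) (∅ : Mem d) ≤ C := by
  set γ : ℝ := 1 / (1 + μ) with hγ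
  have hγ0 : 0 < γ := by positivity
  have hγ1 : γ < 1 := by rw [hγ, div_lt_one (by linarith)]; linarith
  set c : ℝ := (1 - γ + α * γ) / (1 - γ) with hc
  have hc0 : 0 ≤ c := by
    refine div_nonneg ?_ (by linarith)
    have := mul_nonneg hα hγ0.le
    linarith
  have hcc : c * (1 - γ) = 1 - γ + α * γ := by
    rw [hc]; exact div_mul_cancel₀ _ (by linarith)
  have key : ∀ n : ℕ, ∀ M : Mem d, ((P μ p q) ^ n) (W α - fun _ => c : Mem d → ℝ) M ≤
      (γ ^ n • (W α - fun _ => c) : Mem d → ℝ) M := by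
    intro n
    induction n with
    | zero => intro M; simp
    | succ n ih =>
      intro M
      rw [pow_succ', Module.End.mul_apply]
      refine (P_mono hμ h0 h1 hq ih M).trans ?_
      rw [map_smul, map_sub]
      have e1 : P μ p q (fun _ => c) = fun _ => c := by funext M; exact P_const hμ hq c M
      rw [e1]
      simp only [Pi.smul_apply, Pi.sub_apply, smul_eq_mul]
      rw [pow_succ, mul_assoc]
      refine mul_le_mul_of_nonneg_left ?_ (by positivity)
      have e2 := PW_le hμ h0 h1 hα hq M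
      have e3 : 1 + α * (((M.card : ℝ) + 1) / (1 + μ)) = 1 + α * (M.card + 1) * γ := by
        rw [hγ]; ring
      rw [e3] at e2
      unfold W at e2 ⊢
      nlinarith
  refine ⟨1 + c, fun n => ?_⟩
  have h3 := key n ∅
  rw [map_sub, pow_const hμ hq] at h3
  simp only [Pi.smul_apply, Pi.sub_apply, smul_eq_mul] at h3
  have h4 : W α (∅ : Mem d) = 1 := by simp [W]
  rw [h4] at h3
  have h5 : γ ^ n ≤ 1 := pow_le_one₀ hγ0.le hγ1.le
  have h6 : 0 ≤ γ ^ n := by positivity
  nlinarith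

lemma pow_abs_le (hμ : 0 < μ) {p : ℝ} (h0 : 0 ≤ p) (h1 : p ≤ 1) {q : Dir d → ℝ}
    (hq : Wts q) {h g : Mem d → ℝ} (hh : ∀ M, |h M| ≤ g M) (n : ℕ) :
    ∀ M, |((P μ p q) ^ n) h M| ≤ ((P μ p q) ^ n) g M := by
  induction n with
  | zero => simpa using hh
  | succ n ih =>
    intro M
    rw [pow_succ', Module.End.mul_apply, Module.End.mul_apply, abs_le]
    constructor
    · have := P_mono hμ h0 h1 hq (g := -((P μ p q) ^ n) g) (g' := ((P μ p q) ^ n) h)
        (fun M => (abs_le.1 (ih M)).1) M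
      rwa [map_neg, Pi.neg_apply] at this
    · exact P_mono hμ h0 h1 hq (fun M => (abs_le.1 (ih M)).2) M

lemma cesaro (hμ : 0 < μ) {p : ℝ} (h0 : 0 ≤ p) (h1 : p ≤ 1) {q : Dir d → ℝ}
    (hq : Wts q) : Tendsto (fun n : ℕ => (∑ k ∈ Finset.range n,
      ((P μ p q) ^ k) (cost p q) (∅ : Mem d)) / n) atTop (𝓝 (nu μ p q (cost p q))) := by
  obtain ⟨α, ρ, hr⟩ := exists_rate hμ
  have hα := hr.α_pos.le
  obtain ⟨h, hs, -, hb⟩ := exists_sol hμ h0 h1 hr hq (Bd_cost (d := d) h0 h1 hα q)
  set v := nu μ p q (cost p q) with hv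
  obtain ⟨CW, hCW⟩ := powW_le (d := d) hμ h0 h1 hα hq
  set C := (1 - ρ)⁻¹ * (|q plus| * 1 + |q minus| * 1) +
    (1 - ρ)⁻¹ * (|q plus| * 1 + |q minus| * 1) * (1 - ρ)⁻¹ with hC
  have hC0 : 0 ≤ C := hb.nonneg hα
  have hsum : ∀ n : ℕ, ∑ k ∈ Finset.range n, ((P μ p q) ^ k) (cost p q) (∅ : Mem d) =
      n * v - ((P μ p q) ^ n) h ∅ := by
    intro n
    induction n with
    | zero => simp [hs.zero]
    | succ n ih =>
      rw [Finset.sum_range_succ, ih]
      have e1 : (cost p q : Mem d → ℝ) = (fun _ => v) + h - P μ p q h := by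
        funext M
        have := hs.eq M
        simp only [Pi.add_apply, Pi.sub_apply]
        linarith
      have e2 : ((P μ p q) ^ n) (cost p q) (∅ : Mem d) =
          v + ((P μ p q) ^ n) h ∅ - ((P μ p q) ^ (n + 1)) h ∅ := by
        rw [e1, map_sub, map_add, pow_const hμ hq, pow_succ, Module.End.mul_apply]
        rfl
      rw [e2]; push_cast; ring
  have hbd : ∀ n : ℕ, |((P μ p q) ^ n) h (∅ : Mem d)| ≤ C * CW := by
    intro n
    have e1 := pow_abs_le hμ h0 h1 hq (h := h) (g := C • W α) (fun M => hb M) n ∅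
    rw [map_smul, Pi.smul_apply, smul_eq_mul] at e1
    exact e1.trans (mul_le_mul_of_nonneg_left (hCW n) hC0)
  have h2 : Tendsto (fun n : ℕ => v - ((P μ p q) ^ n) h (∅ : Mem d) / n) atTop (𝓝 (v - 0)) := by
    refine tendsto_const_nhds.sub ?_
    refine squeeze_zero_norm (a := fun n : ℕ => C * CW / n) (fun n => ?_)
      (tendsto_const_div_atTop_nhds_zero_nat _)
    rw [Real.norm_eq_abs, abs_div, Nat.abs_cast]
    exact div_le_div_of_nonneg_right (hbd n) (Nat.cast_nonneg n)
  rw [sub_zero] at h2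
  refine h2.congr' ?_
  filter_upwards [eventually_gt_atTop 0] with n hn
  have : (n : ℝ) ≠ 0 := by positivity
  rw [hsum n]
  field_simp

/-! ### The speed -/

theorem speed_eq_nu (hμ : 0 < μ) {v : ℝ} (hv : IsSpeed d μ p lam v) :
    v = nu μ (p : ℝ) (dirProb lam) (cost (p : ℝ) (dirProb lam) : Mem d → ℝ) := by
  have hpm := prob_modelLaw (d := d) hμ p lam
  have hpE := prob_envLaw (d := d) hμ p
  have hpc := prob_clockLaw one_pos
  have hs1 : ∀ᵐ ω ∂(modelLaw d μ p lam), Good ω.2.1 ∧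
      Tendsto (fun n : ℕ => ringTime ω.2.1 n / n) atTop (𝓝 (1 / 1)) := by
    have h1 : ∀ᵐ s ∂(clockLaw 1), Good s ∧
        Tendsto (fun n : ℕ => ringTime s n / n) atTop (𝓝 (1 / 1)) :=
      (ae_good one_pos).and (slln one_pos)
    have h2 : ∀ᵐ z ∂((clockLaw 1).prod (dirsLaw d lam)), Good z.1 ∧
        Tendsto (fun n : ℕ => ringTime z.1 n / n) atTop (𝓝 (1 / 1)) :=
      Measure.quasiMeasurePreserving_fst.ae h1
    rw [modelLaw_eq]
    exact Measure.quasiMeasurePreserving_snd.ae h2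
  have hlim : ∀ᵐ ω ∂(modelLaw d μ p lam),
      Tendsto (fun n : ℕ => ((pos ω n 0 : ℤ) : ℝ) / n) atTop (𝓝 v) := by
    filter_upwards [hs1, hv] with ω hω hω2
    obtain ⟨hg, hsl⟩ := hω
    have h3 : Tendsto (fun t : ℝ => ((walk ω t 0 : ℤ) : ℝ) / t) atTop (𝓝 v) := by
      have := (tendsto_pi_nhds.1 hω2) 0
      simpa using this
    have h4 : Tendsto (fun n : ℕ => ringTime ω.2.1 n) atTop atTop := by
      have h4 : Tendsto (fun n : ℕ => ringTime ω.2.1 n / n * n) atTop atTop :=
        hsl.pos_mul_atTop (by positivity) tendsto_natCast_atTop_atTop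
      refine h4.congr' ?_
      filter_upwards [eventually_gt_atTop 0] with n hn
      have : (n : ℝ) ≠ 0 := by positivity
      field_simp
    have h5 : ∀ n, walk ω (ringTime ω.2.1 n) = pos ω n := by
      intro n
      unfold walk
      have h0 : 0 ≤ ringTime ω.2.1 n := Finset.sum_nonneg fun i _ => (hg.1 i).le
      rw [(rings_eq_iff hg h0 n).2 ⟨le_rfl, by linarith [hg.1 n]⟩]
    have h6 := (h3.comp h4).mul hsl
    simp only [Function.comp_def, h5, div_one, mul_one] at h6
    refine h6.congr' ?_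
    filter_upwards [h4.eventually_gt_atTop 0] with n hn
    field_simp
  have hE : Tendsto (fun n : ℕ => ∫ ω, ((pos ω n 0 : ℤ) : ℝ) / n ∂(modelLaw d μ p lam)) atTop
      (𝓝 (∫ ω, v ∂(modelLaw d μ p lam))) := by
    refine tendsto_integral_of_dominated_convergence (fun _ => (1:ℝ)) (fun n => ?_)
      (integrable_const _) (fun n => ae_of_all _ fun ω => ?_) hlim
    · exact ((measurable_coord n 0).div_const _).aestronglyMeasurable
    · rw [Real.norm_eq_abs, abs_div, Nat.abs_cast]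
      exact div_le_one_of_le₀ (abs_pos_le ω n 0) (Nat.cast_nonneg n)
  have h7 : ∫ ω, v ∂(modelLaw d μ p lam) = v := by simp
  rw [h7] at hE
  have h8 := cesaro (d := d) hμ p.2.1 p.2.2 (wts_dirProb lam)
  refine tendsto_nhds_unique (hE.congr fun n => ?_) h8
  rw [integral_div, integral_pos hμ]

end

end Pool.Agent.Helper96.DP
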